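import Pool.Agent.P.MP_57148c_nt.Defs

open Polynomial

noncomputable section
namespace Pool.Agent.FS

variable {k : Type} [Field k] [IsAlgClosed k] [CharP k 3]

theorem exists_cube {f : k[X]} (hf : derivative f = 0) : ∃ g : k[X], f = g ^ 3 := by
  have : Fact (Nat.Prime 3) := ⟨Nat.prime_three⟩
  have h1 := expand_contract 3 hf (by norm_num)
  refine ⟨(contract 3 f).map (frobeniusEquiv k 3).symm.toRingHom, ?_⟩
  rw [← map_frobenius_expand 3, map_expand, Polynomial.map_map]
  have : (frobenius k 3).comp (frobeniusEquiv k 3).symm.toRingHom = RingHom.id k := by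
    ext x
    simp
  rw [this, Polynomial.map_id, h1]

omit [IsAlgClosed k] in
theorem cube_add (f g : k[X]) : (f + g) ^ 3 = f ^ 3 + g ^ 3 := add_pow_char f g 3

omit [IsAlgClosed k] in
theorem cube_inj {f g : k[X]} (h : f ^ 3 = g ^ 3) : f = g := by
  have h3 : (3 : k[X]) = 0 := three_eq_zero
  have : (f - g) ^ 3 = 0 := by
    linear_combination h + (f * g ^ 2 - f ^ 2 * g) * h3
  exact sub_eq_zero.1 (pow_eq_zero_iff (by norm_num) |>.1 this)

omit [IsAlgClosed k] in
theorem char3_derivative_cube (r : k[X]) : derivative (r ^ 3) = 0 := by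
  have h3 : (3 : k) = 0 := three_eq_zero'
  rw [derivative_pow]
  simp [h3]

omit [IsAlgClosed k] in
theorem derivative_cube_mul (r q : k[X]) : derivative (r ^ 3 * q) = r ^ 3 * derivative q := by
  rw [derivative_mul, char3_derivative_cube, zero_mul, zero_add]

theorem exists_dec (q : k[X]) : ∃ q₀ q₁ q₂ : k[X], q = q₀ ^ 3 + X * q₁ ^ 3 + X ^ 2 * q₂ ^ 3 := by
  induction q using Polynomial.induction_on' with
  | add p q hp hq =>
    obtain ⟨a, b, c, rfl⟩ := hp
    obtain ⟨a', b', c', rfl⟩ := hq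
    refine ⟨a + a', b + b', c + c', ?_⟩
    rw [cube_add, cube_add, cube_add]
    ring
  | monomial n a =>
    obtain ⟨r, rfl⟩ := IsAlgClosed.exists_pow_nat_eq a (n := 3) (by norm_num)
    rw [← C_mul_X_pow_eq_monomial, C_pow]
    obtain ⟨t, ht | ht | ht⟩ : ∃ t, n = 3 * t ∨ n = 3 * t + 1 ∨ n = 3 * t + 2 :=
      ⟨n / 3, by omega⟩
    · exact ⟨C r * X ^ t, 0, 0, by rw [ht]; ring⟩
    · exact ⟨0, C r * X ^ t, 0, by rw [ht]; ring⟩
    · exact ⟨0, 0, C r * X ^ t, by rw [ht]; ring⟩

omit [IsAlgClosed k] in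
theorem char3_dec_d (q₀ q₁ q₂ : k[X]) :
    derivative (q₀ ^ 3 + X * q₁ ^ 3 + X ^ 2 * q₂ ^ 3) = q₁ ^ 3 + 2 * X * q₂ ^ 3 := by
  rw [derivative_add, derivative_add, char3_derivative_cube, mul_comm X, derivative_cube_mul,
    mul_comm (X ^ 2), derivative_cube_mul, derivative_X, derivative_X_sq]
  simp only [map_ofNat]
  ring

omit [IsAlgClosed k] in
theorem char3_dec_dd (q₀ q₁ q₂ : k[X]) :
    derivative (derivative (q₀ ^ 3 + X * q₁ ^ 3 + X ^ 2 * q₂ ^ 3)) = - q₂ ^ 3 := by
  have h3 : (3 : k[X]) = 0 := three_eq_zero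
  rw [char3_dec_d, derivative_add, char3_derivative_cube, mul_comm (2 * X), derivative_cube_mul]
  simp only [derivative_mul, derivative_ofNat, derivative_X]
  linear_combination q₂ ^ 3 * h3

omit [IsAlgClosed k] in
theorem dec_unique {q₀ q₁ q₂ : k[X]} (h : q₀ ^ 3 + X * q₁ ^ 3 + X ^ 2 * q₂ ^ 3 = 0) :
    q₀ = 0 ∧ q₁ = 0 ∧ q₂ = 0 := by
  have h2 := char3_dec_dd q₀ q₁ q₂
  have h1 := char3_dec_d q₀ q₁ q₂
  rw [h] at h1 h2
  simp only [derivative_zero] at h1 h2
  have e2 : q₂ = 0 := pow_eq_zero_iff (n := 3) (by norm_num) |>.1 (neg_eq_zero.1 h2.symm)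
  have e1 : q₁ = 0 := pow_eq_zero_iff (n := 3) (by norm_num) |>.1 (by
    rw [e2] at h1; simpa using h1.symm)
  have e0 : q₀ = 0 := pow_eq_zero_iff (n := 3) (by norm_num) |>.1 (by
    rw [e1, e2] at h; simpa using h)
  exact ⟨e0, e1, e2⟩

omit [IsAlgClosed k] in
theorem dec_natDegree {q₀ q₁ q₂ : k[X]}
    (h : (q₀ ^ 3 + X * q₁ ^ 3 + X ^ 2 * q₂ ^ 3).natDegree ≤ 8) :
    q₀.natDegree ≤ 2 ∧ q₁.natDegree ≤ 2 ∧ q₂.natDegree ≤ 2 := by
  have h2 := char3_dec_dd q₀ q₁ q₂
  have h1 := char3_dec_d q₀ q₁ q₂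
  set q := q₀ ^ 3 + X * q₁ ^ 3 + X ^ 2 * q₂ ^ 3 with hq
  have d1 := natDegree_derivative_le q
  have d2 := natDegree_derivative_le (derivative q)
  have e2 : q₂.natDegree ≤ 2 := by
    rw [h2, natDegree_neg, natDegree_pow] at d2
    omega
  have c2 : (q₂ ^ 3).natDegree ≤ 6 := by rw [natDegree_pow]; omega
  have e1 : q₁.natDegree ≤ 2 := by
    have : q₁ ^ 3 = derivative q - 2 * X * q₂ ^ 3 := by rw [h1]; ring
    have b : (q₁ ^ 3).natDegree ≤ 7 := by
      rw [this]
      refine (natDegree_sub_le _ _).trans (max_le (by omega) ?_)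
      have : (2 * X * q₂ ^ 3 : k[X]).natDegree ≤ 1 + 6 :=
        natDegree_mul_le_of_le (by compute_degree) c2
      omega
    rw [natDegree_pow] at b
    omega
  have c1 : (q₁ ^ 3).natDegree ≤ 6 := by rw [natDegree_pow]; omega
  have e0 : q₀.natDegree ≤ 2 := by
    have : q₀ ^ 3 = q - X * q₁ ^ 3 - X ^ 2 * q₂ ^ 3 := by rw [hq]; ring
    have b : (q₀ ^ 3).natDegree ≤ 8 := by
      rw [this]
      have a1 : (X * q₁ ^ 3 : k[X]).natDegree ≤ 1 + 6 :=
        natDegree_mul_le_of_le (by compute_degree) c1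
      have a2 : (X ^ 2 * q₂ ^ 3 : k[X]).natDegree ≤ 2 + 6 :=
        natDegree_mul_le_of_le (by compute_degree) c2
      refine (natDegree_sub_le _ _).trans (max_le ((natDegree_sub_le _ _).trans
        (max_le h (by omega))) (by omega))
    rw [natDegree_pow] at b
    omega
  exact ⟨e0, e1, e2⟩

omit [IsAlgClosed k] in
/-- a polynomial with vanishing second derivative has no zero of order `2 mod 3` -/
theorem rm_mod_three {f : k[X]} (hf : f ≠ 0) (h : derivative (derivative f) = 0) (b : k) :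
    rootMultiplicity b f % 3 ≠ 2 := by
  intro hm
  obtain ⟨g, hg, hnd⟩ := exists_eq_pow_rootMultiplicity_mul_and_not_dvd f hf b
  obtain ⟨t, ht⟩ : ∃ t, rootMultiplicity b f = 3 * t + 2 := ⟨rootMultiplicity b f / 3, by omega⟩
  have e : f = ((X - C b) ^ t) ^ 3 * ((X - C b) ^ 2 * g) := by
    rw [hg, ht]; ring
  rw [e, derivative_cube_mul, derivative_cube_mul] at h
  have h' := (mul_eq_zero.1 h).resolve_left (pow_ne_zero _ (pow_ne_zero _ (X_sub_C_ne_zero b)))
  have h'' := congrArg (eval b) h'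
  simp [derivative_mul, derivative_pow] at h''
  have h3 : (3 : k) = 0 := three_eq_zero'
  apply hnd
  rw [dvd_iff_isRoot]
  rcases h'' with h2 | h2
  · exfalso
    have : (1 : k) = 0 := by linear_combination h3 - h2
    exact one_ne_zero this
  · exact h2

omit [IsAlgClosed k] [CharP k 3] in
theorem rm_le_rm_dd {f : k[X]} (h : derivative (derivative f) ≠ 0) (b : k) :
    rootMultiplicity b f ≤ rootMultiplicity b (derivative (derivative f)) + 2 := by
  have h1 : derivative f ≠ 0 := fun e => h (by rw [e, derivative_zero])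
  have a := rootMultiplicity_sub_one_le_derivative_rootMultiplicity_of_ne_zero f b h1
  have c := rootMultiplicity_sub_one_le_derivative_rootMultiplicity_of_ne_zero _ b h
  omega

omit [CharP k 3] in
theorem dvd_of_rm_le {f g : k[X]} (hf : f ≠ 0) (hg : g ≠ 0)
    (h : ∀ b, rootMultiplicity b f ≤ rootMultiplicity b g) : f ∣ g := by
  classical
  have _ := hg
  refine (IsAlgClosed.splits f).dvd_of_roots_le_roots hf (Multiset.le_iff_count.2 fun b => ?_)
  rw [count_roots, count_roots]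
  exact h b

omit [CharP k 3] in
theorem coprime_of_no_root {f g : k[X]} (h : ∀ b, f.eval b = 0 → g.eval b ≠ 0) :
    IsCoprime f g := by
  rw [isCoprime_iff_aeval_ne_zero_of_isAlgClosed k k]
  intro a
  simp only [coe_aeval_eq_eval]
  by_cases e : f.eval a = 0
  · exact Or.inr (h a e)
  · exact Or.inl e

omit [CharP k 3] in
/-- a tuple without common root all of whose Wronskians vanish has zero derivative -/
theorem derivative_eq_zero_of_wronskian {X' : Fin 4 → k[X]} (hc : ∀ b, ∃ i, (X' i).eval b ≠ 0)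
    (hw : ∀ i j, wronskian (X' i) (X' j) = 0) (i : Fin 4) : derivative (X' i) = 0 := by
  by_contra hd
  have h0 : X' i ≠ 0 := fun e => hd (by rw [e, derivative_zero])
  refine hd (dvd_derivative_iff.1 (dvd_of_rm_le h0 hd fun b => ?_))
  obtain ⟨j, hj⟩ := hc b
  have hj0 : X' j ≠ 0 := fun e => hj (by rw [e, eval_zero])
  have e : X' i * derivative (X' j) = derivative (X' i) * X' j := sub_eq_zero.1 (hw i j)
  have hne : derivative (X' i) * X' j ≠ 0 := mul_ne_zero hd hj0
  have r : rootMultiplicity b (derivative (X' i) * X' j) =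
      rootMultiplicity b (derivative (X' i)) := by
    rw [rootMultiplicity_mul hne, rootMultiplicity_eq_zero (p := X' j) hj, add_zero]
  rw [← r, le_rootMultiplicity_iff hne, ← e]
  exact (pow_rootMultiplicity_dvd _ _).mul_right _

omit [CharP k 3] in
/-- extraction of the greatest common divisor -/
theorem exists_gcd_tuple {F : Fin 4 → k[X]} (hF : ∃ i, F i ≠ 0) :
    ∃ (h : k[X]) (X' : Fin 4 → k[X]), h ≠ 0 ∧ (∀ i, F i = h * X' i) ∧
      ∀ b, ∃ i, (X' i).eval b ≠ 0 := by
  classical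
  obtain ⟨g, hg, h1⟩ := Finset.extract_gcd (s := Finset.univ) F Finset.univ_nonempty
  refine ⟨Finset.univ.gcd F, g, fun e => ?_, fun i => hg i (Finset.mem_univ i), fun b => ?_⟩
  · obtain ⟨i, hi⟩ := hF
    exact hi (by rw [hg i (Finset.mem_univ i), e, zero_mul])
  · by_contra hb
    push Not at hb
    have : X - C b ∣ Finset.univ.gcd g := Finset.dvd_gcd fun i _ => dvd_iff_isRoot.2 (hb i)
    rw [h1] at this
    exact not_isUnit_X_sub_C b (isUnit_of_dvd_one this)

omit [IsAlgClosed k] [CharP k 3] in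
theorem natDegree_wronskian_le {R : Type} [CommRing R] {f g : R[X]} {n : ℕ}
    (hf : f.natDegree ≤ n) (hg : g.natDegree ≤ n) (hw : wronskian f g ≠ 0) :
    (wronskian f g).natDegree + 2 ≤ 2 * n := by
  have hlt := natDegree_wronskian_lt_add hw
  obtain _ | m := n
  · omega
  have df : (derivative f).natDegree ≤ m := (natDegree_derivative_le f).trans (by omega)
  have dg : (derivative g).natDegree ≤ m := (natDegree_derivative_le g).trans (by omega)
  have c : (wronskian f g).coeff (2 * m + 1) = 0 := by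
    have a1 := coeff_mul_add_eq_of_natDegree_le hf dg
    have a2 := coeff_mul_add_eq_of_natDegree_le df hg
    rw [wronskian, coeff_sub, show 2 * m + 1 = m + 1 + m by ring, a1,
      show m + 1 + m = m + (m + 1) by ring, a2, coeff_derivative, coeff_derivative]
    ring
  have : (wronskian f g).natDegree ≠ 2 * m + 1 := fun e =>
    hw (leadingCoeff_eq_zero.1 (by rw [leadingCoeff, e, c]))
  omega

end Pool.Agent.FS
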