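import Mathlib

/-! Rational curves of degree at most five on the Fermat sextic: definitions.
`A` is a valuation ring of `ℂ` above 3, `kk A` its residue field. -/

open Polynomial

noncomputable section
namespace Pool.Agent.FS

/-- the valuation ring lies above 3 -/
class Three (A : ValuationSubring ℂ) : Prop where
  three : IsLocalRing.residue A 3 = 0

/-- residue field -/
abbrev kk (A : ValuationSubring ℂ) := IsLocalRing.ResidueField A

variable {A : ValuationSubring ℂ}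

/-- residue of an element -/
abbrev res (a : A) : kk A := IsLocalRing.residue A a

instance charP [Three A] : CharP (kk A) 3 :=
  (CharP.charP_iff_prime_eq_zero Nat.prime_three).2 (by
    have := Three.three (A := A)
    rwa [map_ofNat] at this)

/-- reduction of a polynomial -/
def bar (f : A[X]) : (kk A)[X] := f.map (IsLocalRing.residue A)

open Classical in
/-- reduction after division by the content (well defined up to a nonzero scalar) -/
def nred (f : A[X]) : (kk A)[X] :=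
  if h : ∃ g : A[X], bar g ≠ 0 ∧ ∃ c : A, c ≠ 0 ∧ f = C c * g then bar h.choose else 0

/-- a normalised solution of degree `D` -/
structure Sol (D : ℕ) (x : Fin 4 → A[X]) : Prop where
  deg : ∀ i, (x i).natDegree ≤ D
  full : ∃ i, (x i).coeff D ≠ 0
  sum : ∑ i, x i ^ 6 = 0
  ind : ∀ i j, i ≠ j → wronskian (x i) (x j) ≠ 0
  cop : ∀ t : ℂ, ∃ i, aeval t (x i) ≠ 0
  prim : ∃ i, bar (x i) ≠ 0

/-- the inequalities carried by a disc of weight `n` with boundary point `P`, where `o i j` is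
the number of zeros of the Wronskian of `x i`, `x j` in the disc -/
structure Ineq {k : Type} [Field k] (n : ℕ) (P : Fin 4 → k) (o : Fin 4 → Fin 4 → ℕ) : Prop where
  line : 0 < n → ∃ j l, j ≠ l ∧ P j ^ 2 + P l ^ 2 = 0
  one : (∀ i, P i ≠ 0) → ∀ i j l, i ≠ j → i ≠ l → j ≠ l → P j ^ 2 + P l ^ 2 ≠ 0 →
    4 * n ≤ o i j + o i l
  two : 0 < n → ∀ i j, i ≠ j → P i = 0 → P j = 0 → 2 * n + 2 ≤ o i j

/-- the claim for the open residue disc of `b`, if it has weight `n` -/
def Claim (x : Fin 4 → A[X]) (b : kk A) (n : ℕ) : Prop :=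
  ∀ Z : Fin 4 → (kk A)[X], (∀ i, bar (x i) = (X - C b) ^ n * Z i) → (∃ i, (Z i).eval b ≠ 0) →
    Ineq n (fun i => (Z i).eval b)
      fun i j => rootMultiplicity b (nred (wronskian (x i) (x j)))

/-- the claim for the closed unit disc, if it has weight `n` -/
def Top (x : Fin 4 → A[X]) (n : ℕ) : Prop :=
  (∀ i, (bar (x i)).natDegree ≤ n) → (∃ i, (bar (x i)).coeff n ≠ 0) →
    Ineq n (fun i => (bar (x i)).coeff n) fun i j => (nred (wronskian (x i) (x j))).natDegree

/-- the reduction is the Frobenius of a line -/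
def Insep (x : Fin 4 → A[X]) : Prop :=
  ∃ (h : (kk A)[X]) (a : Fin 4 → (kk A)[X]), h ≠ 0 ∧ (∀ i, bar (x i) = h * a i ^ 3) ∧
    (∀ i, (a i).natDegree ≤ 1) ∧ ∃ i j, wronskian (a i) (a j) ≠ 0

/-- the same, with the point at infinity in general position -/
structure Good (D : ℕ) (x : Fin 4 → A[X]) (h : (kk A)[X]) (a : Fin 4 → (kk A)[X]) : Prop where
  ne : h ≠ 0
  eq : ∀ i, bar (x i) = h * a i ^ 3
  degh : h.natDegree + 3 = D
  dega : ∀ i, (a i).natDegree ≤ 1
  nc : ∃ i j, wronskian (a i) (a j) ≠ 0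
  one : ∀ i, a i ≠ 0 → (a i).natDegree = 1
  two : ∀ i j, a i ^ 2 + a j ^ 2 ≠ 0 → (a i ^ 2 + a j ^ 2).natDegree = 2

/-- near a special line: the generic case -/
def Gen (x : Fin 4 → A[X]) (i i' : kk A) : Prop :=
  ∃ (c : A) (q1 q3 : A[X]), wronskian (x 0) (x 1) = C c * q1 ∧ wronskian (x 2) (x 3) = C c * q3 ∧
    (bar q1 ≠ 0 ∨ bar q3 ≠ 0) ∧
    C i * bar (x 1) ^ 4 * bar q1 + C i' * bar (x 3) ^ 4 * bar q3 = 0

/-- near a special line: the exceptional shallow case -/
def Shal (x : Fin 4 → A[X]) (i i' : kk A) : Prop :=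
  ∃ (I I' ρ μ : A) (m1 m3 : A[X]), I ^ 2 = -1 ∧ I' ^ 2 = -1 ∧ res I = i ∧ res I' = i' ∧
    ρ ≠ 0 ∧ res ρ = 0 ∧ res μ = 0 ∧ 3 = ρ ^ 2 * μ ∧
    x 0 = C I * x 1 + C ρ * m1 ∧ x 2 = C I' * x 3 + C ρ * m3 ∧ (bar m1 ≠ 0 ∨ bar m3 ≠ 0) ∧
    C i * bar (x 1) * bar m1 + C i' * bar (x 3) * bar m3 = 0 ∧
    wronskian (bar m1) (bar (x 1)) = 0 ∧ wronskian (bar m3) (bar (x 3)) = 0

/-- near a special line: the exceptional deep case -/
def Deep (D : ℕ) (x : Fin 4 → A[X]) (i i' : kk A) : Prop :=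
  ∃ (ρ : A) (m1 m3 p1 p3 : A[X]) (ν : kk A), ρ ≠ 0 ∧
    wronskian (x 0) (x 1) = C (3 * ρ) * p1 ∧ wronskian (x 2) (x 3) = C (3 * ρ) * p3 ∧
    wronskian m1 (x 1) = 3 * p1 ∧ wronskian m3 (x 3) = 3 * p3 ∧
    m1.natDegree ≤ D ∧ m3.natDegree ≤ D ∧
    C i * bar (x 1) ^ 3 * (bar m1 * (bar (x 1) ^ 2 - C ν * bar m1 ^ 2)) +
      C i' * bar (x 3) ^ 3 * (bar m3 * (bar (x 3) ^ 2 - C ν * bar m3 ^ 2)) = 0 ∧
    bar m1 * (bar (x 1) ^ 2 - C ν * bar m1 ^ 2) ≠ 0 ∧
    bar m3 * (bar (x 3) ^ 2 - C ν * bar m3 ^ 2) ≠ 0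

/-- linear relations satisfied by the Pluecker coordinates of a tangent direction -/
structure Rel {R : Type} [CommRing R] (a : Fin 4 → R) (Q : Fin 4 → Fin 4 → R) : Prop where
  anti : ∀ i j, Q i j = -Q j i
  cyc : ∀ i j l, a i * Q j l + a j * Q l i + a l * Q i j = 0
  syz : ∀ j, ∑ i, a i ^ 5 * Q i j = 0

@[simp] theorem bar_add (f g : A[X]) : bar (f + g) = bar f + bar g := Polynomial.map_add _
@[simp] theorem bar_sub (f g : A[X]) : bar (f - g) = bar f - bar g := Polynomial.map_sub _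
@[simp] theorem bar_neg (f : A[X]) : bar (-f) = -bar f := Polynomial.map_neg _
@[simp] theorem bar_mul (f g : A[X]) : bar (f * g) = bar f * bar g := Polynomial.map_mul _
@[simp] theorem bar_pow (f : A[X]) (n : ℕ) : bar (f ^ n) = bar f ^ n := Polynomial.map_pow _ _
@[simp] theorem bar_C (c : A) : bar (C c) = C (res c) := Polynomial.map_C _
@[simp] theorem bar_X : bar (X : A[X]) = X := Polynomial.map_X _
@[simp] theorem bar_zero : bar (0 : A[X]) = 0 := Polynomial.map_zero _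
@[simp] theorem bar_one : bar (1 : A[X]) = 1 := Polynomial.map_one _
@[simp] theorem bar_ofNat (n : ℕ) [n.AtLeastTwo] :
    bar (ofNat(n) : A[X]) = ofNat(n) := Polynomial.map_ofNat _ _
theorem bar_derivative (f : A[X]) : bar (derivative f) = derivative (bar f) :=
  (Polynomial.derivative_map _ _).symm
theorem bar_wronskian (f g : A[X]) : bar (wronskian f g) = wronskian (bar f) (bar g) := by
  simp only [wronskian, bar_sub, bar_mul, bar_derivative]
theorem coeff_bar (f : A[X]) (n : ℕ) : (bar f).coeff n = res (f.coeff n) := coeff_map _ _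
theorem natDegree_bar_le (f : A[X]) : (bar f).natDegree ≤ f.natDegree := natDegree_map_le
theorem bar_sum {ι : Type} (s : Finset ι) (f : ι → A[X]) :
    bar (∑ i ∈ s, f i) = ∑ i ∈ s, bar (f i) := Polynomial.map_sum _ _ _
theorem res_eq_zero_iff (a : A) : res a = 0 ↔ ¬ IsUnit a :=
  (IsLocalRing.residue_eq_zero_iff a).trans (IsLocalRing.mem_maximalIdeal a)
theorem res_surj (b : kk A) : ∃ a : A, res a = b := IsLocalRing.residue_surjective b

/-- `3 = 0` in polynomials over a field of characteristic 3 -/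
theorem three_eq_zero {k : Type} [Field k] [CharP k 3] : (3 : k[X]) = 0 := by
  have : ((3 : ℕ) : k[X]) = 0 := CharP.cast_eq_zero _ 3
  exact_mod_cast this

theorem three_eq_zero' {k : Type} [Field k] [CharP k 3] : (3 : k) = 0 := by
  have : ((3 : ℕ) : k) = 0 := CharP.cast_eq_zero _ 3
  exact_mod_cast this

theorem Ineq.zero {k : Type} [Field k] (P : Fin 4 → k) (o : Fin 4 → Fin 4 → ℕ) : Ineq 0 P o :=
  ⟨fun h => absurd h (lt_irrefl 0), fun _ _ _ _ _ _ _ _ => by simp,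
    fun h => absurd h (lt_irrefl 0)⟩

theorem Ineq.mono {k : Type} [Field k] {n : ℕ} {P : Fin 4 → k} {o o' : Fin 4 → Fin 4 → ℕ}
    (h : Ineq n P o) (ho : ∀ i j, i ≠ j → o i j ≤ o' i j) : Ineq n P o' :=
  ⟨h.line, fun hP i j l hij hil hjl hne => (h.one hP i j l hij hil hjl hne).trans
    (Nat.add_le_add (ho i j hij) (ho i l hil)),
    fun hn i j hij hi hj => (h.two hn i j hij hi hj).trans (ho i j hij)⟩

theorem Ineq.perm {k : Type} [Field k] {n : ℕ} {P : Fin 4 → k} {o : Fin 4 → Fin 4 → ℕ}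
    (h : Ineq n P o) (σ : Equiv.Perm (Fin 4)) :
    Ineq n (fun i => P (σ i)) fun i j => o (σ i) (σ j) := by
  refine ⟨fun hn => ?_, fun hP i j l hij hil hjl hne => ?_, fun hn i j hij hi hj => ?_⟩
  · obtain ⟨j, l, hjl, e⟩ := h.line hn
    exact ⟨σ.symm j, σ.symm l, fun e' => hjl (σ.symm.injective e'), by simpa using e⟩
  · exact h.one (fun i => by simpa using hP (σ.symm i)) _ _ _ (σ.injective.ne hij)
      (σ.injective.ne hil) (σ.injective.ne hjl) hne
  · exact h.two hn _ _ (σ.injective.ne hij) hi hj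

theorem Sol.perm {D : ℕ} {x : Fin 4 → A[X]} (h : Sol D x) (σ : Equiv.Perm (Fin 4)) :
    Sol D fun i => x (σ i) := by
  refine ⟨fun i => h.deg _, ?_, ?_, fun i j hij => h.ind _ _ (σ.injective.ne hij), fun t => ?_, ?_⟩
  · obtain ⟨i, hi⟩ := h.full
    exact ⟨σ.symm i, by simpa using hi⟩
  · rw [Equiv.sum_comp σ fun i => x i ^ 6]; exact h.sum
  · obtain ⟨i, hi⟩ := h.cop t
    exact ⟨σ.symm i, by simpa using hi⟩
  · obtain ⟨i, hi⟩ := h.prim
    exact ⟨σ.symm i, by simpa using hi⟩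

theorem Claim.perm {x : Fin 4 → A[X]} {b : kk A} {n : ℕ} (h : Claim x b n)
    (σ : Equiv.Perm (Fin 4)) : Claim (fun i => x (σ i)) b n := by
  intro Z hZ hne
  obtain ⟨i0, hi0⟩ := hne
  have := (h (fun i => Z (σ.symm i)) (fun i => by simpa using hZ (σ.symm i))
    ⟨σ i0, by simpa using hi0⟩).perm σ
  simpa using this

theorem Top.of_perm {x : Fin 4 → A[X]} {n : ℕ} (σ : Equiv.Perm (Fin 4))
    (h : Top (fun i => x (σ i)) n) : Top x n := by
  intro hd hne
  obtain ⟨i0, hi0⟩ := hne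
  have := (h (fun i => hd _) ⟨σ.symm i0, by simpa using hi0⟩).perm σ.symm
  simpa using this

theorem Good.perm {D : ℕ} {x : Fin 4 → A[X]} {h : (kk A)[X]} {a : Fin 4 → (kk A)[X]}
    (H : Good D x h a) (σ : Equiv.Perm (Fin 4)) :
    Good D (fun i => x (σ i)) h fun i => a (σ i) := by
  refine ⟨H.ne, fun i => H.eq _, H.degh, fun i => H.dega _, ?_, fun i => H.one _,
    fun i j => H.two _ _⟩
  obtain ⟨i, j, hij⟩ := H.nc
  exact ⟨σ.symm i, σ.symm j, by simpa using hij⟩

theorem Rel.perm {R : Type} [CommRing R] {a : Fin 4 → R} {Q : Fin 4 → Fin 4 → R} (h : Rel a Q)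
    (σ : Equiv.Perm (Fin 4)) : Rel (fun i => a (σ i)) fun i j => Q (σ i) (σ j) :=
  ⟨fun _ _ => h.anti _ _, fun _ _ _ => h.cyc _ _ _, fun j => by
    rw [Equiv.sum_comp σ fun i => a i ^ 5 * Q i (σ j)]; exact h.syz _⟩

theorem exists_perm {i j : Fin 4} (hij : i ≠ j) :
    ∃ σ : Equiv.Perm (Fin 4), σ 0 = i ∧ σ 1 = j := by
  revert i j; decide

/-- the permutation exchanging the pairs `0, 1` and `2, 3` -/
def sw : Equiv.Perm (Fin 4) := Equiv.swap 0 2 * Equiv.swap 1 3

@[simp] theorem sw0 : sw 0 = 2 := by decide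
@[simp] theorem sw1 : sw 1 = 3 := by decide
@[simp] theorem sw2 : sw 2 = 0 := by decide
@[simp] theorem sw3 : sw 3 = 1 := by decide

theorem Deep.swap {D : ℕ} {x : Fin 4 → A[X]} {i i' : kk A} (h : Deep D x i i') :
    Deep D (fun j => x (sw j)) i' i := by
  obtain ⟨ρ, m1, m3, p1, p3, ν, h0, h1, h2, h3, h4, h5, h6, h7, h8, h9⟩ := h
  refine ⟨ρ, m3, m1, p3, p1, ν, h0, by simpa using h2, by simpa using h1, by simpa using h4,
    by simpa using h3, h6, h5, ?_, by simpa only [sw1] using h9, by simpa only [sw3] using h8⟩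
  simp only [sw1, sw3]
  rw [add_comm]; exact h7

end Pool.Agent.FS
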