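import Pool.Agent.P.MP_57148c_nt.Char3

open Polynomial

noncomputable section
namespace Pool.Agent.FS

/-- two independent polynomials of degree at most one span -/
theorem g1_span {k : Type} [Field k] {u v c : k[X]} (hu : u.natDegree ≤ 1) (hv : v.natDegree ≤ 1)
    (w : wronskian u v ≠ 0) (hc : c.natDegree ≤ 1) : ∃ s t : k, c = C s * u + C t * v := by
  obtain ⟨p1, q1, rfl⟩ := exists_eq_X_add_C_of_natDegree_le_one hu
  obtain ⟨p2, q2, rfl⟩ := exists_eq_X_add_C_of_natDegree_le_one hv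
  obtain ⟨r, s, rfl⟩ := exists_eq_X_add_C_of_natDegree_le_one hc
  have hΔ : q1 * p2 - p1 * q2 ≠ 0 := by
    intro h
    apply w
    have h' : C q1 * C p2 - C p1 * C q2 = (0 : k[X]) := by
      rw [← C_mul, ← C_mul, ← C_sub, h, C_0]
    simp only [wronskian, derivative_add, derivative_C_mul, derivative_X, derivative_C, mul_one,
      add_zero]
    linear_combination h'
  refine ⟨(s * p2 - r * q2) / (q1 * p2 - p1 * q2), (q1 * r - p1 * s) / (q1 * p2 - p1 * q2), ?_⟩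
  have e1 : r = (s * p2 - r * q2) / (q1 * p2 - p1 * q2) * p1 +
      (q1 * r - p1 * s) / (q1 * p2 - p1 * q2) * p2 := by
    rw [div_mul_eq_mul_div, div_mul_eq_mul_div, ← add_div, eq_div_iff hΔ]
    ring
  have e2 : s = (s * p2 - r * q2) / (q1 * p2 - p1 * q2) * q1 +
      (q1 * r - p1 * s) / (q1 * p2 - p1 * q2) * q2 := by
    rw [div_mul_eq_mul_div, div_mul_eq_mul_div, ← add_div, eq_div_iff hΔ]
    ring
  have e1' := congrArg C e1
  have e2' := congrArg C e2
  simp only [C_add, C_mul] at e1' e2'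
  linear_combination X * e1' + e2'

theorem g1_coprime {k : Type} [Field k] {u v : k[X]} (hu : u.natDegree ≤ 1)
    (hv : v.natDegree ≤ 1) (w : wronskian u v ≠ 0) : IsCoprime u v := by
  obtain ⟨s, t, h⟩ := g1_span (c := 1) hu hv w (by simp)
  exact ⟨C s, C t, h.symm⟩

theorem g1_step {k : Type} [Field k] {u v R : k[X]} (hv : v.natDegree = 1) (huv : IsCoprime u v)
    {z : k} {n : ℕ} (h : C z * u ^ n + v * R = 0) : z = 0 ∧ R = 0 := by
  have hv0 : v ≠ 0 := by
    rintro rfl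
    simp at hv
  have h1 : v ∣ C z * u ^ n := ⟨-R, by linear_combination h⟩
  have h2 : v ∣ C z := (huv.symm.pow_right (n := n)).dvd_of_dvd_mul_right h1
  have hz : z = 0 := by
    by_contra hz
    have := natDegree_le_of_dvd h2 (C_ne_zero.2 hz)
    rw [hv, natDegree_C] at this
    exact absurd this (by decide)
  refine ⟨hz, ?_⟩
  rw [hz, C_0, zero_mul, zero_add] at h
  exact (mul_eq_zero.1 h).resolve_left hv0

/-- no syzygy of degree one between three fifth powers -/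
theorem g1_syz {k : Type} [Field k] [CharP k 3] {u v y c1 c2 c3 : k[X]} (hu : u.natDegree = 1)
    (hv : v.natDegree = 1) (hy : y.natDegree = 1) (w : wronskian u v ≠ 0)
    (w1 : wronskian u y ≠ 0) (w2 : wronskian v y ≠ 0) (h1 : c1.natDegree ≤ 1)
    (h2 : c2.natDegree ≤ 1) (h3 : c3.natDegree ≤ 1)
    (h : u ^ 5 * c1 + v ^ 5 * c2 + y ^ 5 * c3 = 0) : c1 = 0 ∧ c2 = 0 ∧ c3 = 0 := by
  obtain ⟨α, β, rfl⟩ := g1_span hu.le hv.le w hy.le
  obtain ⟨c11, c12, rfl⟩ := g1_span hu.le hv.le w h1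
  obtain ⟨c21, c22, rfl⟩ := g1_span hu.le hv.le w h2
  obtain ⟨c31, c32, rfl⟩ := g1_span hu.le hv.le w h3
  have hα : α ≠ 0 := by
    rintro rfl
    apply w2
    simp only [wronskian, C_0, zero_mul, zero_add, derivative_C_mul]
    ring
  have hβ : β ≠ 0 := by
    rintro rfl
    apply w1
    simp only [wronskian, C_0, zero_mul, add_zero, derivative_C_mul]
    ring
  have huv := g1_coprime hu.le hv.le w
  have hv0 : v ≠ 0 := by
    rintro rfl
    simp at hv
  have e : C (c11 + c31 * α ^ 5) * u ^ 6 + v * (C (c12 + 5 * c31 * α ^ 4 * β + c32 * α ^ 5) * u ^ 5 +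
      v * (C (10 * c31 * α ^ 3 * β ^ 2 + 5 * c32 * α ^ 4 * β) * u ^ 4 +
      v * (C (10 * c31 * α ^ 2 * β ^ 3 + 10 * c32 * α ^ 3 * β ^ 2) * u ^ 3 +
      v * (C (5 * c31 * α * β ^ 4 + 10 * c32 * α ^ 2 * β ^ 3) * u ^ 2 +
      v * (C (c21 + c31 * β ^ 5 + 5 * c32 * α * β ^ 4) * u +
      v * C (c22 + c32 * β ^ 5)))))) = 0 := by
    simp only [C_add, C_mul, C_pow, map_ofNat]
    linear_combination h
  obtain ⟨z0, e1⟩ := g1_step hv huv e
  obtain ⟨z1, e2⟩ := g1_step hv huv e1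
  obtain ⟨z2, e3⟩ := g1_step hv huv e2
  obtain ⟨z3, -⟩ := g1_step hv huv e3
  have t3 := three_eq_zero' (k := k)
  have k31 : c31 = 0 := by
    have : c31 * (α ^ 3 * β ^ 3) = 0 := by
      linear_combination (2 * β) * z2 - α * z3 - (3 * c31 * α ^ 3 * β ^ 3) * t3
    exact (mul_eq_zero.1 this).resolve_right (mul_ne_zero (pow_ne_zero _ hα) (pow_ne_zero _ hβ))
  have k32 : c32 = 0 := by
    have : c32 * (α ^ 3 * β ^ 2) = 0 := by
      rw [k31] at z3
      linear_combination z3 - (3 * c32 * α ^ 3 * β ^ 2) * t3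
    exact (mul_eq_zero.1 this).resolve_right (mul_ne_zero (pow_ne_zero _ hα) (pow_ne_zero _ hβ))
  subst k31 k32
  have k11 : c11 = 0 := by linear_combination z0
  have k12 : c12 = 0 := by linear_combination z1
  subst k11 k12
  refine ⟨by simp, ?_, by simp⟩
  have : v ^ 5 * (C c21 * u + C c22 * v) = 0 := by
    simp only [C_0, zero_mul, add_zero, mul_zero, zero_add] at h
    exact h
  exact (mul_eq_zero.1 this).resolve_left (pow_ne_zero _ hv0)

theorem g1_diag {k : Type} [Field k] [CharP k 3] {a : Fin 4 → k[X]} {Q : Fin 4 → Fin 4 → k[X]}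
    (hQ : Rel a Q) (i : Fin 4) : Q i i = 0 := by
  linear_combination (-1) * hQ.anti i i + Q i i * three_eq_zero (k := k)

theorem g1_syz0 {k : Type} [Field k] [CharP k 3] {a : Fin 4 → k[X]} {Q : Fin 4 → Fin 4 → k[X]}
    (hQ : Rel a Q) : a 1 ^ 5 * Q 1 0 + a 2 ^ 5 * Q 2 0 + a 3 ^ 5 * Q 3 0 = 0 := by
  have h := hQ.syz 0
  rw [Fin.sum_univ_four, g1_diag hQ 0] at h
  linear_combination h

theorem g1_col {k : Type} [Field k] {a : Fin 4 → k[X]} {Q : Fin 4 → Fin 4 → k[X]}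
    (d : (a 0).natDegree = 1) (hQ : Rel a Q) (h : ∀ j, Q j 0 = 0) : ∀ i j, Q i j = 0 := by
  intro i j
  have h0 : a 0 ≠ 0 := by
    intro e
    rw [e] at d
    simp at d
  have := hQ.cyc 0 i j
  rw [hQ.anti 0 i, h i, h j, neg_zero, mul_zero, mul_zero, add_zero, add_zero] at this
  exact (mul_eq_zero.1 this).resolve_left h0

theorem g1_dec4 {k : Type} [Field k] [CharP k 3]
    {r s t u x0 x1 x2 y0 y1 y2 z0 z1 z2 w0 w1 w2 : k[X]}
    (h : r ^ 3 * (x0 ^ 3 + X * x1 ^ 3 + X ^ 2 * x2 ^ 3) +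
      s ^ 3 * (y0 ^ 3 + X * y1 ^ 3 + X ^ 2 * y2 ^ 3) +
      t ^ 3 * (z0 ^ 3 + X * z1 ^ 3 + X ^ 2 * z2 ^ 3) +
      u ^ 3 * (w0 ^ 3 + X * w1 ^ 3 + X ^ 2 * w2 ^ 3) = 0) :
    r * x0 + s * y0 + t * z0 + u * w0 = 0 ∧ r * x1 + s * y1 + t * z1 + u * w1 = 0 ∧
      r * x2 + s * y2 + t * z2 + u * w2 = 0 := by
  apply dec_unique
  simp only [cube_add, mul_pow]
  linear_combination h

variable {k : Type} [Field k] [IsAlgClosed k] [CharP k 3] {a : Fin 4 → k[X]}

theorem rel_deg_one (d : ∀ i, (a i).natDegree = 1)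
    (w : ∀ i j, i ≠ j → wronskian (a i) (a j) ≠ 0) {Q : Fin 4 → Fin 4 → k[X]} (hQ : Rel a Q)
    (hd : ∀ i j, (Q i j).natDegree ≤ 1) : ∀ i j, Q i j = 0 := by
  obtain ⟨h1, h2, h3⟩ := g1_syz (d 1) (d 2) (d 3) (w 1 2 (by decide)) (w 1 3 (by decide))
    (w 2 3 (by decide)) (hd 1 0) (hd 2 0) (hd 3 0) (g1_syz0 hQ)
  refine g1_col (d 0) hQ fun j => ?_
  fin_cases j
  exacts [g1_diag hQ 0, h1, h2, h3]

theorem rel_root (d : ∀ i, (a i).natDegree = 1)
    (w : ∀ i j, i ≠ j → wronskian (a i) (a j) ≠ 0) {Q : Fin 4 → Fin 4 → k[X]} (hQ : Rel a Q)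
    (hd : ∀ i j, (Q i j).natDegree ≤ 2) {b : k} (hb : ∀ i j, (Q i j).eval b = 0) :
    ∀ i j, Q i j = 0 := by
  have hdv : ∀ i j, ∃ R : k[X], Q i j = (X - C b) * R := fun i j => dvd_iff_isRoot.2 (hb i j)
  choose R hR using hdv
  have h0 : (X - C b : k[X]) ≠ 0 := X_sub_C_ne_zero b
  have hrel : Rel a R := by
    refine ⟨fun i j => ?_, fun i j l => ?_, fun j => ?_⟩
    · apply mul_left_cancel₀ h0
      have := hQ.anti i j
      rw [hR, hR] at this
      linear_combination this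
    · apply mul_left_cancel₀ h0
      have := hQ.cyc i j l
      rw [hR, hR, hR] at this
      linear_combination this
    · apply mul_left_cancel₀ h0
      have := hQ.syz j
      rw [Fin.sum_univ_four] at this ⊢
      rw [hR, hR, hR, hR] at this
      linear_combination this
  have hdeg : ∀ i j, (R i j).natDegree ≤ 1 := by
    intro i j
    by_cases e : R i j = 0
    · rw [e]; simp
    · have := hd i j
      rw [hR, natDegree_mul h0 e, natDegree_X_sub_C] at this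
      omega
  intro i j
  rw [hR, rel_deg_one d w hrel hdeg i j, mul_zero]

theorem rel_prop (d : ∀ i, (a i).natDegree = 1)
    (w : ∀ i j, i ≠ j → wronskian (a i) (a j) ≠ 0) {P Q : Fin 4 → Fin 4 → k[X]} (hP : Rel a P)
    (hQ : Rel a Q) (dP : ∀ i j, (P i j).natDegree ≤ 2) (dQ : ∀ i j, (Q i j).natDegree ≤ 2)
    (hne : ∃ i j, P i j ≠ 0) : ∃ g : k, ∀ i j, Q i j = C g * P i j := by
  have ha : ∀ i, a i ≠ 0 := fun i e => by
    have := d i
    rw [e] at this
    simp at this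
  have sP := g1_syz0 hP
  have sQ := g1_syz0 hQ
  have m23 : P 2 0 * Q 3 0 - Q 2 0 * P 3 0 = 0 := by
    have h1 : a 1 ^ 5 ∣ a 2 ^ 5 * (P 2 0 * Q 3 0 - Q 2 0 * P 3 0) :=
      ⟨-(P 1 0 * Q 3 0 - Q 1 0 * P 3 0), by linear_combination Q 3 0 * sP - P 3 0 * sQ⟩
    have h2 := ((g1_coprime (d 1).le (d 2).le (w 1 2 (by decide))).pow (m := 5)
      (n := 5)).dvd_of_dvd_mul_left h1
    by_contra e
    have h3 := natDegree_le_of_dvd h2 e
    have h4 : (P 2 0 * Q 3 0 - Q 2 0 * P 3 0).natDegree ≤ 4 :=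
      (natDegree_sub_le _ _).trans (max_le
        (natDegree_mul_le.trans (Nat.add_le_add (dP 2 0) (dQ 3 0)))
        (natDegree_mul_le.trans (Nat.add_le_add (dQ 2 0) (dP 3 0))))
    rw [natDegree_pow, d 1] at h3
    omega
  have m13 : P 1 0 * Q 3 0 - Q 1 0 * P 3 0 = 0 := by
    apply mul_left_cancel₀ (pow_ne_zero 5 (ha 1))
    linear_combination Q 3 0 * sP - P 3 0 * sQ - a 2 ^ 5 * m23
  have m12 : P 1 0 * Q 2 0 - Q 1 0 * P 2 0 = 0 := by
    apply mul_left_cancel₀ (pow_ne_zero 5 (ha 1))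
    linear_combination Q 2 0 * sP - P 2 0 * sQ + a 3 ^ 5 * m23
  have p0 := g1_diag hP 0
  have q0 := g1_diag hQ 0
  have m : ∀ j l, P j 0 * Q l 0 = Q j 0 * P l 0 := by
    intro j l
    fin_cases j <;> fin_cases l <;> simp only [Fin.zero_eta, Fin.mk_one, Fin.reduceFinMk] <;>
      first
        | ring1
        | (rw [p0, q0]; ring1)
        | linear_combination m12
        | linear_combination m13
        | linear_combination m23
        | linear_combination -m12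
        | linear_combination -m13
        | linear_combination -m23
  obtain ⟨j, hj⟩ : ∃ j, P j 0 ≠ 0 := by
    by_contra h
    push Not at h
    obtain ⟨i, j, hij⟩ := hne
    exact hij (g1_col (d 0) hP h i j)
  obtain ⟨b, hb⟩ : ∃ b, (a 0 * P j 0).eval b ≠ 0 := by
    by_contra h
    push Not at h
    exact mul_ne_zero (ha 0) hj (Polynomial.funext fun b => by rw [h b, eval_zero])
  rw [eval_mul] at hb
  have hb0 := left_ne_zero_of_mul hb
  have hb1 := right_ne_zero_of_mul hb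
  set g : k := (Q j 0).eval b / (P j 0).eval b with hg
  have hrel : Rel a fun i j => Q i j - C g * P i j := by
    refine ⟨fun i l => ?_, fun i l n => ?_, fun l => ?_⟩
    · linear_combination hQ.anti i l - C g * hP.anti i l
    · linear_combination hQ.cyc i l n - C g * hP.cyc i l n
    · have h1 := hQ.syz l
      have h2 := hP.syz l
      rw [Fin.sum_univ_four] at h1 h2 ⊢
      linear_combination h1 - C g * h2
  have hcol : ∀ l, (Q l 0 - C g * P l 0).eval b = 0 := by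
    intro l
    have := congrArg (eval b) (m j l)
    rw [eval_mul, eval_mul] at this
    rw [eval_sub, eval_mul, eval_C, hg]
    field_simp
    linear_combination this
  have hall : ∀ i l, (Q i l - C g * P i l).eval b = 0 := by
    intro i l
    have h1 := congrArg (eval b) (hrel.cyc 0 i l)
    have h2 := congrArg (eval b) (hrel.anti 0 i)
    simp only [eval_add, eval_mul, eval_neg, eval_zero] at h1 h2
    rw [h2, hcol i, hcol l, neg_zero, mul_zero, mul_zero, add_zero, add_zero] at h1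
    exact (mul_eq_zero.1 h1).resolve_left hb0
  refine ⟨g, fun i l => sub_eq_zero.1 (rel_root d w hrel (fun i l => ?_) hall i l)⟩
  exact (natDegree_sub_le _ _).trans (max_le (dQ i l) ((natDegree_C_mul_le _ _).trans (dP i l)))

/-- Frobenius descent -/
theorem rel_descend (d : ∀ i, (a i).natDegree = 1)
    (w : ∀ i j, i ≠ j → wronskian (a i) (a j) ≠ 0) {q : Fin 4 → Fin 4 → k[X]}
    (hq : Rel (fun i => a i ^ 3) q) (hd : ∀ i j, (q i j).natDegree ≤ 8) (hne : ∃ i j, q i j ≠ 0) :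
    ∃ (P : Fin 4 → Fin 4 → k[X]) (γ : k[X]), Rel a P ∧ (∀ i j, (P i j).natDegree ≤ 2) ∧
      (∃ i j, (P i j).natDegree = 2) ∧ (∀ b, ∃ i j, (P i j).eval b ≠ 0) ∧ γ ≠ 0 ∧
      ∀ i j, q i j = γ * P i j ^ 3 := by
  choose q0 q1 q2 hdec using fun i j => exists_dec (q i j)
  have hA : ∀ i j, 1 * q0 i j + 1 * q0 j i + 0 * 0 + 0 * 0 = 0 ∧
      1 * q1 i j + 1 * q1 j i + 0 * 0 + 0 * 0 = 0 ∧ 1 * q2 i j + 1 * q2 j i + 0 * 0 + 0 * 0 = 0 := by
    intro i j
    apply g1_dec4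
    rw [← hdec, ← hdec]
    linear_combination hq.anti i j
  have hC : ∀ i j l, a i * q0 j l + a j * q0 l i + a l * q0 i j + 0 * 0 = 0 ∧
      a i * q1 j l + a j * q1 l i + a l * q1 i j + 0 * 0 = 0 ∧
      a i * q2 j l + a j * q2 l i + a l * q2 i j + 0 * 0 = 0 := by
    intro i j l
    apply g1_dec4
    rw [← hdec, ← hdec, ← hdec]
    linear_combination hq.cyc i j l
  have hS : ∀ j, a 0 ^ 5 * q0 0 j + a 1 ^ 5 * q0 1 j + a 2 ^ 5 * q0 2 j + a 3 ^ 5 * q0 3 j = 0 ∧
      a 0 ^ 5 * q1 0 j + a 1 ^ 5 * q1 1 j + a 2 ^ 5 * q1 2 j + a 3 ^ 5 * q1 3 j = 0 ∧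
      a 0 ^ 5 * q2 0 j + a 1 ^ 5 * q2 1 j + a 2 ^ 5 * q2 2 j + a 3 ^ 5 * q2 3 j = 0 := by
    intro j
    apply g1_dec4
    rw [← hdec, ← hdec, ← hdec, ← hdec]
    have := hq.syz j
    rw [Fin.sum_univ_four] at this
    linear_combination this
  have r0 : Rel a q0 := ⟨fun i j => by linear_combination (hA i j).1,
    fun i j l => by linear_combination (hC i j l).1,
    fun j => by rw [Fin.sum_univ_four]; exact (hS j).1⟩
  have r1 : Rel a q1 := ⟨fun i j => by linear_combination (hA i j).2.1,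
    fun i j l => by linear_combination (hC i j l).2.1,
    fun j => by rw [Fin.sum_univ_four]; exact (hS j).2.1⟩
  have r2 : Rel a q2 := ⟨fun i j => by linear_combination (hA i j).2.2,
    fun i j l => by linear_combination (hC i j l).2.2,
    fun j => by rw [Fin.sum_univ_four]; exact (hS j).2.2⟩
  have hdeg : ∀ i j, (q0 i j).natDegree ≤ 2 ∧ (q1 i j).natDegree ≤ 2 ∧ (q2 i j).natDegree ≤ 2 :=
    fun i j => dec_natDegree (by rw [← hdec]; exact hd i j)
  obtain ⟨P, rP, dP, nP⟩ : ∃ P : Fin 4 → Fin 4 → k[X], Rel a P ∧ (∀ i j, (P i j).natDegree ≤ 2) ∧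
      ∃ i j, P i j ≠ 0 := by
    obtain ⟨i, j, hij⟩ := hne
    by_cases e0 : q0 i j = 0
    · by_cases e1 : q1 i j = 0
      · refine ⟨q2, r2, fun i j => (hdeg i j).2.2, i, j, fun e2 => hij ?_⟩
        rw [hdec, e0, e1, e2]
        ring
      · exact ⟨q1, r1, fun i j => (hdeg i j).2.1, i, j, e1⟩
    · exact ⟨q0, r0, fun i j => (hdeg i j).1, i, j, e0⟩
  obtain ⟨g0, h0⟩ := rel_prop d w rP r0 dP (fun i j => (hdeg i j).1) nP
  obtain ⟨g1, h1⟩ := rel_prop d w rP r1 dP (fun i j => (hdeg i j).2.1) nP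
  obtain ⟨g2, h2⟩ := rel_prop d w rP r2 dP (fun i j => (hdeg i j).2.2) nP
  have hγ : ∀ i j, q i j = (C g0 ^ 3 + X * C g1 ^ 3 + X ^ 2 * C g2 ^ 3) * P i j ^ 3 := by
    intro i j
    rw [hdec, h0, h1, h2]
    ring
  refine ⟨P, _, rP, dP, ?_, fun b => ?_, fun e => ?_, hγ⟩
  · by_contra h
    push Not at h
    obtain ⟨i, j, hij⟩ := nP
    refine hij (rel_deg_one d w rP (fun i j => ?_) i j)
    have := dP i j
    have := h i j
    omega
  · by_contra h
    push Not at h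
    obtain ⟨i, j, hij⟩ := nP
    exact hij (rel_root d w rP dP h i j)
  · obtain ⟨i, j, hij⟩ := hne
    exact hij (by rw [hγ, e, zero_mul])

end Pool.Agent.FS
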