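import Pool.Agent.P.MP_57148c_nt.Hasse

open Polynomial

noncomputable section
namespace Pool.Agent.FS

variable {k : Type} [Field k] [IsAlgClosed k] [CharP k 3] {a : Fin 4 → k[X]}

theorem g2_alg {R : Type} [CommRing R] [IsDomain R] {a0 a1 a2 a3 b0 b1 b2 b3 : R}
    (s0 : a0 ^ 2 + a1 ^ 2 + a2 ^ 2 + a3 ^ 2 = 0) (s1 : a0 * b0 + a1 * b1 + a2 * b2 + a3 * b3 = 0)
    (s2 : b0 ^ 2 + b1 ^ 2 + b2 ^ 2 + b3 ^ 2 = 0) (p : a0 * b1 - b0 * a1 = 0)
    (n : a0 ^ 2 + a1 ^ 2 ≠ 0) :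
    a2 * b3 - b2 * a3 = 0 ∧ a0 * b2 - b0 * a2 = 0 ∧ a1 * b2 - b1 * a2 = 0 ∧
      a0 * b3 - b0 * a3 = 0 ∧ a1 * b3 - b1 * a3 = 0 := by
  have q : a2 * b3 - b2 * a3 = 0 := by
    refine pow_eq_zero_iff (two_ne_zero) |>.1 ?_
    linear_combination (a0 * b1 - b0 * a1) * p + (b2 ^ 2 + b3 ^ 2) * s0 - (a0 ^ 2 + a1 ^ 2) * s2 +
      (a0 * b0 + a1 * b1 - a2 * b2 - a3 * b3) * s1
  refine ⟨q, ?_, ?_, ?_, ?_⟩ <;> refine (mul_eq_zero.1 ?_).resolve_left n
  · linear_combination a0 * b2 * s0 - a0 * a2 * s1 + a0 * a3 * q + a1 * a2 * p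
  · linear_combination a1 * b2 * s0 - a1 * a2 * s1 + a1 * a3 * q - a0 * a2 * p
  · linear_combination a0 * b3 * s0 - a0 * a3 * s1 - a0 * a2 * q + a1 * a3 * p
  · linear_combination a1 * b3 * s0 - a1 * a3 * s1 - a1 * a2 * q - a0 * a3 * p

omit [IsAlgClosed k] in
theorem g2_indep01 (d : ∀ i, (a i).natDegree ≤ 1) (h2 : ∑ i, a i ^ 2 = 0)
    (n : a 0 ^ 2 + a 1 ^ 2 ≠ 0) (p : wronskian (a 0) (a 1) = 0) (i j : Fin 4) :
    wronskian (a i) (a j) = 0 := by
  have dd : ∀ i, derivative (derivative (a i)) = 0 := fun i =>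
    derivative_of_natDegree_zero (by have := natDegree_derivative_le (a i); have := d i; omega)
  rw [Fin.sum_univ_four] at h2
  have s1 : a 0 * derivative (a 0) + a 1 * derivative (a 1) + a 2 * derivative (a 2) +
      a 3 * derivative (a 3) = 0 := by
    have := congrArg derivative h2
    simp only [sq, derivative_add, derivative_mul, derivative_zero] at this
    linear_combination -this + (a 0 * derivative (a 0) + a 1 * derivative (a 1) +
      a 2 * derivative (a 2) + a 3 * derivative (a 3)) * (three_eq_zero (k := k))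
  have s2 : derivative (a 0) ^ 2 + derivative (a 1) ^ 2 + derivative (a 2) ^ 2 +
      derivative (a 3) ^ 2 = 0 := by
    have := congrArg derivative s1
    simp only [derivative_add, derivative_mul, derivative_zero, dd] at this
    linear_combination this
  obtain ⟨q1, q2, q3, q4, q5⟩ := g2_alg h2 s1 s2 p n
  have ng : ∀ {f g : k[X]}, wronskian f g = 0 → wronskian g f = 0 := fun h => by
    rw [← wronskian_neg_eq, h, neg_zero]
  match i, j with
  | 0, 0 => exact wronskian_self_eq_zero _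
  | 0, 1 => exact p
  | 0, 2 => exact q2
  | 0, 3 => exact q4
  | 1, 0 => exact ng p
  | 1, 1 => exact wronskian_self_eq_zero _
  | 1, 2 => exact q3
  | 1, 3 => exact q5
  | 2, 0 => exact ng q2
  | 2, 1 => exact ng q3
  | 2, 2 => exact wronskian_self_eq_zero _
  | 2, 3 => exact q1
  | 3, 0 => exact ng q4
  | 3, 1 => exact ng q5
  | 3, 2 => exact ng q1
  | 3, 3 => exact wronskian_self_eq_zero _

/-- on a line that is not special the four coordinates are pairwise independent -/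
theorem indep_of_not_special (d : ∀ i, (a i).natDegree ≤ 1) (h2 : ∑ i, a i ^ 2 = 0)
    (nc : ∃ i j, wronskian (a i) (a j) ≠ 0) (ns : ∀ i j, i ≠ j → a i ^ 2 + a j ^ 2 ≠ 0) :
    ∀ i j, i ≠ j → wronskian (a i) (a j) ≠ 0 := by
  intro i j hij hw
  obtain ⟨σ, rfl, rfl⟩ := exists_perm hij
  obtain ⟨u, v, huv⟩ := nc
  have := g2_indep01 (a := fun i => a (σ i)) (fun i => d _)
    (by rw [Equiv.sum_comp σ fun i => a i ^ 2]; exact h2) (ns _ _ hij) hw (σ.symm u) (σ.symm v)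
  simp only [Equiv.apply_symm_apply] at this
  exact huv this

omit [IsAlgClosed k] [CharP k 3] in
theorem g2_deg {u v : k[X]} (hu : u.natDegree ≤ 1) (hv : v.natDegree ≤ 1) {i : k} (hi : i ^ 2 = -1)
    (h : (u ^ 2 + v ^ 2).natDegree = 2) :
    (u + C i * v).natDegree = 1 ∧ (u - C i * v).natDegree = 1 := by
  have hI : (C i) ^ 2 = -1 := by rw [← C_pow, hi, C_neg, C_1]
  have e : u ^ 2 + v ^ 2 = (u + C i * v) * (u - C i * v) := by linear_combination v ^ 2 * hI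
  have h0 : (C i * v).natDegree ≤ 1 := (natDegree_C_mul_le _ _).trans hv
  have h1 : (u + C i * v).natDegree ≤ 1 := natDegree_add_le_of_degree_le hu h0
  have h2 : (u - C i * v).natDegree ≤ 1 := (natDegree_sub_le _ _).trans (max_le hu h0)
  have h3 := natDegree_mul_le (p := u + C i * v) (q := u - C i * v)
  rw [← e, h] at h3
  omega

theorem g2_param (d : ∀ i, (a i).natDegree ≤ 1) (h2 : ∑ i, a i ^ 2 = 0)
    (w : ∀ i j, i ≠ j → wronskian (a i) (a j) ≠ 0)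
    (ns : ∀ i j, i ≠ j → (a i ^ 2 + a j ^ 2).natDegree = 2) {i i' : k} (hi : i ^ 2 = -1)
    (hi' : i' ^ 2 = -1) (hd : a 0 + C i * a 1 ∣ a 2 + C i' * a 3) :
    ∃ (i i' κ : k) (s t : k[X]), i ^ 2 = -1 ∧ i' ^ 2 = -1 ∧ κ ≠ 0 ∧ κ ^ 2 ≠ 1 ∧ κ ^ 2 ≠ -1 ∧
      s.natDegree = 1 ∧ t.natDegree = 1 ∧ IsCoprime s t ∧
      2 * a 0 = s - C κ * t ∧ 2 * C i * a 1 = s + C κ * t ∧
      2 * a 2 = C κ * s + t ∧ 2 * C i' * a 3 = C κ * s - t := by
  have hI : (C i) ^ 2 = -1 := by rw [← C_pow, hi, C_neg, C_1]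
  have hI' : (C i') ^ 2 = -1 := by rw [← C_pow, hi', C_neg, C_1]
  have h3 := three_eq_zero (k := k)
  rw [Fin.sum_univ_four] at h2
  obtain ⟨dU, -⟩ := g2_deg (d 0) (d 1) hi (ns 0 1 (by decide))
  obtain ⟨dV, dV'⟩ := g2_deg (d 2) (d 3) hi' (ns 2 3 (by decide))
  obtain ⟨q, hq⟩ := hd
  have hU : a 0 + C i * a 1 ≠ 0 := ne_zero_of_natDegree_gt (n := 0) (by omega)
  have hq0 : q ≠ 0 := by
    rintro rfl
    rw [hq, mul_zero, natDegree_zero] at dV
    omega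
  have dq : q.natDegree = 0 := by
    rw [hq, natDegree_mul hU hq0] at dV
    omega
  obtain ⟨κ, rfl⟩ : ∃ κ, q = C κ := ⟨_, eq_C_of_natDegree_eq_zero dq⟩
  have hU' : a 0 - C i * a 1 = -(C κ * (a 2 - C i' * a 3)) := by
    refine mul_left_cancel₀ hU ?_
    linear_combination h2 - a 1 ^ 2 * hI - a 3 ^ 2 * hI' - (a 2 - C i' * a 3) * hq
  generalize hs : a 0 + C i * a 1 = s at *
  generalize ht : a 2 - C i' * a 3 = t at *
  have e0 : 2 * a 0 = s - C κ * t := by linear_combination hs + hU'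
  have e1 : 2 * C i * a 1 = s + C κ * t := by linear_combination hs - hU'
  have e2 : 2 * a 2 = C κ * s + t := by linear_combination hq + ht
  have e3 : 2 * C i' * a 3 = C κ * s - t := by linear_combination hq - ht
  refine ⟨i, i', κ, s, t, hi, hi', fun h => hq0 (by rw [h, C_0]), fun h => ?_, fun h => ?_, dU, dV',
    coprime_of_no_root fun b hs' ht' => ?_, e0, e1, e2, e3⟩
  · have hK : (C κ) ^ 2 = 1 := by rw [← C_pow, h, C_1]
    have e : a 0 ^ 2 + a 3 ^ 2 = 0 := by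
      linear_combination (2 * a 0 + s - C κ * t) * e0 - (2 * C i' * a 3 + C κ * s - t) * e3 +
        4 * a 3 ^ 2 * hI' + (t ^ 2 - s ^ 2) * hK - (a 0 ^ 2 + a 3 ^ 2) * h3
    have := ns 0 3 (by decide)
    rw [e, natDegree_zero] at this
    omega
  · have hK : (C κ) ^ 2 = -1 := by rw [← C_pow, h, C_neg, C_1]
    have e : a 0 ^ 2 + a 2 ^ 2 = 0 := by
      linear_combination (2 * a 0 + s - C κ * t) * e0 + (2 * a 2 + C κ * s + t) * e2 +
        (t ^ 2 + s ^ 2) * hK - (a 0 ^ 2 + a 2 ^ 2) * h3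
    have := ns 0 2 (by decide)
    rw [e, natDegree_zero] at this
    omega
  · have hw := w 0 2 (by decide)
    have dw := natDegree_wronskian_le (d 0) (d 2) hw
    have f0 := congrArg (eval b) e0
    have f2 := congrArg (eval b) e2
    simp only [eval_mul, eval_add, eval_sub, eval_C, eval_ofNat, hs', ht'] at f0 f2
    have h3' := three_eq_zero' (k := k)
    have g0 : (a 0).eval b = 0 := by linear_combination -f0 + (a 0).eval b * h3'
    have g2 : (a 2).eval b = 0 := by linear_combination -f2 + (a 2).eval b * h3'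
    have hc := eq_C_of_natDegree_eq_zero (p := wronskian (a 0) (a 2)) (by omega)
    have hv : (wronskian (a 0) (a 2)).eval b = 0 := by simp [wronskian, g0, g2]
    rw [hc, eval_C] at hv
    rw [hv, C_0] at hc
    exact hw hc

/-- parametrisation of such a line -/
theorem exists_param (d : ∀ i, (a i).natDegree ≤ 1) (h2 : ∑ i, a i ^ 2 = 0)
    (w : ∀ i j, i ≠ j → wronskian (a i) (a j) ≠ 0)
    (ns : ∀ i j, i ≠ j → (a i ^ 2 + a j ^ 2).natDegree = 2) :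
    ∃ (i i' κ : k) (s t : k[X]), i ^ 2 = -1 ∧ i' ^ 2 = -1 ∧ κ ≠ 0 ∧ κ ^ 2 ≠ 1 ∧ κ ^ 2 ≠ -1 ∧
      s.natDegree = 1 ∧ t.natDegree = 1 ∧ IsCoprime s t ∧
      2 * a 0 = s - C κ * t ∧ 2 * C i * a 1 = s + C κ * t ∧
      2 * a 2 = C κ * s + t ∧ 2 * C i' * a 3 = C κ * s - t := by
  obtain ⟨i, hi⟩ := IsAlgClosed.exists_pow_nat_eq (-1 : k) (n := 2) two_pos
  have hI : (C i) ^ 2 = -1 := by rw [← C_pow, hi, C_neg, C_1]
  obtain ⟨dU, -⟩ := g2_deg (d 0) (d 1) hi (ns 0 1 (by decide))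
  have hp : Prime (a 0 + C i * a 1) :=
    (irreducible_of_degree_eq_one ((degree_eq_iff_natDegree_eq_of_pos one_pos).2 dU)).prime
  have h4 := h2
  rw [Fin.sum_univ_four] at h4
  have hd : a 0 + C i * a 1 ∣ (a 2 + C i * a 3) * (a 2 + C (-i) * a 3) :=
    ⟨-(a 0 - C i * a 1), by
      rw [C_neg]; linear_combination h4 - a 1 ^ 2 * hI - a 3 ^ 2 * hI⟩
  rcases hp.dvd_or_dvd hd with h | h
  · exact g2_param d h2 w ns hi hi h
  · exact g2_param d h2 w ns hi (by rw [neg_sq, hi]) h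

omit [IsAlgClosed k] [CharP k 3] in
theorem g2_cop {s t : k[X]} (h : IsCoprime s t) {b : k} (hs : s.eval b = 0) : t.eval b ≠ 0 := by
  obtain ⟨u, v, e⟩ := h
  intro ht
  have := congrArg (eval b) e
  simp [hs, ht] at this

omit [IsAlgClosed k] in
theorem g2_root {i κ : k} {s t : k[X]} (hi : i ^ 2 = -1) (hκ : κ ≠ 0)
    (e0 : 2 * a 0 = s - C κ * t) (e1 : 2 * C i * a 1 = s + C κ * t) {b : k}
    (hb : (a 0).eval b ^ 2 + (a 1).eval b ^ 2 = 0) : s.eval b = 0 ∨ t.eval b = 0 := by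
  have f0 := congrArg (eval b) e0
  have f1 := congrArg (eval b) e1
  simp only [eval_mul, eval_add, eval_sub, eval_C, eval_ofNat] at f0 f1
  refine mul_eq_zero.1 ((mul_eq_zero.1 (?_ : κ * (s.eval b * t.eval b) = 0)).resolve_left hκ)
  linear_combination (2 * (a 0).eval b + s.eval b - κ * t.eval b) * f0 -
    (2 * i * (a 1).eval b + s.eval b + κ * t.eval b) * f1 + 4 * (a 1).eval b ^ 2 * hi - 4 * hb -
    κ * s.eval b * t.eval b * three_eq_zero' (k := k)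

/-- a point of such a line lies on at most one special line -/
theorem one_type (d : ∀ i, (a i).natDegree ≤ 1) (h2 : ∑ i, a i ^ 2 = 0)
    (w : ∀ i j, i ≠ j → wronskian (a i) (a j) ≠ 0)
    (ns : ∀ i j, i ≠ j → (a i ^ 2 + a j ^ 2).natDegree = 2) {b : k}
    (hb : (a 0).eval b ^ 2 + (a 1).eval b ^ 2 = 0) :
    (∀ i, (a i).eval b ≠ 0) ∧ ∀ i j : Fin 4, (i = 0 ∨ i = 1) → (j = 2 ∨ j = 3) →
      (a i).eval b ^ 2 + (a j).eval b ^ 2 ≠ 0 := by
  obtain ⟨i, i', κ, s, t, hi, hi', hκ, hκ1, hκ2, -, -, hc, e0, e1, e2, e3⟩ := exists_param d h2 w ns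
  have hr := g2_root hi hκ e0 e1 hb
  have f0 := congrArg (eval b) e0
  have f1 := congrArg (eval b) e1
  have f2 := congrArg (eval b) e2
  have f3 := congrArg (eval b) e3
  have f4 := congrArg (eval b) h2
  simp only [eval_mul, eval_add, eval_sub, eval_C, eval_ofNat, Fin.sum_univ_four, eval_pow,
    eval_zero] at f0 f1 f2 f3 f4
  have k1 : 1 - κ ^ 2 ≠ 0 := fun h => hκ1 (by linear_combination -h)
  have k2 : 1 + κ ^ 2 ≠ 0 := fun h => hκ2 (by linear_combination h)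
  have n1 : s.eval b ^ 2 + t.eval b ^ 2 ≠ 0 ∧ s.eval b ^ 2 - t.eval b ^ 2 ≠ 0 ∧
      s.eval b - κ * t.eval b ≠ 0 ∧ s.eval b + κ * t.eval b ≠ 0 ∧
      κ * s.eval b + t.eval b ≠ 0 ∧ κ * s.eval b - t.eval b ≠ 0 := by
    rcases hr with h | h
    · simp [h, g2_cop hc h, hκ]
    · simp [h, g2_cop hc.symm h, hκ]
  obtain ⟨n1, n2, n3, n4, n5, n6⟩ := n1
  generalize s.eval b = σ at *
  generalize t.eval b = τ at *
  have m2 : (a 0).eval b ^ 2 + (a 2).eval b ^ 2 ≠ 0 := fun h => mul_ne_zero k2 n1 (by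
    linear_combination 4 * h - (2 * (a 0).eval b + σ - κ * τ) * f0 -
      (2 * (a 2).eval b + κ * σ + τ) * f2)
  have m3 : (a 0).eval b ^ 2 + (a 3).eval b ^ 2 ≠ 0 := fun h => mul_ne_zero k1 n2 (by
    linear_combination 4 * h - (2 * (a 0).eval b + σ - κ * τ) * f0 +
      (2 * i' * (a 3).eval b + κ * σ - τ) * f3 - 4 * (a 3).eval b ^ 2 * hi')
  refine ⟨fun j => ?_, ?_⟩
  · intro h
    fin_cases j <;> simp only [Fin.zero_eta, Fin.mk_one, Fin.reduceFinMk] at h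
    · exact n3 (by rw [← f0, h, mul_zero])
    · exact n4 (by rw [← f1, h, mul_zero])
    · exact n5 (by rw [← f2, h, mul_zero])
    · exact n6 (by rw [← f3, h, mul_zero])
  · rintro _ _ (rfl | rfl) (rfl | rfl)
    · exact m2
    · exact m3
    · exact fun h => m3 (by linear_combination f4 - h)
    · exact fun h => m2 (by linear_combination f4 - h)

omit [CharP k 3] in
theorem g2_kill {s t : k[X]} (hc : IsCoprime s t) (dt : t.natDegree = 1) {z0 z1 z2 : k} {r : k[X]}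
    (h : C z0 * s ^ 6 + C z1 * s ^ 5 * t + C z2 * s ^ 4 * t ^ 2 = t ^ 3 * r) : z0 = 0 ∧ z2 = 0 := by
  have ht : t ≠ 0 := ne_zero_of_natDegree_gt (n := 0) (by omega)
  obtain ⟨b, hb⟩ := IsAlgClosed.exists_root t
    (by rw [degree_eq_natDegree ht, dt]; exact one_ne_zero)
  have hb' : t.eval b = 0 := hb
  have hs := g2_cop hc.symm hb'
  have h0 : z0 = 0 := by simpa [hb', hs] using congrArg (eval b) h
  rw [h0, C_0] at h
  have h' : C z1 * s ^ 5 + C z2 * s ^ 4 * t = t ^ 2 * r :=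
    mul_left_cancel₀ ht (by linear_combination h)
  have h1 : z1 = 0 := by simpa [hb', hs] using congrArg (eval b) h'
  rw [h1, C_0] at h'
  have h'' : C z2 * s ^ 4 = t * r := mul_left_cancel₀ ht (by linear_combination h')
  exact ⟨h0, by simpa [hb', hs] using congrArg (eval b) h''⟩

omit [IsAlgClosed k] in
theorem g2_solve {κ c1 c2 : k} (hκ : κ ≠ 0) (hκ1 : κ ^ 2 ≠ 1) (hκ2 : κ ^ 2 ≠ -1)
    (h0 : c1 * κ + c2 * κ ^ 5 = 0)
    (h2 : c1 * (5 * κ + 10 * κ ^ 3) + c2 * (10 * κ ^ 3 + 5 * κ ^ 5) = 0) : c1 = 0 ∧ c2 = 0 := by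
  have k1 : 1 - κ ^ 2 ≠ 0 := fun h => hκ1 (by linear_combination -h)
  have k2 : 1 + κ ^ 2 ≠ 0 := fun h => hκ2 (by linear_combination h)
  have h3 := three_eq_zero' (k := k)
  have e1 : c1 - c2 * κ ^ 2 = 0 := by
    refine (mul_eq_zero.1 (?_ : κ * (1 - κ ^ 2) * (c1 - c2 * κ ^ 2) = 0)).resolve_left
      (mul_ne_zero hκ k1)
    linear_combination -h2 + (2 * c1 * κ + 3 * c1 * κ ^ 3 + 3 * c2 * κ ^ 3 + 2 * c2 * κ ^ 5) * h3
  have e2 : c2 = 0 := by
    refine (mul_eq_zero.1 (?_ : κ ^ 3 * (1 + κ ^ 2) * c2 = 0)).resolve_left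
      (mul_ne_zero (pow_ne_zero _ hκ) k2)
    linear_combination h0 - κ * e1
  exact ⟨by rw [e2] at e1; linear_combination e1, e2⟩

omit [IsAlgClosed k] [CharP k 3] in
theorem g2_const {b : k} {P : k[X]} (dP : P.natDegree ≤ 2) (h : (X - C b) ^ 2 ∣ P) :
    ∃ c : k, P = (X - C b) ^ 2 * C c := by
  obtain ⟨q, rfl⟩ := h
  by_cases hq : q = 0
  · exact ⟨0, by rw [hq, C_0]⟩
  · rw [natDegree_mul (pow_ne_zero _ (X_sub_C_ne_zero b)) hq, natDegree_pow, natDegree_X_sub_C] at dP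
    exact ⟨_, by rw [← eq_C_of_natDegree_eq_zero (p := q) (by omega)]⟩

omit [IsAlgClosed k] [CharP k 3] in
theorem g2_dvd {b : k} {t G Q : k[X]} (ht : t.eval b ≠ 0) (h : (X - C b) ^ 2 * G = t ^ 3 * Q) :
    t ^ 3 ∣ G := by
  have hc : IsCoprime (X - C b) t :=
    (irreducible_X_sub_C b).coprime_iff_not_dvd.2 fun hd => ht (dvd_iff_isRoot.1 hd)
  exact (hc.symm.pow (m := 3) (n := 2)).dvd_of_dvd_mul_left ⟨Q, h⟩

/-- no double contact with the special line -/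
theorem no_double (d : ∀ i, (a i).natDegree ≤ 1) (h2 : ∑ i, a i ^ 2 = 0)
    (w : ∀ i j, i ≠ j → wronskian (a i) (a j) ≠ 0)
    (ns : ∀ i j, i ≠ j → (a i ^ 2 + a j ^ 2).natDegree = 2) {P : Fin 4 → Fin 4 → k[X]}
    (hP : Rel a P) (dP : ∀ i j, (P i j).natDegree ≤ 2) (hne : ∃ i j, P i j ≠ 0) {b : k}
    (hb : (a 0).eval b ^ 2 + (a 1).eval b ^ 2 = 0) :
    ¬ ((X - C b) ^ 2 ∣ P 0 1 ∧ (X - C b) ^ 2 ∣ P 2 3) := by
  rintro ⟨h01, h23⟩
  obtain ⟨i, i', κ, s, t, hi, hi', hκ, hκ1, hκ2, ds, dt, hc, e0, e1, e2, e3⟩ :=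
    exists_param d h2 w ns
  have hI' : (C i') ^ 2 = -1 := by rw [← C_pow, hi', C_neg, C_1]
  have h3 := three_eq_zero (k := k)
  obtain ⟨c, hc1⟩ := g2_const (dP 0 1) h01
  obtain ⟨c', hc2⟩ := g2_const (dP 2 3) h23
  have diag : ∀ j, P j j = 0 := fun j => by linear_combination -hP.anti j j + P j j * h3
  have q23 : a 2 ^ 2 + a 3 ^ 2 = C κ * s * t := by
    linear_combination (2 * a 2 + C κ * s + t) * e2 - (2 * C i' * a 3 + C κ * s - t) * e3 +
      4 * a 3 ^ 2 * hI' - (a 2 ^ 2 + a 3 ^ 2 - C κ * s * t) * h3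
  have q6 : a 2 ^ 6 + a 3 ^ 6 = (C κ * s * t) ^ 3 := by
    rw [← q23, cube_add]; ring
  have key := hP.key
  rw [diag 1, q6, hc1, hc2] at key
  have key2 : (X - C b) ^ 2 * (C (c * i) * (s - C κ * t) ^ 5 * (C κ * s - t) +
      C (c' * i') * (s + C κ * t) * (C κ * s + t) ^ 5) =
      (C κ * s * t) ^ 3 * (64 * C i * C i' * P 1 3) := by
    rw [← e0, ← e1, ← e2, ← e3, C_mul, C_mul]
    linear_combination 64 * C i * C i' * key
  have hcc : c * i = 0 ∧ c' * i' = 0 := by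
    generalize c * i = c1 at key2 ⊢
    generalize c' * i' = c2 at key2 ⊢
    rcases g2_root hi hκ e0 e1 hb with h | h
    · obtain ⟨r, hr⟩ := g2_dvd (t := t) (Q := (C κ * s) ^ 3 * (64 * C i * C i' * P 1 3))
        (g2_cop hc h) (key2.trans (by ring))
      obtain ⟨z0, z2⟩ := g2_kill hc dt (z0 := c1 * κ + c2 * κ ^ 5)
        (z1 := c1 * (-1 - 5 * κ ^ 2) + c2 * (5 * κ ^ 4 + κ ^ 6))
        (z2 := c1 * (5 * κ + 10 * κ ^ 3) + c2 * (10 * κ ^ 3 + 5 * κ ^ 5))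
        (r := r - (C c1 * (-(10 * C κ ^ 2 + 10 * C κ ^ 4) * s ^ 3 +
            (10 * C κ ^ 3 + 5 * C κ ^ 5) * s ^ 2 * t - (5 * C κ ^ 4 + C κ ^ 6) * s * t ^ 2 +
            C κ ^ 5 * t ^ 3) +
          C c2 * ((10 * C κ ^ 2 + 10 * C κ ^ 4) * s ^ 3 + (5 * C κ + 10 * C κ ^ 3) * s ^ 2 * t +
            (1 + 5 * C κ ^ 2) * s * t ^ 2 + C κ * t ^ 3))) (by
          simp only [map_add, map_mul, map_sub, map_pow, map_neg, map_one, map_ofNat]
          linear_combination hr)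
      exact g2_solve hκ hκ1 hκ2 z0 z2
    · obtain ⟨r, hr⟩ := g2_dvd (t := s) (Q := (C κ * t) ^ 3 * (64 * C i * C i' * P 1 3))
        (g2_cop hc.symm h) (key2.trans (by ring))
      obtain ⟨z0, z2⟩ := g2_kill hc.symm ds (z0 := c2 * κ + c1 * κ ^ 5)
        (z1 := c2 * (1 + 5 * κ ^ 2) - c1 * (5 * κ ^ 4 + κ ^ 6))
        (z2 := c2 * (5 * κ + 10 * κ ^ 3) + c1 * (10 * κ ^ 3 + 5 * κ ^ 5))
        (r := r - (C c1 * (-(10 * C κ ^ 2 + 10 * C κ ^ 4) * t ^ 3 +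
            (5 * C κ + 10 * C κ ^ 3) * t ^ 2 * s - (1 + 5 * C κ ^ 2) * t * s ^ 2 +
            C κ * s ^ 3) +
          C c2 * ((10 * C κ ^ 2 + 10 * C κ ^ 4) * t ^ 3 + (10 * C κ ^ 3 + 5 * C κ ^ 5) * t ^ 2 * s +
            (5 * C κ ^ 4 + C κ ^ 6) * t * s ^ 2 + C κ ^ 5 * s ^ 3))) (by
          simp only [map_add, map_mul, map_sub, map_pow, map_one, map_ofNat]
          linear_combination hr)
      exact (g2_solve hκ hκ1 hκ2 z0 z2).symm
  have i0 : i ≠ 0 := fun h => by simp [h] at hi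
  have i0' : i' ≠ 0 := fun h => by simp [h] at hi'
  have c0 : c = 0 := (mul_eq_zero.1 hcc.1).resolve_right i0
  have c0' : c' = 0 := (mul_eq_zero.1 hcc.2).resolve_right i0'
  rw [c0, C_0, mul_zero] at hc1
  rw [c0', C_0, mul_zero] at hc2
  rw [c0, c0', C_0] at key
  have hs : s ≠ 0 := ne_zero_of_natDegree_gt (n := 0) (by omega)
  have ht : t ≠ 0 := ne_zero_of_natDegree_gt (n := 0) (by omega)
  have p13 : P 1 3 = 0 := (mul_eq_zero.1 (by linear_combination -key)).resolve_left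
    (pow_ne_zero 3 (mul_ne_zero (mul_ne_zero (C_ne_zero.2 hκ) hs) ht))
  have a1 : a 1 ≠ 0 := fun h => w 1 0 (by decide) (by rw [h, wronskian_zero_left])
  have a3 : a 3 ≠ 0 := fun h => w 3 0 (by decide) (by rw [h, wronskian_zero_left])
  have p31 : P 3 1 = 0 := by rw [hP.anti, p13, neg_zero]
  have p30 : P 3 0 = 0 := (mul_eq_zero.1 (by
    linear_combination hP.cyc 0 1 3 - a 0 * p13 - a 3 * hc1)).resolve_left a1
  have p12 : P 1 2 = 0 := (mul_eq_zero.1 (by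
    linear_combination hP.cyc 1 2 3 - a 1 * hc2 - a 2 * p31)).resolve_left a3
  have p20 : P 2 0 = 0 := (mul_eq_zero.1 (by
    linear_combination hP.cyc 0 1 2 - a 0 * p12 - a 2 * hc1)).resolve_left a1
  obtain ⟨u, v, huv⟩ := hne
  refine huv ?_
  fin_cases u <;> fin_cases v <;> simp only [Fin.zero_eta, Fin.mk_one, Fin.reduceFinMk] <;>
    first
    | exact diag _
    | assumption
    | (rw [hP.anti, neg_eq_zero]; assumption)

end Pool.Agent.FS
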