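import Pool.Agent.P.MP_57148c_nt.Val

open Polynomial

noncomputable section
namespace Pool.Agent.FS

variable {A : ValuationSubring ℂ}

lemma root_inj : Function.Injective (algebraMap A ℂ) := Subtype.val_injective

lemma root_dvd {l f : A[X]} (hl : bar l ≠ 0)
    (h : l.map (algebraMap A ℂ) ∣ f.map (algebraMap A ℂ)) : l ∣ f := by
  obtain ⟨q, hq⟩ := h
  obtain ⟨d, hd, e⟩ := IsLocalization.integerNormalization_spec (nonZeroDivisors A) q
  have hd0 : d ≠ 0 := nonZeroDivisors.ne_zero hd
  have e1 : l * IsLocalization.integerNormalization (nonZeroDivisors A) q = C d * f := by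
    apply Polynomial.map_injective _ root_inj
    rw [Polynomial.map_mul, Polynomial.map_mul, e, hq, map_C, Algebra.smul_def]
    have : algebraMap A ℂ[X] d = C (algebraMap A ℂ d) := rfl
    rw [this]
    ring
  obtain ⟨w, hw⟩ := gauss_dvd hl e1
  refine ⟨w, mul_left_cancel₀ (C_ne_zero.2 hd0) ?_⟩
  rw [← e1, hw]
  ring

lemma root_aux (b : kk A) (n : ℕ) : ∀ f : A[X], f.natDegree = n → bar f ≠ 0 →
    (bar f).eval b = 0 → ∃ a : A, res a = b ∧ f.eval a = 0 := by
  induction n with
  | zero =>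
    intro f hn hf hb
    rw [eq_C_of_natDegree_eq_zero hn, bar_C] at hf hb
    rw [eval_C] at hb
    exact absurd (by rw [hb, C_0]) hf
  | succ n ih =>
    intro f hn hf hb
    have hf0 : f ≠ 0 := by
      rintro rfl
      exact hf bar_zero
    have hdeg : (f.map (algebraMap A ℂ)).degree ≠ 0 := by
      rw [degree_map_eq_of_injective root_inj, degree_eq_natDegree hf0, hn]
      exact_mod_cast Nat.succ_ne_zero n
    obtain ⟨t, ht⟩ := IsAlgClosed.exists_root _ hdeg
    have key : ∀ l : A[X], l.natDegree = 1 → (bar l).eval b ≠ 0 →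
        l.map (algebraMap A ℂ) ∣ f.map (algebraMap A ℂ) → ∃ a : A, res a = b ∧ f.eval a = 0 := by
      intro l h1 h2 h3
      have hl : bar l ≠ 0 := fun h => h2 (by rw [h, eval_zero])
      obtain ⟨g, rfl⟩ := root_dvd hl h3
      rw [bar_mul] at hf hb
      rw [eval_mul] at hb
      have hg : g.natDegree = n := by
        rw [natDegree_mul (left_ne_zero_of_mul hf0) (right_ne_zero_of_mul hf0), h1] at hn
        omega
      obtain ⟨a, ha, e⟩ := ih g hg (right_ne_zero_of_mul hf) ((mul_eq_zero.1 hb).resolve_left h2)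
      exact ⟨a, ha, by rw [eval_mul, e, mul_zero]⟩
    by_cases hA : t ∈ A
    · by_cases hr : res (⟨t, hA⟩ : A) = b
      · refine ⟨⟨t, hA⟩, hr, root_inj ?_⟩
        rw [map_zero, ← eval_map_apply]
        exact ht
      · refine key (X - C ⟨t, hA⟩) (natDegree_X_sub_C _) ?_ ?_
        · rw [bar_sub, bar_X, bar_C, eval_sub, eval_X, eval_C]
          exact sub_ne_zero.2 fun h => hr h.symm
        · rw [Polynomial.map_sub, map_X, map_C]
          exact dvd_iff_isRoot.2 ht
    · have hu : t⁻¹ ∈ A := (A.mem_or_inv_mem t).resolve_left hA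
      have ht0 : t ≠ 0 := fun h => hA (h ▸ A.zero_mem)
      have hu0 : (⟨t⁻¹, hu⟩ : A) ≠ 0 := fun h => inv_ne_zero ht0 (congrArg Subtype.val h)
      have hres : res (⟨t⁻¹, hu⟩ : A) = 0 := by
        rw [res_eq_zero_iff]
        intro h
        obtain ⟨v, hv⟩ := h.exists_right_inv
        have hv' : t⁻¹ * (v : ℂ) = 1 := congrArg Subtype.val hv
        have : t = v := by field_simp at hv'; exact hv'.symm
        exact hA (this ▸ v.2)
      refine key (C ⟨t⁻¹, hu⟩ * X + C (-1)) (natDegree_linear hu0) ?_ ?_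
      · rw [bar_add, bar_mul, bar_C, hres, bar_C]
        simp
      · have : (C (⟨t⁻¹, hu⟩ : A) * X + C (-1)).map (algebraMap A ℂ) = C t⁻¹ * (X - C t) := by
          rw [Polynomial.map_add, Polynomial.map_mul, map_C, map_C, map_X, mul_sub, ← C_mul,
            inv_mul_cancel₀ ht0, map_neg, map_one, C_neg, sub_eq_add_neg]
          rfl
        rw [this, (isUnit_C.2 (inv_ne_zero ht0).isUnit).mul_left_dvd]
        exact dvd_iff_isRoot.2 ht

/-- a root of the reduction lifts to a root -/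
theorem exists_root {f : A[X]} (hf : bar f ≠ 0) {b : kk A} (hb : (bar f).eval b = 0) :
    ∃ a : A, res a = b ∧ f.eval a = 0 :=
  root_aux b _ f rfl hf hb

instance isAlgClosed : IsAlgClosed (kk A) := by
  refine IsAlgClosed.of_exists_root _ fun p hp hi => ?_
  obtain ⟨q, rfl, hd, hq⟩ := lifts_and_natDegree_eq_and_monic
    (mem_lifts_of_surjective (IsLocalRing.residue_surjective (R := A)) p) hp
  have hdeg : (q.map (algebraMap A ℂ)).degree ≠ 0 := by
    rw [degree_map_eq_of_injective root_inj, degree_eq_natDegree hq.ne_zero, hd]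
    exact_mod_cast hi.natDegree_pos.ne'
  obtain ⟨t, ht⟩ := IsAlgClosed.exists_root _ hdeg
  have hint : IsIntegral A t := ⟨q, hq, by rw [← eval_map]; exact ht⟩
  obtain ⟨y, rfl⟩ := IsIntegrallyClosed.isIntegral_iff.1 hint
  have hy : q.eval y = 0 := by
    apply root_inj
    rw [map_zero, ← eval_map_apply]
    exact ht
  exact ⟨res y, by rw [eval_map_apply, hy, map_zero]⟩

theorem exists_pow_eq (c : A) {n : ℕ} (hn : 0 < n) : ∃ s : A, s ^ n = c := by
  obtain ⟨z, hz⟩ := IsAlgClosed.exists_pow_nat_eq (algebraMap A ℂ c) hn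
  have hint : IsIntegral A z := IsIntegral.of_pow hn (hz ▸ isIntegral_algebraMap)
  obtain ⟨y, rfl⟩ := IsIntegrallyClosed.isIntegral_iff.1 hint
  exact ⟨y, root_inj (by rw [map_pow, hz])⟩

theorem exists_sqrt_lift [Three A] {i : kk A} (hi : i ^ 2 = -1) :
    ∃ I : A, I ^ 2 = -1 ∧ res I = i := by
  have e : bar (X ^ 2 + C 1 : A[X]) = X ^ 2 + C 1 := by
    rw [bar_add, bar_pow, bar_X, C_1, C_1, bar_one]
  obtain ⟨a, ha, h⟩ := exists_root (f := (X ^ 2 + C 1 : A[X])) (b := i)
    (by rw [e]; exact (monic_X_pow_add_C _ two_ne_zero).ne_zero) (by rw [e]; simp [hi])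
  refine ⟨a, ?_, ha⟩
  rw [eval_add, eval_pow, eval_X, eval_C] at h
  exact eq_neg_of_add_eq_zero_left h

theorem dvd_of_pow_dvd {a b : A} {n : ℕ} (hn : 0 < n) (h : a ^ n ∣ b ^ n) : a ∣ b :=
  (IsIntegrallyClosed.pow_dvd_pow_iff hn.ne').1 h

/-- a closed disc inside the residue disc of `res a` contains at most as many zeros -/
theorem nd_nred_comp_le {f : A[X]} (hf : f ≠ 0) (a : A) {s : A} (hs : s ≠ 0) (hs0 : res s = 0) :
    (nred (f.comp (C a + C s * X))).natDegree ≤ rootMultiplicity (res a) (nred f) := by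
  obtain ⟨c, g, hc, hfg, hg⟩ := exists_prim_one hf
  rw [rm_nred hfg hc hg, rootMultiplicity_eq_natTrailingDegree]
  have e1 : (bar g).comp (X + C (res a)) = bar (g.comp (X + C a)) := by
    simp only [bar, map_comp, Polynomial.map_add, map_X, map_C]
  have e2 : f.comp (C a + C s * X) = C c * (g.comp (X + C a)).comp (C s * X) := by
    rw [hfg, mul_comp, C_comp, comp_assoc, add_comp, X_comp, C_comp, add_comm (C a)]
  have h1 : bar (g.comp (X + C a)) ≠ 0 := by
    rw [← e1]
    exact fun h => hg (comp_X_add_C_eq_zero_iff.1 h)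
  rw [e1, e2]
  generalize g.comp (X + C a) = g1 at h1
  have hu : res (g1.coeff (bar g1).natTrailingDegree) ≠ 0 := by
    rw [← coeff_bar]
    exact coeff_natTrailingDegree_ne_zero.2 h1
  generalize (bar g1).natTrailingDegree = m at hu
  have hu0 : g1.coeff m ≠ 0 := fun h => hu (by rw [h]; exact map_zero (IsLocalRing.residue A))
  have h2 : g1.comp (C s * X) ≠ 0 := fun h => by
    have := congrArg (fun p => coeff p m) h
    simp only [comp_C_mul_X_coeff, coeff_zero] at this
    exact mul_ne_zero hu0 (pow_ne_zero _ hs) this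
  obtain ⟨c1, g2, hc1, e3, hg2⟩ := exists_prim_one h2
  rw [nd_nred_C_mul hc, nd_nred e3 hc1 hg2, natDegree_le_iff_coeff_eq_zero]
  intro N hN
  obtain ⟨d, rfl⟩ := Nat.exists_eq_add_of_lt hN
  have co : ∀ j, g1.coeff j * s ^ j = c1 * g2.coeff j := fun j => by
    rw [← comp_C_mul_X_coeff, e3, coeff_C_mul]
  have e4 : g2.coeff (m + d + 1) * g1.coeff m =
      g1.coeff (m + d + 1) * s ^ d * g2.coeff m * s := by
    apply mul_left_cancel₀ hc1
    linear_combination (-g1.coeff m) * co (m + d + 1) +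
      g1.coeff (m + d + 1) * s ^ d * s * co m
  have e5 := congrArg (IsLocalRing.residue A) e4
  have hs1 : IsLocalRing.residue A s = 0 := hs0
  rw [map_mul, map_mul _ _ s, hs1, mul_zero] at e5
  rw [coeff_bar]
  exact (mul_eq_zero.1 e5).resolve_right hu

theorem exists_three : ∃ A : ValuationSubring ℂ, Three A := by
  have hI : Ideal.span {(3 : (⊥ : Subring ℂ))} ≠ ⊤ := by
    rw [Ne, Ideal.span_singleton_eq_top]
    intro h
    obtain ⟨⟨v, hv⟩, e⟩ := h.exists_right_inv
    obtain ⟨n, rfl⟩ := Subring.mem_bot.1 hv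
    have e' : (3 : ℂ) * (n : ℂ) = 1 := congrArg Subtype.val e
    have e'' : (3 : ℤ) * n = 1 := by exact_mod_cast e'
    omega
  obtain ⟨B, -, hB⟩ := Ideal.image_subset_nonunits_valuationSubring _ hI
  refine ⟨B, ⟨(IsLocalRing.residue_eq_zero_iff _).2 (B.coe_mem_nonunits_iff.1 ?_)⟩⟩
  exact hB ⟨3, Ideal.subset_span rfl, rfl⟩

end Pool.Agent.FS
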