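import Pool.Agent.P.MP_57148c_nt.G1
import Pool.Agent.P.MP_57148c_nt.G2
import Pool.Agent.P.MP_57148c_nt.Root

open Polynomial

noncomputable section
namespace Pool.Agent.FS

section
variable {k : Type} [Field k] [IsAlgClosed k] [CharP k 3]

omit [IsAlgClosed k] in
theorem g3_cube (u s t : k) : (u * s ^ 3) ^ 2 + (u * t ^ 3) ^ 2 = u ^ 2 * (s ^ 2 + t ^ 2) ^ 3 := by
  linear_combination (-(u ^ 2 * (s ^ 4 * t ^ 2 + s ^ 2 * t ^ 4))) * (three_eq_zero' (k := k))

omit [IsAlgClosed k] [CharP k 3] in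
theorem g3_rm_le {p : k[X]} {b : k} (h : ¬ (X - C b) ^ 2 ∣ p) :
    p ≠ 0 ∧ rootMultiplicity b p ≤ 1 := by
  have hp : p ≠ 0 := fun e => h (e ▸ dvd_zero _)
  refine ⟨hp, ?_⟩
  by_contra hlt
  exact h ((le_rootMultiplicity_iff hp).1 (by omega))

omit [IsAlgClosed k] [CharP k 3] in
theorem g3_rm_neg (p : k[X]) (b : k) : rootMultiplicity b (-p) = rootMultiplicity b p := by
  by_cases hp : p = 0
  · rw [hp, neg_zero]
  · have e : -p = C (-1) * p := by simp
    have h1 : (C (-1 : k) * p) ≠ 0 := e ▸ neg_ne_zero.2 hp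
    rw [e, rootMultiplicity_mul h1, rootMultiplicity_C, zero_add]

omit [IsAlgClosed k] [CharP k 3] in
theorem g3_rm_pow {p : k[X]} (hp : p ≠ 0) (b : k) (n : ℕ) :
    rootMultiplicity b (p ^ n) = n * rootMultiplicity b p := by
  induction n with
  | zero => rw [pow_zero, zero_mul, ← C_1, rootMultiplicity_C]
  | succ n ih =>
    rw [pow_succ, rootMultiplicity_mul (mul_ne_zero (pow_ne_zero n hp) hp), ih]
    ring

omit [IsAlgClosed k] [CharP k 3] in
theorem g3_const {f g : k[X]} (hf : f.natDegree ≤ 1) (hg : g.natDegree ≤ 1)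
    (hw : wronskian f g ≠ 0) (b : k) : (wronskian f g).eval b ≠ 0 := by
  have h0 : (wronskian f g).natDegree = 0 := by
    have := natDegree_wronskian_le hf hg hw
    omega
  rw [eq_C_of_natDegree_eq_zero h0] at hw ⊢
  rw [eval_C]
  intro e
  exact hw (by rw [e, C_0])

theorem g3_step {a : Fin 4 → k[X]} (d : ∀ i, (a i).natDegree ≤ 1) (h2 : ∑ i, a i ^ 2 = 0)
    (w : ∀ i j, i ≠ j → wronskian (a i) (a j) ≠ 0)
    (ns : ∀ i j, i ≠ j → (a i ^ 2 + a j ^ 2).natDegree = 2) {P : Fin 4 → Fin 4 → k[X]}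
    (hP : Rel a P) (dP : ∀ i j, (P i j).natDegree ≤ 2) {b : k}
    (hr : ∃ i j, (P i j).eval b ≠ 0) (hb : (a 0).eval b ^ 2 + (a 1).eval b ^ 2 = 0)
    {N g : ℕ} {u : k} (hu : u ≠ 0) {o : Fin 4 → Fin 4 → ℕ}
    (ho : ∀ i j, P i j ≠ 0 → o i j = g + 3 * rootMultiplicity b (P i j))
    (hI : Ineq N (fun i => u * (a i).eval b ^ 3) o) : 4 * N ≤ 2 * g + 3 := by
  obtain ⟨ha, hs⟩ := one_type d h2 w ns hb
  have hne : ∃ i j, P i j ≠ 0 := by
    obtain ⟨i, j, hij⟩ := hr
    exact ⟨i, j, fun e => hij (by rw [e, eval_zero])⟩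
  have hnd := no_double d h2 w ns hP dP hne hb
  have hanti : ∀ i j, (P i j).eval b = -(P j i).eval b := fun i j => by
    rw [hP.anti i j, eval_neg]
  have hone : ∀ i j l, i ≠ j → i ≠ l → j ≠ l → (a j).eval b ^ 2 + (a l).eval b ^ 2 ≠ 0 →
      4 * N ≤ o i j + o i l := fun i j l h1 h2 h3 h4 =>
    hI.one (fun i => mul_ne_zero hu (pow_ne_zero 3 (ha i))) i j l h1 h2 h3 (by
      show (u * (a j).eval b ^ 3) ^ 2 + (u * (a l).eval b ^ 3) ^ 2 ≠ 0
      rw [g3_cube]
      exact mul_ne_zero (pow_ne_zero 2 hu) (pow_ne_zero 3 h4))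
  have ho0 : ∀ i j, (P i j).eval b ≠ 0 → o i j = g ∧ o j i = g := fun i j hij => by
    have hji : (P j i).eval b ≠ 0 := by rw [hanti j i]; exact neg_ne_zero.2 hij
    rw [ho i j fun e => hij (by rw [e, eval_zero]), ho j i fun e => hji (by rw [e, eval_zero]),
      rootMultiplicity_eq_zero hij, rootMultiplicity_eq_zero hji]
    simp
  have ho1 : ∀ i j, ¬ (X - C b) ^ 2 ∣ P i j → o i j ≤ g + 3 ∧ o j i ≤ g + 3 := fun i j hij => by
    obtain ⟨h1, h3⟩ := g3_rm_le hij
    have h4 : P j i ≠ 0 := by rw [hP.anti j i]; exact neg_ne_zero.2 h1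
    rw [ho i j h1, ho j i h4, hP.anti j i, g3_rm_neg]
    omega
  have hex : (P 0 2).eval b ≠ 0 ∨ (P 0 3).eval b ≠ 0 ∨ (P 1 2).eval b ≠ 0 ∨
      (P 1 3).eval b ≠ 0 := by
    by_contra hn
    simp only [not_or, not_not] at hn
    obtain ⟨e02, e03, e12, e13⟩ := hn
    have e20 : (P 2 0).eval b = 0 := by rw [hanti, e02, neg_zero]
    have e30 : (P 3 0).eval b = 0 := by rw [hanti, e03, neg_zero]
    have e21 : (P 2 1).eval b = 0 := by rw [hanti, e12, neg_zero]
    have e31 : (P 3 1).eval b = 0 := by rw [hanti, e13, neg_zero]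
    have e01 : (P 0 1).eval b = 0 := by
      have := congrArg (eval b) (hP.cyc 0 1 2)
      simp only [eval_add, eval_mul, eval_zero, e12, e20, mul_zero, zero_add] at this
      exact (mul_eq_zero.1 this).resolve_left (ha 2)
    have e23 : (P 2 3).eval b = 0 := by
      have := congrArg (eval b) (hP.cyc 0 2 3)
      simp only [eval_add, eval_mul, eval_zero, e30, e02, mul_zero, add_zero] at this
      exact (mul_eq_zero.1 this).resolve_left (ha 0)
    have e10 : (P 1 0).eval b = 0 := by rw [hanti, e01, neg_zero]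
    have e32 : (P 3 2).eval b = 0 := by rw [hanti, e23, neg_zero]
    have ed : ∀ i, (P i i).eval b = 0 := fun i => by
      linear_combination (-1 : k) * hanti i i + (P i i).eval b * (three_eq_zero' (k := k))
    obtain ⟨i, j, hij⟩ := hr
    apply hij
    fin_cases i <;> fin_cases j <;> first | exact ed _ | assumption
  have s02 := hs 0 2 (Or.inl rfl) (Or.inl rfl)
  have s03 := hs 0 3 (Or.inl rfl) (Or.inr rfl)
  have s12 := hs 1 2 (Or.inr rfl) (Or.inl rfl)
  have s13 := hs 1 3 (Or.inr rfl) (Or.inr rfl)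
  rcases not_and_or.1 hnd with h01 | h23
  · obtain ⟨o1, o2⟩ := ho1 0 1 h01
    rcases hex with e | e | e | e
    · have := hone 0 1 2 (by decide) (by decide) (by decide) s12
      have := ho0 _ _ e
      omega
    · have := hone 0 1 3 (by decide) (by decide) (by decide) s13
      have := ho0 _ _ e
      omega
    · have := hone 1 0 2 (by decide) (by decide) (by decide) s02
      have := ho0 _ _ e
      omega
    · have := hone 1 0 3 (by decide) (by decide) (by decide) s03
      have := ho0 _ _ e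
      omega
  · obtain ⟨o1, o2⟩ := ho1 2 3 h23
    rcases hex with e | e | e | e
    · have := hone 2 0 3 (by decide) (by decide) (by decide) s03
      have := ho0 _ _ e
      omega
    · have := hone 3 0 2 (by decide) (by decide) (by decide) s02
      have := ho0 _ _ e
      omega
    · have := hone 2 1 3 (by decide) (by decide) (by decide) s13
      have := ho0 _ _ e
      omega
    · have := hone 3 1 2 (by decide) (by decide) (by decide) s12
      have := ho0 _ _ e
      omega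

theorem g3_step' {a : Fin 4 → k[X]} (d : ∀ i, (a i).natDegree ≤ 1) (h2 : ∑ i, a i ^ 2 = 0)
    (w : ∀ i j, i ≠ j → wronskian (a i) (a j) ≠ 0)
    (ns : ∀ i j, i ≠ j → (a i ^ 2 + a j ^ 2).natDegree = 2) {P : Fin 4 → Fin 4 → k[X]}
    (hP : Rel a P) (dP : ∀ i j, (P i j).natDegree ≤ 2) {b : k}
    (hr : ∃ i j, (P i j).eval b ≠ 0) {N g : ℕ} (hN : 0 < N) {u : k} (hu : u ≠ 0)
    {o : Fin 4 → Fin 4 → ℕ}
    (ho : ∀ i j, P i j ≠ 0 → o i j = g + 3 * rootMultiplicity b (P i j))
    (hI : Ineq N (fun i => u * (a i).eval b ^ 3) o) : 4 * N ≤ 2 * g + 3 := by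
  obtain ⟨j, l, hjl, e⟩ := hI.line hN
  have e' : (a j).eval b ^ 2 + (a l).eval b ^ 2 = 0 := by
    have e1 : (u * (a j).eval b ^ 3) ^ 2 + (u * (a l).eval b ^ 3) ^ 2 = 0 := e
    rw [g3_cube] at e1
    exact pow_eq_zero_iff (by norm_num) |>.1 ((mul_eq_zero.1 e1).resolve_left (pow_ne_zero 2 hu))
  obtain ⟨σ, h0, h1⟩ := exists_perm hjl
  refine g3_step (a := fun i => a (σ i)) (fun i => d _) ?_
    (fun i j hij => w _ _ (σ.injective.ne hij)) (fun i j hij => ns _ _ (σ.injective.ne hij))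
    (hP.perm σ) (fun i j => dP _ _) (b := b) ?_ ?_ hu (o := fun i j => o (σ i) (σ j))
    (fun i j hij => ho _ _ hij) (hI.perm σ)
  · rw [Equiv.sum_comp σ fun i => a i ^ 2]
    exact h2
  · obtain ⟨i, j, hij⟩ := hr
    exact ⟨σ.symm i, σ.symm j, by simpa using hij⟩
  · simpa only [h0, h1] using e'

end

variable {A : ValuationSubring ℂ} [Three A]

omit [Three A] in
theorem g3_rel {D : ℕ} {x : Fin 4 → A[X]} (H : Sol D x) {h : (kk A)[X]}
    {a : Fin 4 → (kk A)[X]} (hg : Good D x h a) {c : A} (hc : c ≠ 0) {q : Fin 4 → Fin 4 → A[X]}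
    (hq : ∀ i j, wronskian (x i) (x j) = C c * q i j) :
    Rel (fun i => a i ^ 3) fun i j => bar (q i j) := by
  have hC : (C c : A[X]) ≠ 0 := C_ne_zero.2 hc
  have R := H.rel
  refine ⟨fun i j => ?_, fun i j l => ?_, fun j => ?_⟩
  · have h1 := R.anti i j
    simp only [hq] at h1
    have h2 : q i j = -q j i := mul_left_cancel₀ hC (by rw [h1]; ring)
    rw [h2, bar_neg]
  · have h1 := R.cyc i j l
    simp only [hq] at h1
    have h2 : x i * q j l + x j * q l i + x l * q i j = 0 :=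
      mul_left_cancel₀ hC (by linear_combination h1)
    have h3 := congrArg bar h2
    simp only [bar_add, bar_mul, bar_zero, hg.eq] at h3
    exact mul_left_cancel₀ hg.ne (by linear_combination h3)
  · have h1 := R.syz j
    simp only [hq, Fin.sum_univ_four] at h1
    have h2 : x 0 ^ 5 * q 0 j + x 1 ^ 5 * q 1 j + x 2 ^ 5 * q 2 j + x 3 ^ 5 * q 3 j = 0 :=
      mul_left_cancel₀ hC (by linear_combination h1)
    have h3 := congrArg bar h2
    simp only [bar_add, bar_mul, bar_pow, bar_zero, hg.eq] at h3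
    simp only [Fin.sum_univ_four]
    exact mul_left_cancel₀ (pow_ne_zero 5 hg.ne) (by linear_combination h3)

/-- the Frobenius of a line that is not special does not occur -/
theorem insep_general {D : ℕ} (hD : D ≤ 5) {x : Fin 4 → A[X]} (H : Sol D x) {h : (kk A)[X]}
    {a : Fin 4 → (kk A)[X]} (hg : Good D x h a) (ns : ∀ i j, i ≠ j → a i ^ 2 + a j ^ 2 ≠ 0)
    (hC : ∀ b, Claim x b (rootMultiplicity b h)) : False := by
  have h2 := hg.quad H
  have w := indep_of_not_special hg.dega h2 hg.nc ns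
  have ha : ∀ i, a i ≠ 0 := fun i e => by
    obtain ⟨j, hj⟩ := exists_ne i
    exact w j i hj (by rw [e, wronskian_zero_right])
  have d1 : ∀ i, (a i).natDegree = 1 := fun i => hg.one i (ha i)
  have ns2 : ∀ i j, i ≠ j → (a i ^ 2 + a j ^ 2).natDegree = 2 := fun i j hij =>
    hg.two i j (ns i j hij)
  have hdh := hg.degh
  obtain ⟨c, G, hc, hG, hG0⟩ := exists_prim
    (fun p : Fin 4 × Fin 4 => wronskian (x p.1) (x p.2)) ⟨(0, 1), H.ind 0 1 (by decide)⟩
  obtain ⟨q, hq, hq0⟩ : ∃ q : Fin 4 → Fin 4 → A[X],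
      (∀ i j, wronskian (x i) (x j) = C c * q i j) ∧ ∃ i j, bar (q i j) ≠ 0 := by
    obtain ⟨p, hp⟩ := hG0
    exact ⟨fun i j => G (i, j), fun i j => hG (i, j), p.1, p.2, hp⟩
  have hCc : (C c : A[X]) ≠ 0 := C_ne_zero.2 hc
  have hdeg : ∀ i j, (bar (q i j)).natDegree + 2 ≤ 2 * D := fun i j => by
    have h1 := natDegree_bar_le (q i j)
    by_cases h0 : q i j = 0
    · rw [h0, bar_zero, natDegree_zero]
      omega
    · have h3 := natDegree_wronskian_le (H.deg i) (H.deg j)
        (by rw [hq]; exact mul_ne_zero hCc h0)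
      rw [hq, natDegree_C_mul hc] at h3
      omega
  obtain ⟨P, γ, hP, dP, ⟨i0, j0, hd2⟩, hr, hγ, hqP⟩ := rel_descend d1 w (g3_rel H hg hc hq)
    (fun i j => by have := hdeg i j; omega) hq0
  have hP0 : P i0 j0 ≠ 0 := fun e => by rw [e, natDegree_zero] at hd2; omega
  have hdγ : γ.natDegree + 2 ≤ 2 * h.natDegree := by
    have h1 := hdeg i0 j0
    rw [hqP, natDegree_mul hγ (pow_ne_zero 3 hP0), natDegree_pow, hd2] at h1
    omega
  have hZ : ∀ i j, ∃ Z : A[X], C (3 : A) * Z = C c * derivative (derivative (x i * q j i)) ∧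
      bar Z = h ^ 3 * a i ^ 3 * wronskian (a i) (a j) ^ 3 := fun i j => by
    obtain ⟨Z, e1, e2⟩ := hasse (hg.eq i) (hg.eq j)
    refine ⟨Z, ?_, e2⟩
    rw [hq, mul_left_comm, derivative_C_mul, derivative_C_mul] at e1
    rw [e1]
    rfl
  obtain ⟨ε, hε⟩ : ∃ ε : A, 3 = c * ε := by
    obtain ⟨Z, e1, e2⟩ := hZ 0 1
    obtain ⟨e, he, _⟩ := dvd_of_C_mul_eq e1 (by
      rw [e2]
      exact mul_ne_zero (mul_ne_zero (pow_ne_zero 3 hg.ne) (pow_ne_zero 3 (ha 0)))
        (pow_ne_zero 3 (w 0 1 (by decide)))) hc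
    exact ⟨e, he⟩
  have hT : ∀ i j, P j i ^ 3 * derivative (derivative (h * γ)) =
      C (res ε) * h ^ 3 * wronskian (a i) (a j) ^ 3 := fun i j => by
    obtain ⟨Z, e1, e2⟩ := hZ i j
    rw [hε, C_mul, mul_assoc] at e1
    have e3 := congrArg bar (mul_left_cancel₀ hCc e1)
    rw [bar_mul, bar_C, e2, bar_derivative, bar_derivative, bar_mul, hg.eq, hqP] at e3
    have e4 : h * a i ^ 3 * (γ * P j i ^ 3) = (a i * P j i) ^ 3 * (h * γ) := by ring
    rw [e4, derivative_cube_mul, derivative_cube_mul] at e3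
    exact mul_left_cancel₀ (pow_ne_zero 3 (ha i)) (by linear_combination -e3)
  have hT0 : derivative (derivative (h * γ)) = 0 := by
    by_contra hne
    have hij : j0 ≠ i0 := fun e => by
      have e1 := hT j0 i0
      rw [e, wronskian_self_eq_zero, zero_pow (by norm_num), mul_zero] at e1
      rw [e] at hP0
      exact mul_ne_zero (pow_ne_zero 3 hP0) hne e1
    obtain ⟨b, hb⟩ := IsAlgClosed.exists_root (P i0 j0) (by
      rw [degree_eq_natDegree hP0, hd2]; decide)
    obtain ⟨i, j, hij'⟩ := hr b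
    have e1 : P i0 j0 ^ 3 * wronskian (a j) (a i) ^ 3 = P i j ^ 3 * wronskian (a j0) (a i0) ^ 3 :=
      mul_left_cancel₀ hne (by
        linear_combination wronskian (a j) (a i) ^ 3 * hT j0 i0 -
          wronskian (a j0) (a i0) ^ 3 * hT j i)
    have e2 := congrArg (eval b) e1
    have hb' : (P i0 j0).eval b = 0 := hb
    simp only [eval_mul, eval_pow, hb'] at e2
    exact mul_ne_zero (pow_ne_zero 3 hij')
      (pow_ne_zero 3 (g3_const (hg.dega j0) (hg.dega i0) (w _ _ hij) b)) (by rw [← e2]; ring)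
  have hrm : ∀ b, 2 * rootMultiplicity b h ≤ rootMultiplicity b γ := fun b => by
    rcases Nat.eq_zero_or_pos (rootMultiplicity b h) with h0 | hN
    · omega
    obtain ⟨h0, e0, hnd⟩ := exists_eq_pow_rootMultiplicity_mul_and_not_dvd h hg.ne b
    have hu : h0.eval b ≠ 0 := fun e => hnd (dvd_iff_isRoot.2 e)
    have hI := hC b (fun i => h0 * a i ^ 3)
      (fun i => by rw [hg.eq, ← mul_assoc, ← e0]) (by
        by_contra hn
        simp only [not_exists, not_not, eval_mul, eval_pow, mul_eq_zero, hu, false_or,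
          pow_eq_zero_iff (show (3 : ℕ) ≠ 0 by norm_num)] at hn
        apply g3_const (hg.dega 0) (hg.dega 1) (w 0 1 (by decide)) b
        simp only [wronskian, eval_sub, eval_mul, hn, zero_mul, mul_zero, sub_zero])
    simp only [eval_mul, eval_pow] at hI
    have h4 := g3_step' hg.dega h2 w ns2 hP dP (hr b) hN hu (g := rootMultiplicity b γ)
      (fun i j hij => by
        have hne : γ * P i j ^ 3 ≠ 0 := mul_ne_zero hγ (pow_ne_zero 3 hij)
        show rootMultiplicity b (nred (wronskian (x i) (x j))) = _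
        rw [rm_nred (hq i j) hc (by rw [hqP]; exact hne), hqP, rootMultiplicity_mul hne,
          g3_rm_pow hij]) hI
    have h5 := rm_mod_three (mul_ne_zero hg.ne hγ) hT0 b
    rw [rootMultiplicity_mul (mul_ne_zero hg.ne hγ)] at h5
    omega
  have hdvd : h ^ 2 ∣ γ := dvd_of_rm_le (pow_ne_zero 2 hg.ne) hγ fun b => by
    rw [g3_rm_pow hg.ne]
    exact hrm b
  have h6 := natDegree_le_of_dvd hdvd hγ
  rw [natDegree_pow] at h6
  omega

end Pool.Agent.FS
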