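import Pool.Agent.P.MP_57148c_nt.Hasse
import Pool.Agent.P.MP_57148c_nt.Root

open Polynomial

noncomputable section
namespace Pool.Agent.FS

theorem gentop_ineq {k : Type} [Field k] {n w : ℕ} {P : Fin 4 → k} {o : Fin 4 → Fin 4 → ℕ}
    (hs : ∀ i j, o i j = o j i) (h01 : P 0 ^ 2 + P 1 ^ 2 = 0) (h23 : P 2 ^ 2 + P 3 ^ 2 = 0)
    (hne : ∃ i, P i ≠ 0) (m02 : o 0 2 = w) (m03 : o 0 3 = w) (m12 : o 1 2 = w) (m13 : o 1 3 = w)
    (one1 : P 3 ≠ 0 → 4 * n ≤ o 0 1 + w) (one3 : P 1 ≠ 0 → 4 * n ≤ o 2 3 + w)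
    (two1 : P 3 ≠ 0 → 2 * n + 2 ≤ o 0 1) (two3 : P 1 ≠ 0 → 2 * n + 2 ≤ o 2 3) : Ineq n P o := by
  have z01 : P 0 = 0 ↔ P 1 = 0 := by
    constructor
    · intro e
      rw [e] at h01
      simpa using h01
    · intro e
      rw [e] at h01
      simpa using h01
  have z23 : P 2 = 0 ↔ P 3 = 0 := by
    constructor
    · intro e
      rw [e] at h23
      simpa using h23
    · intro e
      rw [e] at h23
      simpa using h23
  have nz : P 1 = 0 → P 3 = 0 → False := by
    intro e1 e3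
    obtain ⟨i, hi⟩ := hne
    fin_cases i
    · exact hi (z01.2 e1)
    · exact hi e1
    · exact hi (z23.2 e3)
    · exact hi e3
  have h10 : P 1 ^ 2 + P 0 ^ 2 = 0 := by rw [add_comm]; exact h01
  have h32 : P 3 ^ 2 + P 2 ^ 2 = 0 := by rw [add_comm]; exact h23
  have s01 : o 1 0 = o 0 1 := hs 1 0
  have s02 : o 2 0 = o 0 2 := hs 2 0
  have s03 : o 3 0 = o 0 3 := hs 3 0
  have s12 : o 2 1 = o 1 2 := hs 2 1
  have s13 : o 3 1 = o 1 3 := hs 3 1
  have s23 : o 3 2 = o 2 3 := hs 3 2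
  have four : ∀ i : Fin 4, i = 0 ∨ i = 1 ∨ i = 2 ∨ i = 3 := by decide
  refine ⟨fun _ => ⟨0, 1, by decide, h01⟩, fun hP i j l hij hil hjl hsq => ?_,
    fun _ i j hij hi hj => ?_⟩
  · have a1 := one1 (hP 3)
    have a3 := one3 (hP 1)
    rcases four i with rfl | rfl | rfl | rfl <;> rcases four j with rfl | rfl | rfl | rfl <;>
      rcases four l with rfl | rfl | rfl | rfl <;>
      first
        | exact absurd rfl hij
        | exact absurd rfl hil
        | exact absurd rfl hjl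
        | exact absurd h01 hsq
        | exact absurd h10 hsq
        | exact absurd h23 hsq
        | exact absurd h32 hsq
        | omega
  · by_cases e1 : P 1 = 0
    · have e3 : P 3 ≠ 0 := fun e => nz e1 e
      have e2 : P 2 ≠ 0 := fun e => e3 (z23.1 e)
      have a1 := two1 e3
      rcases four i with rfl | rfl | rfl | rfl <;> rcases four j with rfl | rfl | rfl | rfl <;>
        first
          | exact absurd rfl hij
          | exact absurd hi e2
          | exact absurd hi e3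
          | exact absurd hj e2
          | exact absurd hj e3
          | omega
    · have e0 : P 0 ≠ 0 := fun e => e1 (z01.1 e)
      have a3 := two3 e1
      rcases four i with rfl | rfl | rfl | rfl <;> rcases four j with rfl | rfl | rfl | rfl <;>
        first
          | exact absurd rfl hij
          | exact absurd hi e0
          | exact absurd hi e1
          | exact absurd hj e0
          | exact absurd hj e1
          | omega

theorem gentop_wr {k : Type} [Field k] (h F G : k[X]) (a b : k) :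
    wronskian (h * (C a * F)) (h * (C b * G)) = C (a * b) * (h ^ 2 * wronskian F G) := by
  simp only [wronskian, derivative_mul, derivative_C, map_mul]
  ring

theorem gentop_rm {k : Type} [Field k] {u : k} (hu : u ≠ 0) {F G : k[X]} (hF : F ≠ 0)
    (hG : G ≠ 0) (m : ℕ) (b : k) :
    rootMultiplicity b (C u * (F ^ m * G)) = m * rootMultiplicity b F + rootMultiplicity b G := by
  have hp : ∀ m : ℕ, rootMultiplicity b (F ^ m) = m * rootMultiplicity b F := by
    intro m
    induction m with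
    | zero =>
      rw [pow_zero, zero_mul, ← C_1, rootMultiplicity_C]
    | succ m ih =>
      rw [pow_succ, rootMultiplicity_mul (mul_ne_zero (pow_ne_zero _ hF) hF), ih]
      ring
  rw [rootMultiplicity_mul (mul_ne_zero (C_ne_zero.2 hu) (mul_ne_zero (pow_ne_zero _ hF) hG)),
    rootMultiplicity_C, zero_add, rootMultiplicity_mul (mul_ne_zero (pow_ne_zero _ hF) hG), hp]

theorem gentop_nd {k : Type} [Field k] {u : k} (hu : u ≠ 0) {F G : k[X]} (hF : F ≠ 0)
    (hG : G ≠ 0) (m : ℕ) :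
    (C u * (F ^ m * G)).natDegree = m * F.natDegree + G.natDegree := by
  rw [natDegree_C_mul hu, natDegree_mul (pow_ne_zero _ hF) hG, natDegree_pow]

theorem gentop_theta {k : Type} [Field k] {i i' : k} (hi : i ^ 2 = -1) (hi' : i' ^ 2 = -1)
    {h X₁ X₃ q₁ q₃ : k[X]} (hh : h ≠ 0) (h3 : X₃ ≠ 0) (hc : IsCoprime X₁ X₃)
    (hq : q₁ ≠ 0 ∨ q₃ ≠ 0)
    (e : C i * (h * X₁) ^ 4 * q₁ + C i' * (h * X₃) ^ 4 * q₃ = 0) :
    ∃ Θ : k[X], Θ ≠ 0 ∧ q₁ = X₃ ^ 4 * Θ ∧ q₃ = C (i * i') * (X₁ ^ 4 * Θ) := by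
  have ci : (C i : k[X]) ^ 2 = -1 := by rw [← C_pow, hi, C_neg, C_1]
  have ci' : (C i' : k[X]) ^ 2 = -1 := by rw [← C_pow, hi', C_neg, C_1]
  have e1 : C i * X₁ ^ 4 * q₁ + C i' * X₃ ^ 4 * q₃ = 0 := by
    apply mul_left_cancel₀ (pow_ne_zero 4 hh)
    linear_combination e
  have hd : X₃ ^ 4 ∣ X₁ ^ 4 * q₁ :=
    ⟨C i * C i' * q₃, by linear_combination (-C i) * e1 + X₁ ^ 4 * q₁ * ci⟩
  obtain ⟨Θ, hΘ⟩ := (IsCoprime.pow (m := 4) (n := 4) hc.symm).dvd_of_dvd_mul_left hd
  have e3 : q₃ = C (i * i') * (X₁ ^ 4 * Θ) := by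
    apply mul_left_cancel₀ (pow_ne_zero 4 h3)
    rw [hΘ] at e1
    rw [map_mul]
    linear_combination (-C i') * e1 + X₃ ^ 4 * q₃ * ci'
  refine ⟨Θ, fun e0 => ?_, hΘ, e3⟩
  rw [e0] at hΘ e3
  rcases hq with hq | hq
  · exact hq (by rw [hΘ, mul_zero])
  · exact hq (by rw [e3, mul_zero, mul_zero])

variable {A : ValuationSubring ℂ} [Three A]

omit [Three A] in
theorem gentop_mixed {f g : A[X]} {h F G : (kk A)[X]} {a b : kk A} (ha : a ≠ 0) (hb : b ≠ 0)
    (hh : h ≠ 0) (hw : wronskian F G ≠ 0) (ef : bar f = h * (C a * F))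
    (eg : bar g = h * (C b * G)) :
    ∃ u : kk A, u ≠ 0 ∧ nred (wronskian f g) = C u * (h ^ 2 * wronskian F G) := by
  have e : bar (wronskian f g) = C (a * b) * (h ^ 2 * wronskian F G) := by
    rw [bar_wronskian, ef, eg, gentop_wr]
  have hne : bar (wronskian f g) ≠ 0 := by
    rw [e]
    exact mul_ne_zero (C_ne_zero.2 (mul_ne_zero ha hb)) (mul_ne_zero (pow_ne_zero _ hh) hw)
  obtain ⟨u, hu, eu⟩ := nred_eq (c := 1) (f := wronskian f g) (g := wronskian f g)
    (by rw [C_1, one_mul]) one_ne_zero hne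
  refine ⟨u * (a * b), mul_ne_zero hu (mul_ne_zero ha hb), ?_⟩
  rw [eu, e, ← mul_assoc, ← C_mul]

/-- the vertex lemma in the generic separable case -/
theorem gen_top {D : ℕ} {x : Fin 4 → A[X]} (H : Sol D x) {i i' : kk A} (hi : i ^ 2 = -1)
    (hi' : i' ^ 2 = -1) {h X₁ X₃ : (kk A)[X]} (hh : h ≠ 0)
    (e0 : bar (x 0) = h * (C i * X₁)) (e1 : bar (x 1) = h * X₁)
    (e2 : bar (x 2) = h * (C i' * X₃)) (e3 : bar (x 3) = h * X₃) (hc : IsCoprime X₁ X₃)
    (hw : wronskian X₁ X₃ ≠ 0) (hg : Gen x i i')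
    (hC : ∀ b, Claim x b (rootMultiplicity b h)) (n : ℕ) : Top x n := by
  have i0 : i ≠ 0 := by
    rintro rfl
    simp at hi
  have i0' : i' ≠ 0 := by
    rintro rfl
    simp at hi'
  have x1 : X₁ ≠ 0 := by
    rintro rfl
    exact hw (wronskian_zero_left _)
  have x3 : X₃ ≠ 0 := by
    rintro rfl
    exact hw (wronskian_zero_right _)
  obtain ⟨c, q1, q3, w01, w23, hq, hrel⟩ := hg
  have c0 : c ≠ 0 := by
    rintro rfl
    exact H.ind 0 1 (by decide) (by rw [w01, C_0, zero_mul])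
  rw [e1, e3] at hrel
  obtain ⟨Θ, hΘ, eq1, eq3⟩ := gentop_theta hi hi' hh x3 hc hq hrel
  have k01 : ∃ u : kk A, u ≠ 0 ∧ nred (wronskian (x 0) (x 1)) = C u * (X₃ ^ 4 * Θ) := by
    obtain ⟨u, hu, eu⟩ := nred_eq w01 c0
      (by rw [eq1]; exact mul_ne_zero (pow_ne_zero _ x3) hΘ)
    exact ⟨u, hu, by rw [eu, eq1]⟩
  have k23 : ∃ u : kk A, u ≠ 0 ∧ nred (wronskian (x 2) (x 3)) = C u * (X₁ ^ 4 * Θ) := by
    obtain ⟨u, hu, eu⟩ := nred_eq w23 c0 (by
      rw [eq3]
      exact mul_ne_zero (C_ne_zero.2 (mul_ne_zero i0 i0')) (mul_ne_zero (pow_ne_zero _ x1) hΘ))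
    exact ⟨u * (i * i'), mul_ne_zero hu (mul_ne_zero i0 i0'), by
      rw [eu, eq3, ← mul_assoc, ← C_mul]⟩
  have e1' : bar (x 1) = h * (C 1 * X₁) := by rw [e1, C_1, one_mul]
  have e3' : bar (x 3) = h * (C 1 * X₃) := by rw [e3, C_1, one_mul]
  obtain ⟨u01, n01, k01⟩ := k01
  obtain ⟨u23, n23, k23⟩ := k23
  obtain ⟨u02, n02, k02⟩ := gentop_mixed i0 i0' hh hw e0 e2
  obtain ⟨u03, n03, k03⟩ := gentop_mixed i0 one_ne_zero hh hw e0 e3'
  obtain ⟨u12, n12, k12⟩ := gentop_mixed one_ne_zero i0' hh hw e1' e2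
  obtain ⟨u13, n13, k13⟩ := gentop_mixed one_ne_zero one_ne_zero hh hw e1' e3'
  have loc : ∀ b, 2 * rootMultiplicity b h ≤
      rootMultiplicity b Θ + rootMultiplicity b (wronskian X₁ X₃) := by
    intro b
    obtain ⟨h0, eh, nh⟩ := exists_eq_pow_rootMultiplicity_mul_and_not_dvd h hh b
    have hb : h0.eval b ≠ 0 := fun e => nh (dvd_iff_isRoot.2 e)
    have cop : X₁.eval b = 0 → X₃.eval b = 0 → False := by
      intro a1 a3
      obtain ⟨r, s, hrs⟩ := hc
      have := congrArg (eval b) hrs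
      simp [a1, a3] at this
    set N := rootMultiplicity b h with hN
    have I := hC b ![h0 * (C i * X₁), h0 * X₁, h0 * (C i' * X₃), h0 * X₃] (by
      intro j
      fin_cases j
      · show bar (x 0) = (X - C b) ^ N * (h0 * (C i * X₁))
        rw [← mul_assoc, ← eh, e0]
      · show bar (x 1) = (X - C b) ^ N * (h0 * X₁)
        rw [← mul_assoc, ← eh, e1]
      · show bar (x 2) = (X - C b) ^ N * (h0 * (C i' * X₃))
        rw [← mul_assoc, ← eh, e2]
      · show bar (x 3) = (X - C b) ^ N * (h0 * X₃)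
        rw [← mul_assoc, ← eh, e3]) (by
      by_cases a1 : X₁.eval b = 0
      · refine ⟨3, ?_⟩
        show (h0 * X₃).eval b ≠ 0
        rw [eval_mul]
        exact mul_ne_zero hb fun a3 => cop a1 a3
      · refine ⟨1, ?_⟩
        show (h0 * X₁).eval b ≠ 0
        rw [eval_mul]
        exact mul_ne_zero hb a1)
    rcases Nat.eq_zero_or_pos N with hN0 | hN0
    · omega
    have r01 := gentop_rm n01 x3 hΘ 4 b
    have r23 := gentop_rm n23 x1 hΘ 4 b
    have r02 := gentop_rm n02 hh hw 2 b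
    have r03 := gentop_rm n03 hh hw 2 b
    rw [← k01] at r01
    rw [← k23] at r23
    rw [← k02, ← hN] at r02
    rw [← k03, ← hN] at r03
    by_cases a1 : X₁.eval b = 0
    · have a3 : rootMultiplicity b X₃ = 0 := rootMultiplicity_eq_zero fun a3 => cop a1 a3
      have t : 2 * N + 2 ≤ rootMultiplicity b (nred (wronskian (x 0) (x 1))) :=
        I.two hN0 0 1 (by decide)
          (show (h0 * (C i * X₁)).eval b = 0 by simp [a1])
          (show (h0 * X₁).eval b = 0 by simp [a1])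
      omega
    by_cases a3 : X₃.eval b = 0
    · have a1' : rootMultiplicity b X₁ = 0 := rootMultiplicity_eq_zero a1
      have t : 2 * N + 2 ≤ rootMultiplicity b (nred (wronskian (x 2) (x 3))) :=
        I.two hN0 2 3 (by decide)
          (show (h0 * (C i' * X₃)).eval b = 0 by simp [a3])
          (show (h0 * X₃).eval b = 0 by simp [a3])
      omega
    have a3' : rootMultiplicity b X₃ = 0 := rootMultiplicity_eq_zero a3
    have hP : ∀ j : Fin 4,
        ((![h0 * (C i * X₁), h0 * X₁, h0 * (C i' * X₃), h0 * X₃] : Fin 4 → (kk A)[X]) j).eval b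
          ≠ 0 := by
      intro j
      fin_cases j
      · show (h0 * (C i * X₁)).eval b ≠ 0
        simp [hb, i0, a1]
      · show (h0 * X₁).eval b ≠ 0
        simp [hb, a1]
      · show (h0 * (C i' * X₃)).eval b ≠ 0
        simp [hb, i0', a3]
      · show (h0 * X₃).eval b ≠ 0
        simp [hb, a3]
    by_cases s : (h0 * X₁).eval b ^ 2 + (h0 * X₃).eval b ^ 2 = 0
    · have s' : (h0 * X₁).eval b ^ 2 + (h0 * (C i' * X₃)).eval b ^ 2 ≠ 0 := by
        intro s'
        simp only [eval_mul, eval_C] at s s'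
        have t3 : (3 : kk A) = 0 := three_eq_zero'
        have : (h0.eval b * X₁.eval b) ^ 2 = 0 := by
          linear_combination (-1) * s - s' + (h0.eval b * X₃.eval b) ^ 2 * hi' +
            (h0.eval b * X₁.eval b) ^ 2 * t3
        exact mul_ne_zero hb a1 (pow_eq_zero_iff two_ne_zero |>.1 this)
      have t : 4 * N ≤ rootMultiplicity b (nred (wronskian (x 0) (x 1))) +
          rootMultiplicity b (nred (wronskian (x 0) (x 2))) :=
        I.one hP 0 1 2 (by decide) (by decide) (by decide) s'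
      omega
    · have t : 4 * N ≤ rootMultiplicity b (nred (wronskian (x 0) (x 1))) +
          rootMultiplicity b (nred (wronskian (x 0) (x 3))) :=
        I.one hP 0 1 3 (by decide) (by decide) (by decide) s
      omega
  have hdvd : h ^ 2 ∣ Θ * wronskian X₁ X₃ := by
    refine dvd_of_rm_le (pow_ne_zero _ hh) (mul_ne_zero hΘ hw) fun b => ?_
    rw [rootMultiplicity_mul (mul_ne_zero hΘ hw), pow_two, rootMultiplicity_mul (mul_ne_zero hh hh)]
    have := loc b
    omega
  have glob : 2 * h.natDegree ≤ Θ.natDegree + (wronskian X₁ X₃).natDegree := by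
    have := natDegree_le_of_dvd hdvd (mul_ne_zero hΘ hw)
    rwa [natDegree_pow, natDegree_mul hΘ hw] at this
  intro hd hne
  have d1 : h.natDegree + X₁.natDegree ≤ n := by
    have := hd 1
    rwa [e1, natDegree_mul hh x1] at this
  have d3 : h.natDegree + X₃.natDegree ≤ n := by
    have := hd 3
    rwa [e3, natDegree_mul hh x3] at this
  obtain ⟨d, rfl⟩ : ∃ d, n = h.natDegree + d := ⟨n - h.natDegree, by omega⟩
  have d1' : X₁.natDegree ≤ d := by omega
  have d3' : X₃.natDegree ≤ d := by omega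
  have hW := natDegree_wronskian_le d1' d3' hw
  have p0 : (bar (x 0)).coeff (h.natDegree + d) = i * (bar (x 1)).coeff (h.natDegree + d) := by
    rw [e0, e1, mul_left_comm, coeff_C_mul]
  have p2 : (bar (x 2)).coeff (h.natDegree + d) = i' * (bar (x 3)).coeff (h.natDegree + d) := by
    rw [e2, e3, mul_left_comm, coeff_C_mul]
  have f1 : (bar (x 1)).coeff (h.natDegree + d) ≠ 0 → X₁.natDegree = d := by
    intro e
    have := le_natDegree_of_ne_zero e
    rw [e1, natDegree_mul hh x1] at this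
    omega
  have f3 : (bar (x 3)).coeff (h.natDegree + d) ≠ 0 → X₃.natDegree = d := by
    intro e
    have := le_natDegree_of_ne_zero e
    rw [e3, natDegree_mul hh x3] at this
    omega
  have r01 := gentop_nd n01 x3 hΘ 4
  have r23 := gentop_nd n23 x1 hΘ 4
  rw [← k01] at r01
  rw [← k23] at r23
  refine gentop_ineq (w := 2 * h.natDegree + (wronskian X₁ X₃).natDegree)
    (fun j l => nd_nred_comm _ _) ?_ ?_ hne ?_ ?_ ?_ ?_ (fun e => ?_) (fun e => ?_) (fun e => ?_)
    (fun e => ?_)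
  · show (bar (x 0)).coeff _ ^ 2 + (bar (x 1)).coeff _ ^ 2 = 0
    rw [p0, mul_pow, hi]
    ring
  · show (bar (x 2)).coeff _ ^ 2 + (bar (x 3)).coeff _ ^ 2 = 0
    rw [p2, mul_pow, hi']
    ring
  · show (nred (wronskian (x 0) (x 2))).natDegree = _
    rw [k02, gentop_nd n02 hh hw]
  · show (nred (wronskian (x 0) (x 3))).natDegree = _
    rw [k03, gentop_nd n03 hh hw]
  · show (nred (wronskian (x 1) (x 2))).natDegree = _
    rw [k12, gentop_nd n12 hh hw]
  · show (nred (wronskian (x 1) (x 3))).natDegree = _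
    rw [k13, gentop_nd n13 hh hw]
  · have := f3 e
    show _ ≤ (nred (wronskian (x 0) (x 1))).natDegree + _
    omega
  · have := f1 e
    show _ ≤ (nred (wronskian (x 2) (x 3))).natDegree + _
    omega
  · have := f3 e
    show _ ≤ (nred (wronskian (x 0) (x 1))).natDegree
    omega
  · have := f1 e
    show _ ≤ (nred (wronskian (x 2) (x 3))).natDegree
    omega

end Pool.Agent.FS
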