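import Pool.Agent.P.MP_57148c_nt.Val
import Pool.Agent.P.MP_57148c_nt.Char3

open Polynomial

noncomputable section
namespace Pool.Agent.FS

variable {A : ValuationSubring ℂ} [Three A]

theorem hasse_d3 {R : Type} [CommRing R] (P : R[X]) :
    derivative (derivative (derivative P)) = 6 * hasseDeriv 3 P := by
  have h := congrFun (factorial_smul_hasseDeriv (R := R) 3) P
  have e : (derivative^[3] P : R[X]) = derivative (derivative (derivative P)) := rfl
  rw [← e, ← h, LinearMap.smul_apply, nsmul_eq_mul]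
  norm_num [Nat.factorial]

theorem hasse_d3_zero {k : Type} [Field k] [CharP k 3] (P : k[X]) :
    derivative (derivative (derivative P)) = 0 := by
  rw [hasse_d3]
  linear_combination (2 * hasseDeriv 3 P) * three_eq_zero (k := k)

theorem hasse_cube {R : Type} [CommRing R] (P : R[X]) :
    derivative (derivative (derivative (P ^ 3))) =
      3 * (2 * derivative P ^ 3 + 6 * (P * derivative P * derivative (derivative P)) +
        P ^ 2 * derivative (derivative (derivative P))) := by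
  have e : P ^ 3 = P * P * P := by ring
  rw [e]
  simp only [derivative_mul, derivative_add]
  ring

theorem hasse_k {k : Type} [Field k] [CharP k 3] (G A₁ A₂ : k[X]) :
    derivative (derivative (G * A₁ ^ 3 * (G * A₂ ^ 3) * derivative (G * A₂ ^ 3))) -
      2 * derivative (G * A₁ * A₂ ^ 2) ^ 3 = G ^ 3 * A₂ ^ 3 * wronskian A₂ A₁ ^ 3 := by
  have h1 : derivative (G * A₂ ^ 3) = A₂ ^ 3 * derivative G := by
    rw [mul_comm, derivative_cube_mul]
  have h2 : G * A₁ ^ 3 * (G * A₂ ^ 3) * (A₂ ^ 3 * derivative G) =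
      (A₁ * A₂ ^ 2) ^ 3 * (G * G * derivative G) := by ring
  have h3 : derivative (derivative (G * G * derivative G)) = 2 * derivative G ^ 3 := by
    simp only [derivative_mul, derivative_add, hasse_d3_zero]
    linear_combination (2 * G * derivative G * derivative (derivative G)) * three_eq_zero (k := k)
  have h4 : derivative (G * A₁ * A₂ ^ 2) =
      derivative G * A₁ * A₂ ^ 2 + G * A₂ * wronskian A₂ A₁ := by
    rw [sq]
    simp only [derivative_mul, wronskian]
    linear_combination (G * A₁ * A₂ * derivative A₂) * three_eq_zero (k := k)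
  rw [h1, h2, derivative_cube_mul, derivative_cube_mul, h3, h4, cube_add]
  linear_combination (-(G ^ 3 * A₂ ^ 3 * wronskian A₂ A₁ ^ 3)) * three_eq_zero (k := k)

/-- divided third derivative -/
theorem hasse {f g : A[X]} {G A₁ A₂ : (kk A)[X]} (hf : bar f = G * A₂ ^ 3)
    (hg : bar g = G * A₁ ^ 3) :
    ∃ Z : A[X], derivative (derivative (f * wronskian g f)) = 3 * Z ∧
      bar Z = G ^ 3 * A₂ ^ 3 * wronskian A₂ A₁ ^ 3 := by
  obtain ⟨P, hP⟩ : ∃ P : A[X], bar P = G * A₁ * A₂ ^ 2 :=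
    Polynomial.map_surjective _ IsLocalRing.residue_surjective _
  have h0 : bar (g * f * f - P ^ 3) = 0 := by
    rw [bar_sub, bar_mul, bar_mul, bar_pow, hf, hg, hP]
    ring
  obtain ⟨c, R, hc, hR⟩ := exists_C_mul_of_bar_eq_zero h0
  have hY : g * f * f = P ^ 3 + C c * R := by rw [← hR]; ring
  have h1 : f * wronskian g f = 3 * (g * f * derivative f) - derivative (g * f * f) := by
    simp only [derivative_mul, wronskian]
    ring
  refine ⟨derivative (derivative (g * f * derivative f)) -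
    (2 * derivative P ^ 3 + 6 * (P * derivative P * derivative (derivative P)) +
      P ^ 2 * derivative (derivative (derivative P))) - C c * (2 * hasseDeriv 3 R), ?_, ?_⟩
  · have h3 : ∀ q : A[X], derivative (3 * q) = 3 * derivative q := fun q => by
      rw [derivative_mul, derivative_ofNat, zero_mul, zero_add]
    rw [h1, hY, derivative_sub, derivative_sub, h3, h3, derivative_add, derivative_add,
      derivative_add, hasse_cube, derivative_C_mul, derivative_C_mul, derivative_C_mul, hasse_d3 R]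
    ring
  · simp only [bar_sub, bar_add, bar_mul, bar_pow, bar_C, bar_ofNat, bar_derivative, hc, hf, hg,
      hP, C_0, zero_mul, sub_zero, hasse_d3_zero, mul_zero, add_zero]
    linear_combination hasse_k G A₁ A₂ - (2 * (G * A₁ * A₂ ^ 2 * derivative (G * A₁ * A₂ ^ 2) *
      derivative (derivative (G * A₁ * A₂ ^ 2)))) * three_eq_zero (k := kk A)

omit [Three A] in
theorem Sol.sum4 {D : ℕ} {x : Fin 4 → A[X]} (h : Sol D x) :
    x 0 ^ 6 + x 1 ^ 6 + x 2 ^ 6 + x 3 ^ 6 = 0 := by
  simpa only [Fin.sum_univ_four] using h.sum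

theorem hasse_d6 {R : Type} [CommRing R] (P : R[X]) :
    derivative (P ^ 6) = 6 * (P ^ 5 * derivative P) := by
  have e : P ^ 6 = P * P * P * P * P * P := by ring
  rw [e]
  simp only [derivative_mul]
  ring

omit [Three A] in
theorem Sol.sum5 {D : ℕ} {x : Fin 4 → A[X]} (h : Sol D x) :
    ∑ i, x i ^ 5 * derivative (x i) = 0 := by
  have h1 := congrArg derivative h.sum4
  simp only [derivative_add, hasse_d6, derivative_zero] at h1
  refine mul_left_cancel₀ (show (6 : A[X]) ≠ 0 by norm_num) ?_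
  rw [Fin.sum_univ_four]
  linear_combination h1

omit [Three A] in
theorem Sol.rel {D : ℕ} {x : Fin 4 → A[X]} (h : Sol D x) :
    Rel x fun i j => wronskian (x i) (x j) := by
  refine ⟨fun i j => (wronskian_neg_eq _ _).symm, fun i j l => ?_, fun j => ?_⟩
  · simp only [wronskian]
    ring
  · have h5 := h.sum5
    simp only [Fin.sum_univ_four, wronskian] at h5 ⊢
    linear_combination derivative (x j) * h.sum4 - x j * h5

omit [Three A] in
theorem Rel.key {R : Type} [CommRing R] {a : Fin 4 → R} {Q : Fin 4 → Fin 4 → R} (h : Rel a Q) :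
    a 0 ^ 5 * a 3 * Q 0 1 + a 1 * a 2 ^ 5 * Q 2 3 + a 1 ^ 5 * a 3 * Q 1 1 =
      (a 2 ^ 6 + a 3 ^ 6) * Q 1 3 := by
  have h1 := h.syz 1
  rw [Fin.sum_univ_four] at h1
  linear_combination a 3 * h1 + a 2 ^ 5 * h.cyc 1 2 3 - (a 2 ^ 6 + a 3 ^ 6) * h.anti 3 1 -
    a 2 ^ 5 * a 3 * h.anti 1 2

omit [Three A] in
theorem Sol.key {D : ℕ} {x : Fin 4 → A[X]} (h : Sol D x) :
    x 0 ^ 5 * x 3 * wronskian (x 0) (x 1) + x 1 * x 2 ^ 5 * wronskian (x 2) (x 3) =
      (x 2 ^ 6 + x 3 ^ 6) * wronskian (x 1) (x 3) := by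
  have h1 := h.rel.key
  simpa only [wronskian_self_eq_zero, mul_zero, add_zero] using h1

theorem hasse_sq {k : Type} [Field k] [CharP k 3] {Y : Fin 4 → k[X]}
    (h : Y 0 ^ 6 + Y 1 ^ 6 + Y 2 ^ 6 + Y 3 ^ 6 = 0) : ∑ i, Y i ^ 2 = 0 := by
  refine pow_eq_zero_iff (n := 3) (by norm_num) |>.1 ?_
  rw [Fin.sum_univ_four, cube_add, cube_add, cube_add]
  linear_combination h

/-- the reduced tuple lies on the quadric -/
theorem Sol.quad {D : ℕ} {x : Fin 4 → A[X]} (H : Sol D x) {h : (kk A)[X]}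
    {X' : Fin 4 → (kk A)[X]} (hh : h ≠ 0) (e : ∀ i, bar (x i) = h * X' i) :
    ∑ i, X' i ^ 2 = 0 ∧ ∑ i, X' i ^ 5 * derivative (X' i) = 0 := by
  have h4 := congrArg bar H.sum4
  have h5 := H.sum5
  rw [Fin.sum_univ_four] at h5
  replace h5 := congrArg bar h5
  simp only [bar_add, bar_mul, bar_pow, bar_zero, bar_derivative, e, derivative_mul] at h4 h5
  have h6 : X' 0 ^ 6 + X' 1 ^ 6 + X' 2 ^ 6 + X' 3 ^ 6 = 0 := by
    refine mul_left_cancel₀ (pow_ne_zero 6 hh) ?_
    linear_combination h4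
  refine ⟨hasse_sq h6, mul_left_cancel₀ (pow_ne_zero 6 hh) ?_⟩
  rw [Fin.sum_univ_four]
  linear_combination h5 - h ^ 5 * derivative h * h6

theorem Good.quad {D : ℕ} {x : Fin 4 → A[X]} (H : Sol D x) {h : (kk A)[X]}
    {a : Fin 4 → (kk A)[X]} (hg : Good D x h a) : ∑ i, a i ^ 2 = 0 := by
  have h1 := (H.quad hg.ne hg.eq).1
  rw [Fin.sum_univ_four] at h1
  exact hasse_sq (by linear_combination h1)

theorem hasse_line {k : Type} [Field k] [IsAlgClosed k] {u v : k[X]} (h : u ^ 2 + v ^ 2 = 0) :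
    ∃ i : k, i ^ 2 = -1 ∧ u = C i * v := by
  obtain ⟨i, hi⟩ := IsAlgClosed.exists_pow_nat_eq (-1 : k) (n := 2) (by norm_num)
  have hI : (C i : k[X]) ^ 2 = -1 := by rw [← C_pow, hi, C_neg, C_1]
  have h1 : (u - C i * v) * (u + C i * v) = 0 := by linear_combination h - v ^ 2 * hI
  rcases mul_eq_zero.1 h1 with h2 | h2
  · exact ⟨i, hi, sub_eq_zero.1 h2⟩
  · exact ⟨-i, by rw [neg_sq, hi], by rw [C_neg]; linear_combination h2⟩

omit [Three A] in
/-- a vanishing sum of two squares gives two linear relations -/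
theorem exists_line {k : Type} [Field k] [IsAlgClosed k] {X' : Fin 4 → k[X]}
    (h2 : ∑ i, X' i ^ 2 = 0) (h : X' 0 ^ 2 + X' 1 ^ 2 = 0) :
    ∃ i i' : k, i ^ 2 = -1 ∧ i' ^ 2 = -1 ∧ X' 0 = C i * X' 1 ∧ X' 2 = C i' * X' 3 := by
  rw [Fin.sum_univ_four] at h2
  obtain ⟨i, hi, e⟩ := hasse_line h
  obtain ⟨i', hi', e'⟩ := hasse_line (u := X' 2) (v := X' 3) (by linear_combination h2 - h)
  exact ⟨i, i', hi, hi', e, e'⟩

end Pool.Agent.FS
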