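import Pool.Agent.P.MP_57148c_nt.Root
import Pool.Agent.P.MP_57148c_nt.Char3

open Polynomial

noncomputable section
namespace Pool.Agent.FS

theorem init_gcd (f : ℂ[X]) {g : ℂ[X]} (hg : g ≠ 0) :
    ∃ d f' g' : ℂ[X], d ≠ 0 ∧ g' ≠ 0 ∧ f = d * f' ∧ g = d * g' ∧ IsCoprime f' g' := by
  classical
  obtain ⟨f', g', h1, h2, h3⟩ := extract_gcd f g
  refine ⟨gcd f g, f', g', fun h => hg ?_, fun h => hg ?_, h1, h2, (gcd_isUnit_iff _ _).1 h3⟩
  · rw [h2, h, zero_mul]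
  · rw [h2, h, mul_zero]

theorem init_const {d f g : ℂ[X]} (hg : g ≠ 0) (h1 : f.natDegree = 0) (h2 : g.natDegree = 0) :
    ∃ c : ℂ, d * f = C c * (d * g) := by
  rw [eq_C_of_natDegree_eq_zero h2] at hg ⊢
  rw [eq_C_of_natDegree_eq_zero h1]
  refine ⟨f.coeff 0 / g.coeff 0, ?_⟩
  rw [mul_left_comm, ← C_mul, div_mul_cancel₀ _ (C_ne_zero.1 hg)]

theorem init_dep {f g : ℂ[X]} (hg : g ≠ 0) (hw : wronskian f g = 0) : ∃ c : ℂ, f = C c * g := by
  obtain ⟨d, f', g', hd, hg', rfl, rfl, hc⟩ := init_gcd f hg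
  have e : wronskian (d * f') (d * g') = d ^ 2 * wronskian f' g' := by
    simp only [wronskian, derivative_mul]; ring
  rw [e, mul_eq_zero, or_iff_right (pow_ne_zero 2 hd), hc.wronskian_eq_zero_iff] at hw
  exact init_const hg' (derivative_eq_zero.1 hw.1) (derivative_eq_zero.1 hw.2)

theorem init_three {a b e : ℂ[X]} {u : ℂ} (ha : a ≠ 0) (hb : b ≠ 0) (he : e ≠ 0)
    (h : a ^ 6 + b ^ 6 + C u * e ^ 6 = 0) : ∃ c : ℂ, a = C c * b := by
  obtain ⟨d, a', b', hd, hb', rfl, rfl, hc⟩ := init_gcd a hb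
  have ha' : a' ≠ 0 := right_ne_zero_of_mul ha
  by_cases hu : u = 0
  · have h1 : a' ^ 6 + b' ^ 6 = 0 := mul_left_cancel₀ (pow_ne_zero 6 hd) (by
      rw [hu, C_0, zero_mul] at h; linear_combination h)
    have h2 : a' ∣ b' ^ 6 := ⟨-a' ^ 5, by linear_combination h1⟩
    have h3 : b' ∣ a' ^ 6 := ⟨-b' ^ 5, by linear_combination h1⟩
    exact init_const hb' (natDegree_eq_zero_of_isUnit (hc.pow_right.isUnit_of_dvd h2))
      (natDegree_eq_zero_of_isUnit (hc.symm.pow_right.isUnit_of_dvd h3))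
  have h1 : d ^ 6 ∣ C u * e ^ 6 := ⟨-(a' ^ 6 + b' ^ 6), by linear_combination h⟩
  rw [(isUnit_C.2 (Ne.isUnit hu)).dvd_mul_left,
    IsIntegrallyClosed.pow_dvd_pow_iff (by norm_num)] at h1
  obtain ⟨e', rfl⟩ := h1
  have h2 : C 1 * a' ^ 6 + C 1 * b' ^ 6 + C u * e' ^ 6 = 0 :=
    mul_left_cancel₀ (pow_ne_zero 6 hd) (by rw [C_1]; linear_combination h)
  have := flt_catalan (p := 6) (q := 6) (r := 6) (by norm_num) (by norm_num) (by norm_num)
    (by norm_num) (by norm_num) (by norm_num) (by norm_num) ha' hb' (right_ne_zero_of_mul he) hc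
    one_ne_zero one_ne_zero hu h2
  exact init_const hb' this.1 this.2.1

theorem init_ind {Y : Fin 4 → ℂ[X]} (hs : ∑ i, Y i ^ 6 = 0) (h0 : Y 0 ≠ 0)
    (hn : ∀ j, j ≠ 0 → ∀ c : ℂ, Y j ≠ C c * Y 0) {i j : Fin 4} (hij : i ≠ j) :
    wronskian (Y i) (Y j) ≠ 0 := by
  have hne : ∀ l, Y l ≠ 0 := fun l => by
    by_cases hl : l = 0
    · rwa [hl]
    · simpa using hn l hl 0
  intro hw
  by_cases hj : j = 0
  · obtain ⟨c, hc⟩ := init_dep (hne j) hw
    subst hj; exact hn i hij c hc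
  by_cases hi : i = 0
  · obtain ⟨c, hc⟩ := init_dep (hne i) (by rw [← wronskian_neg_eq, hw, neg_zero])
    subst hi; exact hn j hj c hc
  obtain ⟨c, hc⟩ := init_dep (hne j) hw
  obtain ⟨l, hl, e⟩ : ∃ l, l ≠ 0 ∧ Y l ^ 6 + Y 0 ^ 6 + (Y i ^ 6 + Y j ^ 6) = 0 := by
    rw [Fin.sum_univ_four] at hs
    clear hc hw
    fin_cases i <;> fin_cases j <;> simp only [ne_eq, not_true_eq_false] at hi hj hij <;>
      first
      | exact absurd rfl hi
      | exact absurd rfl hj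
      | exact ⟨1, by decide, by simp only [Fin.reduceFinMk]; linear_combination hs⟩
      | exact ⟨2, by decide, by simp only [Fin.reduceFinMk]; linear_combination hs⟩
      | exact ⟨3, by decide, by simp only [Fin.reduceFinMk]; linear_combination hs⟩
  obtain ⟨c', hc'⟩ := init_three (u := c ^ 6 + 1) (hne l) h0 (hne j) (by
    rw [hc] at e; rw [C_add, C_pow, C_1]; linear_combination e)
  exact hn l hl c' hc'

theorem init_scale (A : ValuationSubring ℂ) {D : ℕ} {Y : Fin 4 → ℂ[X]}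
    (hd : ∀ i, (Y i).natDegree ≤ D) (hf : ∃ i, (Y i).coeff D ≠ 0) :
    ∃ (κ t : ℂ) (x : Fin 4 → A[X]), κ ≠ 0 ∧ t ≠ 0 ∧
      (∀ i, (x i).map (algebraMap A ℂ) = C κ * (Y i).comp (C t * X)) ∧ ∃ i, (x i).coeff D = 1 := by
  obtain ⟨i0, hi0⟩ := Finite.exists_max fun i => A.valuation ((Y i).coeff D)
  obtain ⟨i1, hi1⟩ := hf
  have hl : (Y i0).coeff D ≠ 0 := fun h => hi1 (by
    have := hi0 i1
    rwa [h, map_zero, le_zero_iff, map_eq_zero] at this)
  obtain ⟨⟨s, hs⟩, hs'⟩ := IsLocalization.exist_integer_multiples_of_finite (nonZeroDivisors A)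
    fun q : Fin 4 × Fin D => (Y q.1).coeff q.2 / (Y i0).coeff D
  have hs0 : (s : ℂ) ≠ 0 := fun h => nonZeroDivisors.ne_zero hs (Subtype.ext h)
  have hc : ∀ i m, (C ((s : ℂ) ^ D / (Y i0).coeff D) * (Y i).comp (C (s : ℂ)⁻¹ * X)).coeff m =
      (s : ℂ) ^ D / (Y i0).coeff D * ((Y i).coeff m * ((s : ℂ) ^ m)⁻¹) := fun i m => by
    rw [coeff_C_mul, comp_C_mul_X_coeff, inv_pow]
  have hx : ∀ i, ∃ x : A[X], x.map (algebraMap A ℂ) =
      C ((s : ℂ) ^ D / (Y i0).coeff D) * (Y i).comp (C (s : ℂ)⁻¹ * X) := fun i => by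
    refine (mem_lifts _).1 ((lifts_iff_coeff_lifts _).2 fun m => ?_)
    rw [hc]
    rcases lt_trichotomy m D with h | rfl | h
    · obtain ⟨a, ha⟩ := hs' (i, ⟨m, h⟩)
      obtain ⟨n, rfl⟩ := Nat.exists_eq_add_of_lt h
      refine ⟨s ^ n * a, ?_⟩
      rw [map_mul, map_pow, ha, Algebra.smul_def]
      change (s : ℂ) ^ n * ((s : ℂ) * _) = _
      field_simp
      ring
    · obtain ⟨a, ha⟩ := (A.valuation_le_iff _ _).1 (hi0 i)
      refine ⟨a, ?_⟩
      rw [← ha]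
      change (a : ℂ) = _
      field_simp
    · rw [coeff_eq_zero_of_natDegree_lt ((hd i).trans_lt h), zero_mul, mul_zero]
      exact ⟨0, map_zero _⟩
  choose x hx using hx
  refine ⟨_, _, x, div_ne_zero (pow_ne_zero _ hs0) hl, inv_ne_zero hs0, hx, i0, ?_⟩
  apply IsFractionRing.injective A ℂ
  rw [← coeff_map, hx, hc, map_one]
  field_simp

/-- normalisation of a complex solution -/
theorem exists_sol (A : ValuationSubring ℂ) {f : Fin 4 → ℂ[X]} (hd : ∀ i, (f i).natDegree ≤ 5)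
    (h0 : f 0 ≠ 0) (hs : f 1 ^ 6 + f 2 ^ 6 + f 3 ^ 6 = f 0 ^ 6)
    (hn : ∀ j, j ≠ 0 → ∀ c : ℂ, f j ≠ C c * f 0) :
    ∃ (D : ℕ) (x : Fin 4 → A[X]), D ≤ 5 ∧ 0 < D ∧ Sol D x ∧ ∃ i, (bar (x i)).coeff D ≠ 0 := by
  obtain ⟨ζ, hζ⟩ := IsAlgClosed.exists_pow_nat_eq (-1 : ℂ) (n := 6) (by norm_num)
  have hζ0 : ζ ≠ 0 := fun h => by simp [h] at hζ
  have hF0 : C ζ * f 0 ≠ 0 := mul_ne_zero (C_ne_zero.2 hζ0) h0
  obtain ⟨h, Y, hh, hY, hc⟩ := exists_gcd_tuple (F := Function.update f 0 (C ζ * f 0))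
    ⟨0, by simpa using hF0⟩
  have e0 : C ζ * f 0 = h * Y 0 := by simpa using hY 0
  have ej : ∀ j, j ≠ 0 → f j = h * Y j := fun j hj => by
    rw [← hY j, Function.update_of_ne hj]
  have hY0 : Y 0 ≠ 0 := right_ne_zero_of_mul (e0 ▸ hF0)
  have hsum : ∑ i, Y i ^ 6 = 0 := by
    refine mul_left_cancel₀ (pow_ne_zero 6 hh) ?_
    have e1 : (h * Y 0) ^ 6 = -f 0 ^ 6 := by
      rw [← e0, mul_pow, ← C_pow, hζ, C_neg, C_1, neg_one_mul]
    rw [ej 1 (by decide), ej 2 (by decide), ej 3 (by decide)] at hs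
    rw [Fin.sum_univ_four]
    linear_combination e1 + hs
  have hYn : ∀ j, j ≠ 0 → ∀ c : ℂ, Y j ≠ C c * Y 0 := fun j hj c e =>
    hn j hj (c * ζ) (by rw [ej j hj, e, C_mul, mul_assoc, e0]; ring)
  have hW : ∀ i j, i ≠ j → wronskian (Y i) (Y j) ≠ 0 := fun i j => init_ind hsum hY0 hYn
  obtain ⟨i1, hi1⟩ := Finite.exists_max fun i => (Y i).natDegree
  have hne : ∀ l, Y l ≠ 0 := fun l => by
    by_cases hl : l = 0
    · rwa [hl]
    · simpa using hYn l hl 0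
  have hD : (Y i1).natDegree ≤ 5 := by
    have h1 : (h * Y i1).natDegree ≤ 5 := by
      by_cases hl : i1 = 0
      · rw [hl, ← e0]; exact (natDegree_C_mul_le _ _).trans (hd 0)
      · rw [← ej i1 hl]; exact hd i1
    rw [natDegree_mul hh (hne i1)] at h1
    omega
  obtain ⟨κ, t, x, hκ, ht, hx, i0, hi0⟩ := init_scale A hi1
    ⟨i1, leadingCoeff_ne_zero.2 (hne i1)⟩
  have hinj : Function.Injective (algebraMap A ℂ) := IsFractionRing.injective A ℂ
  have hb : (bar (x i0)).coeff (Y i1).natDegree ≠ 0 := by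
    rw [coeff_bar, hi0, res, map_one]; exact one_ne_zero
  refine ⟨_, x, hD, ?_, ⟨fun i => ?_, ⟨i0, by rw [hi0]; exact one_ne_zero⟩, ?_, fun i j hij hw => ?_,
    fun τ => ?_, ⟨i0, fun e => hb (by rw [e, coeff_zero])⟩⟩, i0, hb⟩
  · have := natDegree_wronskian_lt_add (hW 0 1 (by decide))
    have h1 := hi1 0
    have h2 := hi1 1
    omega
  · rw [← natDegree_map_eq_of_injective hinj, hx]
    refine (natDegree_C_mul_le _ _).trans (natDegree_comp_le.trans ?_)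
    rw [natDegree_C_mul_X t ht, mul_one]
    exact hi1 i
  · apply map_injective _ hinj
    have := congrArg (fun p : ℂ[X] => C κ ^ 6 * p.comp (C t * X)) hsum
    simp only [Fin.sum_univ_four, add_comp, pow_comp, zero_comp, mul_zero] at this
    simp only [Fin.sum_univ_four, Polynomial.map_add, Polynomial.map_pow, hx, Polynomial.map_zero]
    linear_combination this
  · have e : (wronskian (x i) (x j)).map (algebraMap A ℂ) =
        C (κ ^ 2 * t) * (wronskian (Y i) (Y j)).comp (C t * X) := by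
      simp only [wronskian, Polynomial.map_sub, Polynomial.map_mul, ← derivative_map, hx,
        derivative_mul, derivative_C, derivative_comp, derivative_X, sub_comp, mul_comp, C_mul,
        C_pow]
      ring
    rw [hw, Polynomial.map_zero, eq_comm, mul_eq_zero, C_eq_zero,
      comp_C_mul_X_eq_zero_iff (mem_nonZeroDivisors_of_ne_zero ht)] at e
    exact e.elim (mul_ne_zero (pow_ne_zero 2 hκ) ht) (hW i j hij)
  · obtain ⟨i, hi⟩ := hc (t * τ)
    refine ⟨i, ?_⟩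
    rw [← eval_map_algebraMap, hx, eval_mul, eval_C, eval_comp, eval_mul, eval_C, eval_X]
    exact mul_ne_zero hκ hi

end Pool.Agent.FS
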