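import Pool.Agent.P.MP_57148c_nt.InsS0

open Polynomial

noncomputable section
namespace Pool.Agent.FS

/-- all Wronskians are multiples of the Wronskian of the two free coordinates -/
theorem inss_w {k : Type} [Field k] {a : Fin 4 → k[X]} {j j' : k} (e0 : a 0 = C j * a 1)
    (e2 : a 2 = C j' * a 3) (nc : ∃ p q, wronskian (a p) (a q) ≠ 0) :
    wronskian (a 1) (a 3) ≠ 0 := by
  intro hw
  have key : ∀ p, ∃ u v : k, a p = C u * a 1 + C v * a 3 := by
    intro p
    fin_cases p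
    · exact ⟨j, 0, by simpa using e0⟩
    · exact ⟨1, 0, by simp⟩
    · exact ⟨0, j', by simpa using e2⟩
    · exact ⟨0, 1, by simp⟩
  obtain ⟨p, q, hpq⟩ := nc
  obtain ⟨u, v, hp⟩ := key p
  obtain ⟨u', v', hq⟩ := key q
  apply hpq
  rw [hp, hq]
  unfold wronskian at hw ⊢
  simp only [derivative_add, derivative_mul, derivative_C, zero_mul, zero_add]
  linear_combination (C u * C v' - C v * C u') * hw

/-- two independent polynomials of degree at most one have no common root -/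
theorem inss_noroot {k : Type} [Field k] {f g : k[X]} (hf : f.natDegree ≤ 1)
    (hg : g.natDegree ≤ 1) (hw : wronskian f g ≠ 0) (b : k) (hb : f.eval b = 0) :
    g.eval b ≠ 0 := by
  intro hb'
  have h1 := natDegree_wronskian_le hf hg hw
  have h2 : (wronskian f g).natDegree = 0 := by omega
  have h3 := eq_C_of_natDegree_eq_zero h2
  have h4 : (wronskian f g).eval b = 0 := by
    simp [wronskian, hb, hb']
  rw [h3, eval_C] at h4
  apply hw
  rw [h3, h4, C_0]

/-- degree obstruction -/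
theorem inss_deg {k : Type} [Field k] {f g P Q : k[X]} {u v : k} (hu : u ≠ 0)
    (hc : IsCoprime g f) (dg : g.natDegree = 1) (hP : P ≠ 0) (dP : P.natDegree ≤ 8)
    (h : C u * f ^ 12 * P + C v * g ^ 12 * Q = 0) : False := by
  have h1 : g ^ 12 ∣ f ^ 12 * (C u * P) := ⟨-(C v * Q), by linear_combination h⟩
  have h2 : g ^ 12 ∣ C u * P := (IsCoprime.pow hc).dvd_of_dvd_mul_left h1
  have h3 : C u * P ≠ 0 := mul_ne_zero (C_ne_zero.2 hu) hP
  have h4 := natDegree_le_of_dvd h2 h3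
  rw [natDegree_pow, dg, natDegree_C_mul hu] at h4
  omega

variable {A : ValuationSubring ℂ} [Three A]

omit [Three A] in
theorem inss_q {D : ℕ} (hD : D ≤ 5) {x : Fin 4 → A[X]} (H : Sol D x) {p q : Fin 4} (hpq : p ≠ q)
    {c : A} {w : A[X]} (e : wronskian (x p) (x q) = C c * w) : (bar w).natDegree ≤ 8 := by
  have h0 := H.ind p q hpq
  have h1 := natDegree_wronskian_le (H.deg p) (H.deg q) h0
  have hc : c ≠ 0 := by
    rintro rfl
    apply h0
    rw [e, C_0, zero_mul]
  rw [e, natDegree_C_mul hc] at h1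
  have h2 := natDegree_bar_le w
  omega

/-- the Frobenius of a special line does not occur -/
theorem insep_special {D : ℕ} (hD : D ≤ 5) {x : Fin 4 → A[X]} (H : Sol D x) {h : (kk A)[X]}
    {a : Fin 4 → (kk A)[X]} (hg : Good D x h a) (hs : a 0 ^ 2 + a 1 ^ 2 = 0) : False := by
  obtain ⟨j, j', hj, hj', f0, f2⟩ := exists_line (Good.quad H hg) hs
  have hw : wronskian (a 1) (a 3) ≠ 0 := inss_w f0 f2 hg.nc
  have n1 : a 1 ≠ 0 := by
    intro h0
    apply hw
    rw [h0, wronskian_zero_left]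
  have n3 : a 3 ≠ 0 := by
    intro h0
    apply hw
    rw [h0, wronskian_zero_right]
  have d1 := hg.one 1 n1
  have d3 := hg.one 3 n3
  have hi : (j ^ 3) ^ 2 = -1 := by
    rw [show (j ^ 3) ^ 2 = (j ^ 2) ^ 3 by ring, hj]; ring
  have hi' : (j' ^ 3) ^ 2 = -1 := by
    rw [show (j' ^ 3) ^ 2 = (j' ^ 2) ^ 3 by ring, hj']; ring
  have i0 : j ^ 3 ≠ 0 := by
    intro h0
    rw [h0] at hi
    simp at hi
  have i0' : j' ^ 3 ≠ 0 := by
    intro h0
    rw [h0] at hi'
    simp at hi'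
  have e1 := hg.eq 1
  have e3 := hg.eq 3
  have e0 : bar (x 0) = C (j ^ 3) * bar (x 1) := by
    rw [hg.eq 0, e1, f0, C_pow]; ring
  have e2 : bar (x 2) = C (j' ^ 3) * bar (x 3) := by
    rw [hg.eq 2, e3, f2, C_pow]; ring
  have b1 : bar (x 1) ≠ 0 := by
    rw [e1]; exact mul_ne_zero hg.ne (pow_ne_zero _ n1)
  have b3 : bar (x 3) ≠ 0 := by
    rw [e3]; exact mul_ne_zero hg.ne (pow_ne_zero _ n3)
  have nr := inss_noroot d1.le d3.le hw
  have hc : IsCoprime (a 1) (a 3) := coprime_of_no_root nr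
  have ngen : ¬ Gen x (j ^ 3) (j' ^ 3) := by
    rintro ⟨c, q1, q3, w1, w3, hq, hE⟩
    have g1 := inss_q hD H (by decide) w1
    have g3 := inss_q hD H (by decide) w3
    rw [e1, e3] at hE
    have hE' : C (j ^ 3) * a 1 ^ 12 * bar q1 + C (j' ^ 3) * a 3 ^ 12 * bar q3 = 0 := by
      apply mul_left_cancel₀ (pow_ne_zero 4 hg.ne)
      linear_combination hE
    rcases hq with hq | hq
    · exact inss_deg i0 hc.symm d3 hq g1 hE'
    · exact inss_deg i0' hc d1 hq g3 (by rw [add_comm]; exact hE')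
  rcases levels H hi hi' e0 e2 b1 b3 with hG | hS | hd
  · exact ngen hG
  · exact ngen (shal_insep hD H hg.ne hg.degh e0 e2 e1 e3 d1 d3 hw hS)
  · obtain ⟨b, hb⟩ : ∃ b, (a 1).IsRoot b :=
      IsAlgClosed.exists_root (a 1) (by
        rw [degree_eq_natDegree n1, d1]; decide)
    have hb1 : (a 1).eval b = 0 := hb
    have hb3 := nr b hb1
    have hr := (deep_root hD H i0 i0' hd hg.ne e1 e3 (pow_ne_zero _ n1) (b := b)
      (by rw [eval_pow, hb1]; simp) (by rw [eval_pow]; exact pow_ne_zero _ hb3)).1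
    have h3 : 3 ≤ rootMultiplicity b (a 1 ^ 3) :=
      (le_rootMultiplicity_iff (pow_ne_zero _ n1)).2 (pow_dvd_pow_of_dvd (dvd_iff_isRoot.2 hb) 3)
    omega

end Pool.Agent.FS
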