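import Pool.Agent.P.MP_57148c_nt.Hasse
import Pool.Agent.P.MP_57148c_nt.Root

open Polynomial

noncomputable section
namespace Pool.Agent.FS

theorem mob_rm_le {k : Type} [Field k] {f : k[X]} (hf : f ≠ 0) (b : k) :
    rootMultiplicity b f ≤ f.natDegree := by
  have := natDegree_le_of_dvd (pow_rootMultiplicity_dvd f b) hf
  rwa [natDegree_pow, natDegree_X_sub_C, mul_one] at this

theorem mob_rm_pow {k : Type} [Field k] {f : k[X]} (hf : f ≠ 0) (b : k) (n : ℕ) :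
    rootMultiplicity b (f ^ n) = n * rootMultiplicity b f := by
  induction n with
  | zero => rw [pow_zero, ← C_1, rootMultiplicity_C, zero_mul]
  | succ n ih =>
    rw [pow_succ, rootMultiplicity_mul (mul_ne_zero (pow_ne_zero _ hf) hf), ih, add_mul, one_mul]

theorem mob_eval_ne {k : Type} [Field k] {f g : k[X]} (hc : IsCoprime f g) {b : k}
    (hg : g.eval b = 0) : f.eval b ≠ 0 := by
  obtain ⟨u, v, e⟩ := hc
  intro hf
  have := congrArg (eval b) e
  rw [eval_add, eval_mul, eval_mul, hf, hg, eval_one, mul_zero, mul_zero, add_zero] at this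
  exact zero_ne_one this

/-- a quotient with zero derivative of degree at most 5 is the cube of a Moebius map -/
theorem mob_one {k : Type} [Field k] [IsAlgClosed k] [CharP k 3] {α y : k[X]} (hα : α ≠ 0)
    (hy : y ≠ 0) (hw : wronskian α y = 0) (h1 : α.natDegree ≤ 5) (h2 : y.natDegree ≤ 5) :
    ∃ G A₁ A₂ : k[X], α = G * A₁ ^ 3 ∧ y = G * A₂ ^ 3 ∧ IsCoprime A₁ A₂ ∧
      A₁.natDegree ≤ 1 ∧ A₂.natDegree ≤ 1 := by
  classical
  obtain ⟨U, V, hU, hV, hu⟩ := extract_gcd α y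
  generalize gcd α y = g at hU hV
  have hc : IsCoprime U V := (gcd_isUnit_iff U V).1 hu
  have hg : g ≠ 0 := left_ne_zero_of_mul (hU ▸ hα)
  have hw' : wronskian U V = 0 := by
    have e : wronskian α y = g ^ 2 * wronskian U V := by
      rw [hU, hV]
      simp only [wronskian, derivative_mul]
      ring
    rw [e] at hw
    exact (mul_eq_zero.1 hw).resolve_left (pow_ne_zero _ hg)
  obtain ⟨dU, dV⟩ := hc.wronskian_eq_zero_iff.1 hw'
  obtain ⟨A₁, rfl⟩ := exists_cube dU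
  obtain ⟨A₂, rfl⟩ := exists_cube dV
  refine ⟨g, A₁, A₂, hU, hV, (IsCoprime.pow_iff (by norm_num) (by norm_num)).1 hc, ?_, ?_⟩
  · have := natDegree_le_of_dvd (Dvd.intro_left g hU.symm) hα
    rw [natDegree_pow] at this
    omega
  · have := natDegree_le_of_dvd (Dvd.intro_left g hV.symm) hy
    rw [natDegree_pow] at this
    omega

theorem mob_rm {k : Type} [Field k] [IsAlgClosed k] [CharP k 3] {B₁ B₂ : k[X]} {ν : k}
    (hc : IsCoprime B₁ B₂) (h1 : B₁.natDegree ≤ 1) (h2 : B₂.natDegree ≤ 1) (hB : B₂ ≠ 0)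
    (hF : B₁ * (B₂ ^ 2 - C ν * B₁ ^ 2) ≠ 0) (b : k) :
    rootMultiplicity b (B₁ * (B₂ ^ 2 - C ν * B₁ ^ 2)) ≤ 1 + 3 * rootMultiplicity b B₂ := by
  obtain ⟨r, rfl⟩ := IsAlgClosed.exists_pow_nat_eq ν (two_pos)
  have e : B₂ ^ 2 - C (r ^ 2) * B₁ ^ 2 = (B₂ - C r * B₁) * (B₂ + C r * B₁) := by
    rw [C_pow]
    ring
  rw [e] at hF ⊢
  have hP := right_ne_zero_of_mul hF
  have d1 : (B₂ - C r * B₁).natDegree ≤ 1 :=
    (natDegree_sub_le _ _).trans (max_le h2 ((natDegree_C_mul_le _ _).trans h1))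
  have d2 : (B₂ + C r * B₁).natDegree ≤ 1 :=
    (natDegree_add_le _ _).trans (max_le h2 ((natDegree_C_mul_le _ _).trans h1))
  have r0 := (mob_rm_le (left_ne_zero_of_mul hF) b).trans h1
  have r1 := (mob_rm_le (left_ne_zero_of_mul hP) b).trans d1
  have r2 := (mob_rm_le (right_ne_zero_of_mul hP) b).trans d2
  rw [rootMultiplicity_mul hF, rootMultiplicity_mul hP]
  by_cases hb : B₂.eval b = 0
  · have := (rootMultiplicity_pos hB).2 hb
    omega
  · by_cases hb1 : B₁.eval b = 0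
    · have z1 : rootMultiplicity b (B₂ - C r * B₁) = 0 := rootMultiplicity_eq_zero (by
        rwa [IsRoot.def, eval_sub, eval_mul, hb1, mul_zero, sub_zero])
      have z2 : rootMultiplicity b (B₂ + C r * B₁) = 0 := rootMultiplicity_eq_zero (by
        rwa [IsRoot.def, eval_add, eval_mul, hb1, mul_zero, add_zero])
      omega
    · have z0 : rootMultiplicity b B₁ = 0 := rootMultiplicity_eq_zero hb1
      by_cases hm : (B₂ - C r * B₁).eval b = 0
      · have z2 : rootMultiplicity b (B₂ + C r * B₁) = 0 := by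
          refine rootMultiplicity_eq_zero fun hp => hb ?_
          rw [IsRoot.def, eval_add] at hp
          rw [eval_sub] at hm
          linear_combination B₂.eval b * (three_eq_zero' (k := k)) - hp - hm
        omega
      · have z1 : rootMultiplicity b (B₂ - C r * B₁) = 0 := rootMultiplicity_eq_zero hm
        omega

theorem mob_bracket {k : Type} [Field k] [CharP k 3] (G A₁ A₂ : k[X]) (n : k) :
    G * A₁ ^ 3 * ((G * A₂ ^ 3) ^ 2 - C (n ^ 3) * (G * A₁ ^ 3) ^ 2) =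
      G ^ 3 * (A₁ * (A₂ ^ 2 - C n * A₁ ^ 2)) ^ 3 := by
  rw [mul_pow A₁, sub_pow_char, C_pow]
  ring

theorem mob_wr {k : Type} [Field k] {A₁ A₂ : k[X]} (hc : IsCoprime A₁ A₂) (h2 : A₂.natDegree ≤ 1)
    (hA : A₂ ≠ 0) {b : k} (hb : A₂.eval b = 0) : (wronskian A₂ A₁).eval b ≠ 0 := by
  have h1 := mob_eval_ne hc hb
  rw [wronskian, eval_sub, eval_mul, eval_mul, hb, zero_mul, zero_sub, neg_ne_zero]
  refine mul_ne_zero ?_ h1
  obtain ⟨u, v, rfl⟩ := exists_eq_X_add_C_of_natDegree_le_one h2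
  intro h
  simp only [derivative_add, derivative_C_mul_X, derivative_C, add_zero, eval_C] at h
  subst h
  simp only [map_zero, zero_mul, zero_add, eval_C] at hb
  subst hb
  simp at hA

variable {A : ValuationSubring ℂ} [Three A]

/-- the deep case at a zero of `X₁` -/
theorem deep_root {D : ℕ} (hD : D ≤ 5) {x : Fin 4 → A[X]} (H : Sol D x) {i i' : kk A}
    (hi : i ≠ 0) (hi' : i' ≠ 0) (hd : Deep D x i i') {h X₁ X₃ : (kk A)[X]} (hh : h ≠ 0)
    (e1 : bar (x 1) = h * X₁) (e3 : bar (x 3) = h * X₃) (h1 : X₁ ≠ 0) {b : kk A}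
    (hb : X₁.eval b = 0) (hb3 : X₃.eval b ≠ 0) :
    rootMultiplicity b X₁ ≤ 2 ∧ 0 < rootMultiplicity b h ∧
      rootMultiplicity b (nred (wronskian (x 0) (x 1))) ≤ 2 * rootMultiplicity b h := by
  obtain ⟨ρ, m1, m3, p1, p3, ν, hρ, w01, -, w1, w3, d1, d3, eq, n1, n3⟩ := hd
  have h3 : X₃ ≠ 0 := fun e => hb3 (by rw [e, eval_zero])
  have hy : bar (x 1) ≠ 0 := e1 ▸ mul_ne_zero hh h1
  have hz : bar (x 3) ≠ 0 := e3 ▸ mul_ne_zero hh h3
  have wz : ∀ {f g p : A[X]}, wronskian f g = 3 * p → wronskian (bar f) (bar g) = 0 := by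
    intro f g p e
    rw [← bar_wronskian, e, bar_mul, bar_ofNat, three_eq_zero, zero_mul]
  obtain ⟨G, A₁, A₂, a1, a2, ac, da1, da2⟩ := mob_one (left_ne_zero_of_mul n1) hy (wz w1)
    ((natDegree_bar_le _).trans (d1.trans hD)) ((natDegree_bar_le _).trans ((H.deg 1).trans hD))
  obtain ⟨G', B₁, B₂, b1, b2, bc, db1, db2⟩ := mob_one (left_ne_zero_of_mul n3) hz (wz w3)
    ((natDegree_bar_le _).trans (d3.trans hD)) ((natDegree_bar_le _).trans ((H.deg 3).trans hD))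
  obtain ⟨n, rfl⟩ := IsAlgClosed.exists_pow_nat_eq ν (three_pos)
  have eA : bar m1 * (bar (x 1) ^ 2 - C (n ^ 3) * bar m1 ^ 2) =
      G ^ 3 * (A₁ * (A₂ ^ 2 - C n * A₁ ^ 2)) ^ 3 := by rw [a1, a2, mob_bracket]
  have eB : bar m3 * (bar (x 3) ^ 2 - C (n ^ 3) * bar m3 ^ 2) =
      G' ^ 3 * (B₁ * (B₂ ^ 2 - C n * B₁ ^ 2)) ^ 3 := by rw [b1, b2, mob_bracket]
  rw [eA] at n1
  rw [eB] at n3
  rw [eA, eB] at eq
  have hG : G ≠ 0 := left_ne_zero_of_mul (a2 ▸ hy)
  have hG' : G' ≠ 0 := left_ne_zero_of_mul (b2 ▸ hz)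
  have hA2 : A₂ ≠ 0 := ne_zero_pow three_ne_zero (right_ne_zero_of_mul (a2 ▸ hy))
  have hB2 : B₂ ≠ 0 := ne_zero_pow three_ne_zero (right_ne_zero_of_mul (b2 ▸ hz))
  have hFA : A₁ * (A₂ ^ 2 - C n * A₁ ^ 2) ≠ 0 := ne_zero_pow three_ne_zero (right_ne_zero_of_mul n1)
  have hFB : B₁ * (B₂ ^ 2 - C n * B₁ ^ 2) ≠ 0 := ne_zero_pow three_ne_zero (right_ne_zero_of_mul n3)
  have rB := mob_rm bc db1 db2 hB2 hFB b
  generalize A₁ * (A₂ ^ 2 - C n * A₁ ^ 2) = FA at eq n1 hFA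
  generalize B₁ * (B₂ ^ 2 - C n * B₁ ^ 2) = FB at eq n3 hFB rB
  have eq' : C i * bar (x 1) ^ 3 * (G ^ 3 * FA ^ 3) =
      C (-i') * bar (x 3) ^ 3 * (G' ^ 3 * FB ^ 3) := by
    rw [C_neg]
    linear_combination eq
  have rm := congrArg (rootMultiplicity b) eq'
  have c1 : C i * bar (x 1) ^ 3 ≠ 0 := mul_ne_zero (C_ne_zero.2 hi) (pow_ne_zero _ hy)
  have c3 : C (-i') * bar (x 3) ^ 3 ≠ 0 :=
    mul_ne_zero (C_ne_zero.2 (neg_ne_zero.2 hi')) (pow_ne_zero _ hz)
  rw [rootMultiplicity_mul (mul_ne_zero c1 n1), rootMultiplicity_mul (mul_ne_zero c3 n3),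
    rootMultiplicity_mul c1, rootMultiplicity_mul c3, rootMultiplicity_mul n1,
    rootMultiplicity_mul n3, rootMultiplicity_C, rootMultiplicity_C, mob_rm_pow hy, mob_rm_pow hz,
    mob_rm_pow hG, mob_rm_pow hG', mob_rm_pow hFA, mob_rm_pow hFB] at rm
  have y1 : rootMultiplicity b (bar (x 1)) = rootMultiplicity b h + rootMultiplicity b X₁ := by
    rw [e1, rootMultiplicity_mul (mul_ne_zero hh h1)]
  have y2 : rootMultiplicity b (bar (x 1)) = rootMultiplicity b G + 3 * rootMultiplicity b A₂ := by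
    rw [a2, rootMultiplicity_mul (a2 ▸ hy), mob_rm_pow hA2]
  have z1 : rootMultiplicity b (bar (x 3)) = rootMultiplicity b h := by
    rw [e3, rootMultiplicity_mul (mul_ne_zero hh h3), rootMultiplicity_eq_zero hb3, add_zero]
  have z2 : rootMultiplicity b (bar (x 3)) = rootMultiplicity b G' + 3 * rootMultiplicity b B₂ := by
    rw [b2, rootMultiplicity_mul (b2 ▸ hz), mob_rm_pow hB2]
  have he : 0 < rootMultiplicity b X₁ := (rootMultiplicity_pos h1).2 hb
  have ra := (mob_rm_le hA2 b).trans da2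
  have ra1 : rootMultiplicity b A₂ = 1 := by omega
  have hA2b : A₂.eval b = 0 := (rootMultiplicity_pos hA2).1 (by omega)
  have hW := mob_wr ac da2 hA2 hA2b
  have hW0 : wronskian A₂ A₁ ≠ 0 := fun e => hW (by rw [e, eval_zero])
  obtain ⟨Z, hZ, bZ⟩ := hasse a2 a1
  have t3 : (3 : A) ≠ 0 := fun e => by
    have e' : ((3 : A) : ℂ) = ((0 : A) : ℂ) := congrArg Subtype.val e
    exact three_ne_zero (α := ℂ) e'
  have t3' : (3 : A[X]) ≠ 0 := fun e => t3 (C_eq_zero.1 ((map_ofNat C 3).trans e))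
  have hZ' : derivative (derivative (x 1 * p1)) = Z := by
    refine mul_left_cancel₀ t3' ?_
    rw [← hZ, w1, mul_left_comm]
    simp only [derivative_mul, derivative_ofNat, zero_mul, zero_add]
  have bZ' : derivative (derivative (bar (x 1) * bar p1)) =
      G ^ 3 * A₂ ^ 3 * wronskian A₂ A₁ ^ 3 := by
    rw [← bZ, ← hZ', bar_derivative, bar_derivative, bar_mul]
  have g1 : G ^ 3 * A₂ ^ 3 ≠ 0 := mul_ne_zero (pow_ne_zero _ hG) (pow_ne_zero _ hA2)
  have g2 : G ^ 3 * A₂ ^ 3 * wronskian A₂ A₁ ^ 3 ≠ 0 := mul_ne_zero g1 (pow_ne_zero _ hW0)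
  have hp : bar p1 ≠ 0 := by
    intro e
    rw [e, mul_zero, derivative_zero, derivative_zero] at bZ'
    exact g2 bZ'.symm
  have rz := rm_le_rm_dd (bZ' ▸ g2) b
  rw [bZ', rootMultiplicity_mul (mul_ne_zero hy hp), rootMultiplicity_mul g2,
    rootMultiplicity_mul g1, mob_rm_pow hG, mob_rm_pow hA2, mob_rm_pow hW0,
    rootMultiplicity_eq_zero hW] at rz
  rw [rm_nred w01 (mul_ne_zero t3 hρ) hp]
  omega

end Pool.Agent.FS
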