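import Pool.Agent.P.MP_57148c_nt.LevB
import Pool.Agent.P.MP_57148c_nt.Mob

open Polynomial

noncomputable section
namespace Pool.Agent.FS

section pure
variable {k : Type} [Field k] [IsAlgClosed k] [CharP k 3]

omit [CharP k 3] in
theorem inss0_cop {a₁ a₃ : k[X]} (d1 : a₁.natDegree = 1) (d3 : a₃.natDegree = 1)
    (hw : wronskian a₁ a₃ ≠ 0) : IsCoprime a₁ a₃ := by
  refine coprime_of_no_root fun b h1 h3 => hw ?_
  have hd := natDegree_wronskian_le (n := 1) d1.le d3.le hw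
  have h0 : (wronskian a₁ a₃).eval b = 0 := by simp [wronskian, h1, h3]
  rw [eq_C_of_natDegree_eq_zero (show (wronskian a₁ a₃).natDegree = 0 by omega)] at h0 ⊢
  rw [eval_C] at h0
  rw [h0, C_0]

theorem inss0_sigma {i i' : k} (hi : i ≠ 0) (hi' : i' ≠ 0) {h a₁ a₃ α β : k[X]} (hh : h ≠ 0)
    (dh : h.natDegree ≤ 2) (d1 : a₁.natDegree = 1) (d3 : a₃.natDegree = 1)
    (hc : IsCoprime a₁ a₃) (dα : α.natDegree ≤ h.natDegree + 3) (hm : α ≠ 0 ∨ β ≠ 0)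
    (heq : C i * (h * a₁ ^ 3) * α + C i' * (h * a₃ ^ 3) * β = 0)
    (hw : wronskian α (h * a₁ ^ 3) = 0) :
    ∃ s : k, s ≠ 0 ∧ α = C s * h * a₃ ^ 3 ∧ C i' * β = -(C i * C s * h * a₁ ^ 3) := by
  have h1 : a₁ ≠ 0 := by rintro rfl; simp at d1
  have h3 : a₃ ≠ 0 := by rintro rfl; simp at d3
  have e1 : C i * a₁ ^ 3 * α = -(C i' * a₃ ^ 3 * β) := by
    apply mul_left_cancel₀ hh
    linear_combination heq
  have hdv : a₃ ^ 3 ∣ α := by
    have h4 : a₃ ^ 3 ∣ a₁ ^ 3 * (C i * α) := ⟨-(C i' * β), by linear_combination e1⟩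
    have h5 := (hc.symm.pow (m := 3) (n := 3)).dvd_of_dvd_mul_left h4
    exact ((isUnit_C.2 hi.isUnit).dvd_mul_left).1 h5
  obtain ⟨σ, rfl⟩ := hdv
  have e2 : C i' * β = -(C i * a₁ ^ 3 * σ) := by
    apply mul_left_cancel₀ (pow_ne_zero 3 h3)
    linear_combination e1
  have hσ : σ ≠ 0 := by
    rintro rfl
    rcases hm with hm | hm
    · simp at hm
    · apply hm
      have : C i' * β = 0 := by rw [e2]; simp
      exact (mul_eq_zero.1 this).resolve_left (C_ne_zero.2 hi')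
  have dσ : σ.natDegree ≤ 2 := by
    rw [natDegree_mul (pow_ne_zero 3 h3) hσ, natDegree_pow, d3] at dα
    omega
  have hw' : wronskian σ h = 0 := by
    apply mul_left_cancel₀ (mul_ne_zero (pow_ne_zero 3 h1) (pow_ne_zero 3 h3))
    rw [wronskian, mul_comm h, derivative_cube_mul, derivative_cube_mul] at hw
    rw [wronskian]
    linear_combination hw
  obtain ⟨G, A₁, A₂, eσ, eh, -, -, -⟩ := mob_one hσ hh hw' (by omega) (by omega)
  have hG : G ≠ 0 := by rintro rfl; simp at eh; exact hh eh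
  have hA1 : A₁ ≠ 0 := by rintro rfl; simp at eσ; exact hσ eσ
  have hA2 : A₂ ≠ 0 := by rintro rfl; simp at eh; exact hh eh
  have dA1 : A₁.natDegree = 0 := by
    rw [eσ, natDegree_mul hG (pow_ne_zero 3 hA1), natDegree_pow] at dσ
    omega
  have dA2 : A₂.natDegree = 0 := by
    rw [eh, natDegree_mul hG (pow_ne_zero 3 hA2), natDegree_pow] at dh
    omega
  obtain ⟨u, rfl⟩ := natDegree_eq_zero.1 dA1
  obtain ⟨v, rfl⟩ := natDegree_eq_zero.1 dA2
  have hu : u ≠ 0 := C_ne_zero.1 hA1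
  have hv : v ≠ 0 := C_ne_zero.1 hA2
  have es : σ = C (u ^ 3 / v ^ 3) * h := by
    rw [eσ, eh, ← C_pow, ← C_pow, mul_left_comm, ← C_mul, div_mul_cancel₀ _ (pow_ne_zero 3 hv)]
  refine ⟨u ^ 3 / v ^ 3, div_ne_zero (pow_ne_zero 3 hu) (pow_ne_zero 3 hv), ?_, ?_⟩
  · rw [es]; ring
  · rw [e2, es]; ring

omit [IsAlgClosed k] in
theorem inss0_dq (a b : k[X]) : derivative (a * b * (a ^ 4 - b ^ 4)) =
    (a ^ 4 + b ^ 4) * wronskian a b := by
  simp only [wronskian, derivative_mul, derivative_sub, derivative_pow, Nat.cast_ofNat, map_ofNat]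
  linear_combination (2 * a ^ 4 * b * derivative a - 2 * a * b ^ 4 * derivative b) *
    (three_eq_zero (k := k))

omit [IsAlgClosed k] [CharP k 3] in
theorem inss0_final {h a₁ a₃ Q R : k[X]} {u : k} (hu : u ≠ 0) (hh : h ≠ 0)
    (dh : h.natDegree ≤ 2) (d1 : a₁.natDegree = 1) (d3 : a₃.natDegree = 1)
    (hc : IsCoprime a₁ a₃) (hR : IsUnit R) (q1 : a₁ ^ 3 ∣ Q) (q3 : a₃ ^ 3 ∣ Q)
    (e : C u * Q = R * (h ^ 2 * (a₁ ^ 4 + a₃ ^ 4))) : False := by
  have c1 : IsCoprime (a₁ ^ 3) (a₁ ^ 4 + a₃ ^ 4) := by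
    apply IsCoprime.pow_left
    have : a₁ ^ 4 + a₃ ^ 4 = a₃ ^ 4 + a₁ * a₁ ^ 3 := by ring
    rw [this]
    exact (hc.pow_right).add_mul_left_right _
  have c3 : IsCoprime (a₃ ^ 3) (a₁ ^ 4 + a₃ ^ 4) := by
    apply IsCoprime.pow_left
    have : a₁ ^ 4 + a₃ ^ 4 = a₁ ^ 4 + a₃ * a₃ ^ 3 := by ring
    rw [this]
    exact (hc.symm.pow_right).add_mul_left_right _
  have t1 : a₁ ^ 3 ∣ h ^ 2 :=
    c1.dvd_of_dvd_mul_right (hR.dvd_mul_left.1 (e ▸ q1.mul_left _))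
  have t3 : a₃ ^ 3 ∣ h ^ 2 :=
    c3.dvd_of_dvd_mul_right (hR.dvd_mul_left.1 (e ▸ q3.mul_left _))
  have t := natDegree_le_of_dvd ((hc.pow (m := 3) (n := 3)).mul_dvd t1 t3) (pow_ne_zero 2 hh)
  have h1 : a₁ ≠ 0 := by rintro rfl; simp at d1
  have h3 : a₃ ≠ 0 := by rintro rfl; simp at d3
  rw [natDegree_mul (pow_ne_zero 3 h1) (pow_ne_zero 3 h3), natDegree_pow, natDegree_pow,
    natDegree_pow, d1, d3] at t
  omega

end pure

variable {A : ValuationSubring ℂ} [Three A]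

/-- the shallow case on the Frobenius of a special line -/
theorem shal_insep {D : ℕ} (hD : D ≤ 5) {x : Fin 4 → A[X]} (H : Sol D x) {i i' : kk A}
    {h a₁ a₃ : (kk A)[X]} (hh : h ≠ 0) (hdeg : h.natDegree + 3 = D)
    (e0 : bar (x 0) = C i * bar (x 1)) (e2 : bar (x 2) = C i' * bar (x 3))
    (e1 : bar (x 1) = h * a₁ ^ 3) (e3 : bar (x 3) = h * a₃ ^ 3)
    (d1 : a₁.natDegree = 1) (d3 : a₃.natDegree = 1) (hw : wronskian a₁ a₃ ≠ 0)
    (hs : Shal x i i') : Gen x i i' := by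
  obtain ⟨I, I', ρ, μ, m1, m3, hI, hI', rI, rI', hρ, hρ0, hμ0, h3, x0, x2, hm, heq, w1, -⟩ := hs
  have hi : i ^ 2 = -1 := by rw [← rI, ← map_pow, hI, map_neg, map_one]
  have hi' : i' ^ 2 = -1 := by rw [← rI', ← map_pow, hI', map_neg, map_one]
  have i0 : i ≠ 0 := by rintro rfl; simp at hi
  have i0' : i' ≠ 0 := by rintro rfl; simp at hi'
  have n1 : a₁ ≠ 0 := by rintro rfl; simp at d1
  have n3 : a₃ ≠ 0 := by rintro rfl; simp at d3
  have b1 : bar (x 1) ≠ 0 := by rw [e1]; exact mul_ne_zero hh (pow_ne_zero 3 n1)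
  have b3 : bar (x 3) ≠ 0 := by rw [e3]; exact mul_ne_zero hh (pow_ne_zero 3 n3)
  have hc := inss0_cop d1 d3 hw
  have dh : h.natDegree ≤ 2 := by omega
  have t3 : (3 : (kk A)[X]) = 0 := three_eq_zero
  have CI : (C I : A[X]) ^ 2 = -1 := by rw [← C_pow, hI, C_neg, C_1]
  have CI' : (C I' : A[X]) ^ 2 = -1 := by rw [← C_pow, hI', C_neg, C_1]
  have Cρ : (C ρ : A[X]) ≠ 0 := C_ne_zero.2 hρ
  have dm : (bar m1).natDegree ≤ h.natDegree + 3 := by
    refine (natDegree_bar_le _).trans ?_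
    have h1 : C ρ * m1 = x 0 - C I * x 1 := by rw [x0]; ring
    rw [← natDegree_C_mul (p := m1) hρ, h1, hdeg]
    exact (natDegree_sub_le _ _).trans (max_le (H.deg 0)
      ((natDegree_C_mul_le _ _).trans (H.deg 1)))
  obtain ⟨s, hs0, eα, eβ⟩ := inss0_sigma i0 i0' hh dh d1 d3 hc dm hm
    (by rw [← e1, ← e3]; exact heq) (by rw [← e1]; exact w1)
  obtain ⟨c, q1, q3, -, f1, f3, hq⟩ := exists_prim_two
    (f₂ := wronskian (x 2) (x 3)) (Or.inl (H.ind 0 1 (by decide)))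
  obtain ⟨c13, q13, hc13, f13, hq13⟩ := exists_prim_one (H.ind 1 3 (by decide))
  have I6 : I' ^ 6 = -1 := by
    calc I' ^ 6 = (I' ^ 2) ^ 3 := by ring
      _ = -1 := by rw [hI']; norm_num
  obtain ⟨R3, eR3, -⟩ := exp_shal I6 hρ0 hμ0 h3 (x 3) m3
  rw [← x2] at eR3
  rcases level_cases c (ρ ^ 3 * c13) with ⟨m, hm0, em⟩ | ⟨e, ee⟩
  · refine gen_of_small H hi hi' e0 e2 b1 b3 f1 f3 hq (R := C m * R3 * q13) (by simp [hm0]) ?_
    rw [eR3, f13]
    have : (C (ρ ^ 3) : A[X]) * C c13 = C c * C m := by rw [← C_mul, ← C_mul, em]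
    linear_combination R3 * q13 * this
  exfalso
  have Cc : (C c : A[X]) = C ρ ^ 3 * C c13 * C e := by rw [ee, C_mul, C_mul, C_pow]
  have d0 : derivative (x 0) = C I * derivative (x 1) + C ρ * derivative m1 := by
    rw [x0, derivative_add, derivative_C_mul, derivative_C_mul]
  have d2 : derivative (x 2) = C I' * derivative (x 3) + C ρ * derivative m3 := by
    rw [x2, derivative_add, derivative_C_mul, derivative_C_mul]
  have bρ : bar (C ρ) = 0 := by rw [bar_C, hρ0, C_0]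
  -- (a) divisibility of `bar q13`
  have a1 : x 1 * wronskian m1 (x 3) = C c13 * (m1 * q13 + C ρ ^ 2 * C e * x 3 * q1) := by
    apply mul_left_cancel₀ Cρ
    have h1 : x 3 * wronskian (x 0) (x 1) =
        C ρ * (x 1 * wronskian m1 (x 3) - m1 * wronskian (x 1) (x 3)) := by
      simp only [wronskian]; rw [d0]; nth_rewrite 1 [x0]; ring
    rw [f1, f13, Cc] at h1
    linear_combination -h1
  have a3 : x 3 * wronskian (x 1) m3 = C c13 * (m3 * q13 - C ρ ^ 2 * C e * x 1 * q3) := by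
    apply mul_left_cancel₀ Cρ
    have h1 : x 1 * wronskian (x 2) (x 3) =
        C ρ * (m3 * wronskian (x 1) (x 3) - x 3 * wronskian (x 1) m3) := by
      simp only [wronskian]; rw [d2]; nth_rewrite 1 [x2]; ring
    rw [f3, f13, Cc] at h1
    linear_combination h1
  have Cc13 : (C c13 : A[X]) ≠ 0 := C_ne_zero.2 hc13
  have v1 : a₁ ^ 3 ∣ bar q13 := by
    obtain ⟨W, eW⟩ := gauss_dvd b1 a1
    rw [eW, mul_left_comm] at a1
    have h1 := congrArg bar (mul_left_cancel₀ Cc13 a1)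
    simp only [bar_mul, bar_add, bar_pow, bρ] at h1
    rw [e1, eα] at h1
    have h2 : a₁ ^ 3 ∣ a₃ ^ 3 * (C s * bar q13) := ⟨bar W, by
      apply mul_left_cancel₀ hh
      linear_combination -h1⟩
    exact ((isUnit_C.2 hs0.isUnit).dvd_mul_left).1
      ((hc.pow (m := 3) (n := 3)).dvd_of_dvd_mul_left h2)
  have v3 : a₃ ^ 3 ∣ bar q13 := by
    obtain ⟨W, eW⟩ := gauss_dvd b3 a3
    rw [eW, mul_left_comm] at a3
    have h1 := congrArg bar (mul_left_cancel₀ Cc13 a3)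
    simp only [bar_mul, bar_sub, bar_pow, bρ] at h1
    rw [e3] at h1
    have h2 : a₃ ^ 3 ∣ a₁ ^ 3 * (C (i * s) * bar q13) := ⟨-(C i' * bar W), by
      apply mul_left_cancel₀ hh
      rw [C_mul]
      linear_combination C i' * h1 + bar q13 * eβ⟩
    exact ((isUnit_C.2 (mul_ne_zero i0 hs0).isUnit).dvd_mul_left).1
      ((hc.symm.pow (m := 3) (n := 3)).dvd_of_dvd_mul_left h2)
  -- (b) the quadric
  set Y1 : A[X] := m1 * (2 * C I * x 1 + C ρ * m1) with hY1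
  set Y3 : A[X] := m3 * (2 * C I' * x 3 + C ρ * m3) with hY3
  have y1 : x 0 ^ 2 + x 1 ^ 2 = C ρ * Y1 := by
    rw [x0, hY1]; linear_combination x 1 ^ 2 * CI
  have y3 : x 2 ^ 2 + x 3 ^ 2 = C ρ * Y3 := by
    rw [x2, hY3]; linear_combination x 3 ^ 2 * CI'
  have bY1 : bar Y1 = 2 * C i * C s * h ^ 2 * a₁ ^ 3 * a₃ ^ 3 := by
    simp only [hY1, bar_mul, bar_add, bρ, bar_ofNat]
    rw [bar_C, rI, e1, eα]; ring
  have bY3 : bar Y3 = -(2 * C i * C s * h ^ 2 * a₁ ^ 3 * a₃ ^ 3) := by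
    simp only [hY3, bar_mul, bar_add, bρ, bar_ofNat]
    rw [bar_C, rI', e3]
    linear_combination 2 * h * a₃ ^ 3 * eβ
  clear_value Y1 Y3
  set S : A[X] := x 0 ^ 2 + x 1 ^ 2 + (x 2 ^ 2 + x 3 ^ 2) with hS
  set G : A[X] := C ρ * (Y1 * Y3 * S + Y1 ^ 2 * x 1 ^ 2 + Y3 ^ 2 * x 3 ^ 2) - Y1 * x 1 ^ 4 -
    Y3 * x 3 ^ 4 with hG
  have eS : S ^ 3 = C (3 * ρ) * G := by
    have h0 : x 0 ^ 2 = C ρ * Y1 - x 1 ^ 2 := by linear_combination y1
    have h2 : x 2 ^ 2 = C ρ * Y3 - x 3 ^ 2 := by linear_combination y3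
    have h6 := H.sum4
    have h7 : (x 0 ^ 2) ^ 3 + x 1 ^ 6 + (x 2 ^ 2) ^ 3 + x 3 ^ 6 = 0 := by linear_combination h6
    rw [h0, h2] at h7
    rw [hG, hS, y1, y3, C_mul, map_ofNat]
    linear_combination h7
  set q : (kk A)[X] := a₁ * a₃ * (a₁ ^ 4 - a₃ ^ 4) with hqq
  have dq : derivative q = (a₁ ^ 4 + a₃ ^ 4) * wronskian a₁ a₃ := inss0_dq a₁ a₃
  have hsum : a₁ ^ 4 + a₃ ^ 4 ≠ 0 := fun h0 => by
    have h1 : a₁ ∣ a₃ ^ 4 := ⟨-a₁ ^ 3, by linear_combination h0⟩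
    have h2 := (hc.pow_right (n := 4)).isUnit_of_dvd h1
    rw [natDegree_eq_zero_of_isUnit h2] at d1
    omega
  have dq0 : derivative q ≠ 0 := by rw [dq]; exact mul_ne_zero hsum hw
  have q0 : q ≠ 0 := fun h0 => dq0 (by rw [h0, derivative_zero])
  have bG : bar G = C (i * s) * (h ^ 2 * q) ^ 3 := by
    have h1 : q ^ 3 = a₁ ^ 3 * a₃ ^ 3 * (a₁ ^ 12 - a₃ ^ 12) := by
      rw [hqq, mul_pow, mul_pow, sub_pow_char]; ring
    simp only [hG, bar_mul, bar_sub, bar_pow, bρ, bY1, bY3, e1, e3]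
    rw [mul_pow (h ^ 2), h1, C_mul]
    linear_combination (-(C i * C s * h ^ 6 * a₁ ^ 3 * a₃ ^ 3 * (a₁ ^ 12 - a₃ ^ 12))) * t3
  have bG0 : bar G ≠ 0 := by
    rw [bG]
    exact mul_ne_zero (C_ne_zero.2 (mul_ne_zero i0 hs0))
      (pow_ne_zero 3 (mul_ne_zero (pow_ne_zero 2 hh) q0))
  have three0 : (3 * ρ : A) ≠ 0 := by
    refine mul_ne_zero (fun h0 => ?_) hρ
    have := congrArg A.subtype h0
    rw [map_ofNat, map_zero] at this
    norm_num at this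
  have S0 : S ≠ 0 := fun h0 => by
    rw [h0, zero_pow three_ne_zero] at eS
    rcases mul_eq_zero.1 eS.symm with h1 | h1
    · exact three0 (C_eq_zero.1 h1)
    · exact bG0 (by rw [h1, bar_zero])
  obtain ⟨cS, S1, hcS, eS1, bS1⟩ := exists_prim_one S0
  obtain ⟨ε, -, bS⟩ := dvd_of_C_mul_eq (c₁ := 3 * ρ) (c₂ := cS ^ 3) (f₁ := G) (f₂ := S1 ^ 3)
    (by rw [← eS, eS1, mul_pow, C_pow]) bG0 (pow_ne_zero 3 hcS)
  obtain ⟨u, hu⟩ := IsAlgClosed.exists_pow_nat_eq (res ε * (i * s)) (show 0 < 3 by norm_num)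
  have bS' : bar S1 = C u * (h ^ 2 * q) := by
    apply cube_inj
    rw [← bar_pow, bS, bG, mul_pow (C u), ← C_pow, hu, C_mul (a := res ε), mul_assoc]
  have u0 : u ≠ 0 := by rintro rfl; apply bS1; rw [bS', C_0, zero_mul]
  set V : A[X] := x 3 * (2 * S1 * derivative (x 1) - x 1 * derivative S1) with hV
  have bV : bar V = -(C u * h ^ 4 * a₁ ^ 3 * a₃ ^ 3 * derivative q) := by
    simp only [hV, bar_mul, bar_sub, bar_ofNat, bar_derivative, bS', e1, e3]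
    rw [mul_comm h (a₁ ^ 3), derivative_cube_mul]
    simp only [derivative_mul, derivative_C, derivative_pow, Nat.cast_ofNat, map_ofNat]
    ring
  have bV0 : bar V ≠ 0 := by
    rw [bV]
    exact neg_ne_zero.2 (mul_ne_zero (mul_ne_zero (mul_ne_zero (mul_ne_zero (C_ne_zero.2 u0)
      (pow_ne_zero 4 hh)) (pow_ne_zero 3 n1)) (pow_ne_zero 3 n3)) dq0)
  have idn : 2 * (x 0 * x 3 * wronskian (x 0) (x 1) + x 1 * x 2 * wronskian (x 2) (x 3)) =
      x 3 * (2 * S * derivative (x 1) - x 1 * derivative S) +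
        2 * (x 2 ^ 2 + x 3 ^ 2) * wronskian (x 1) (x 3) := by
    simp only [hS, wronskian, derivative_add, derivative_pow, Nat.cast_ofNat, map_ofNat]
    ring
  have eV : C cS * V = C (ρ * c13) *
      (2 * C ρ ^ 2 * C e * (x 0 * x 3 * q1 + x 1 * x 2 * q3) - 2 * Y3 * q13) := by
    rw [f1, f3, f13, y3, Cc, eS1, derivative_C_mul] at idn
    rw [hV, C_mul]
    linear_combination -idn
  obtain ⟨ε', -, bE⟩ := dvd_of_C_mul_eq eV bV0 (mul_ne_zero hρ hc13)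
  simp only [bar_mul, bar_sub, bar_pow, bρ, bY3, bar_ofNat, bV, dq] at bE
  have fin : C (i * s) * bar q13 =
      -(C (res ε') * C u * wronskian a₁ a₃) * (h ^ 2 * (a₁ ^ 4 + a₃ ^ 4)) := by
    apply mul_left_cancel₀ (mul_ne_zero (mul_ne_zero (pow_ne_zero 2 hh) (pow_ne_zero 3 n1))
      (pow_ne_zero 3 n3))
    rw [C_mul]
    linear_combination bE - C i * C s * h ^ 2 * a₁ ^ 3 * a₃ ^ 3 * bar q13 * t3
  have ε0 : res ε' ≠ 0 := fun h0 => by
    rw [h0, C_0, zero_mul, zero_mul, neg_zero, zero_mul] at fin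
    exact mul_ne_zero (C_ne_zero.2 (mul_ne_zero i0 hs0)) hq13 fin
  have hWu : IsUnit (wronskian a₁ a₃) := by
    have hd := natDegree_wronskian_le (n := 1) d1.le d3.le hw
    obtain ⟨w, ew⟩ := natDegree_eq_zero.1 (show (wronskian a₁ a₃).natDegree = 0 by omega)
    rw [← ew] at hw ⊢
    exact isUnit_C.2 (C_ne_zero.1 hw).isUnit
  exact inss0_final (mul_ne_zero i0 hs0) hh dh d1 d3 hc
    (((isUnit_C.2 ε0.isUnit).mul (isUnit_C.2 u0.isUnit)).mul hWu).neg v1 v3 fin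

end Pool.Agent.FS
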