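import Pool.Agent.P.MP_57148c_nt.Hasse
import Pool.Agent.P.MP_57148c_nt.Root

open Polynomial

noncomputable section
namespace Pool.Agent.FS

variable {A : ValuationSubring ℂ} [Three A]

/-- criterion for the generic case: `x 2 ^ 6 + x 3 ^ 6` is small -/
theorem gen_of_small {D : ℕ} {x : Fin 4 → A[X]} (H : Sol D x) {i i' : kk A} (hi : i ^ 2 = -1)
    (hi' : i' ^ 2 = -1) (h0 : bar (x 0) = C i * bar (x 1)) (h2 : bar (x 2) = C i' * bar (x 3))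
    (h1 : bar (x 1) ≠ 0) (h3 : bar (x 3) ≠ 0) {c : A} {q1 q3 R : A[X]}
    (e1 : wronskian (x 0) (x 1) = C c * q1) (e3 : wronskian (x 2) (x 3) = C c * q3)
    (hq : bar q1 ≠ 0 ∨ bar q3 ≠ 0) (hR : bar R = 0)
    (hB : (x 2 ^ 6 + x 3 ^ 6) * wronskian (x 1) (x 3) = C c * R) : Gen x i i' := by
  refine ⟨c, q1, q3, e1, e3, hq, ?_⟩
  have hc : (C c : A[X]) ≠ 0 := fun hc => H.ind 0 1 (by decide) (by rw [e1, hc, zero_mul])
  have hk := H.key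
  rw [e1, e3, hB] at hk
  have hk' : x 0 ^ 5 * x 3 * q1 + x 1 * x 2 ^ 5 * q3 = R :=
    mul_left_cancel₀ hc (by linear_combination hk)
  have hb := congrArg bar hk'
  simp only [bar_add, bar_mul, bar_pow, h0, h2, hR] at hb
  have hI : (C i : (kk A)[X]) ^ 2 = -1 := by rw [← C_pow, hi, C_neg, C_1]
  have hI' : (C i' : (kk A)[X]) ^ 2 = -1 := by rw [← C_pow, hi', C_neg, C_1]
  refine mul_left_cancel₀ (mul_ne_zero h1 h3) ?_
  linear_combination hb - (C i * (C i ^ 2 - 1) * bar (x 1) ^ 5 * bar (x 3) * bar q1) * hI -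
    (C i' * (C i' ^ 2 - 1) * bar (x 1) * bar (x 3) ^ 5 * bar q3) * hI'

/-- expansion in the shallow case -/
theorem exp_shal {ζ ρ μ : A} (hζ : ζ ^ 6 = -1) (hρ : res ρ = 0) (hμ : res μ = 0)
    (h3 : 3 = ρ ^ 2 * μ) (y m : A[X]) :
    ∃ R : A[X], (C ζ * y + C ρ * m) ^ 6 + y ^ 6 = C (ρ ^ 3) * R ∧
      bar R = 2 * (C (res ζ) * bar y * bar m) ^ 3 := by
  have hζ' : (C ζ : A[X]) ^ 6 = -1 := by rw [← C_pow, hζ, C_neg, C_1]
  have h3' : (3 : A[X]) = C ρ ^ 2 * C μ := by rw [← C_pow, ← C_mul, ← h3]; rfl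
  refine ⟨2 * C μ * C ζ ^ 5 * y ^ 5 * m + 5 * C μ * C ρ * C ζ ^ 4 * y ^ 4 * m ^ 2 +
    20 * C ζ ^ 3 * y ^ 3 * m ^ 3 + 15 * C ρ * C ζ ^ 2 * y ^ 2 * m ^ 4 +
    6 * C ρ ^ 2 * C ζ * y * m ^ 5 + C ρ ^ 3 * m ^ 6, ?_, ?_⟩
  · rw [C_pow]
    linear_combination y ^ 6 * hζ' +
      (2 * C ρ * C ζ ^ 5 * y ^ 5 * m + 5 * C ρ ^ 2 * C ζ ^ 4 * y ^ 4 * m ^ 2) * h3'
  · simp only [bar_add, bar_mul, bar_pow, bar_C, bar_ofNat, hρ, hμ, C_0]
    linear_combination (6 * (C (res ζ) * bar y * bar m) ^ 3) * (three_eq_zero (k := kk A))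

/-- expansion in the deep case -/
theorem exp_deep {ζ ρ μ : A} (hζ : ζ ^ 6 = -1) (hζ2 : res ζ ^ 2 = -1) (h3 : ρ ^ 2 = 3 * μ)
    (y m : A[X]) :
    ∃ R : A[X], (C ζ * y + C ρ * m) ^ 6 + y ^ 6 = C (3 * ρ) * R ∧
      bar R = 2 * (C (res ζ) * bar y ^ 3 * (bar m * (bar y ^ 2 - C (res μ) * bar m ^ 2))) := by
  have hζ' : (C ζ : A[X]) ^ 6 = -1 := by rw [← C_pow, hζ, C_neg, C_1]
  have c3 : (C 3 : A[X]) = 3 := rfl
  have h3' : (C ρ : A[X]) ^ 2 = 3 * C μ := by rw [← C_pow, h3, C_mul, c3]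
  have hρ : res ρ = 0 := by
    have := congrArg (IsLocalRing.residue A) h3
    rw [map_pow, map_mul, Three.three, zero_mul] at this
    exact pow_eq_zero_iff two_ne_zero |>.1 this
  have hI : (C (res ζ) : (kk A)[X]) ^ 2 = -1 := by rw [← C_pow, hζ2, C_neg, C_1]
  refine ⟨2 * C ζ ^ 5 * y ^ 5 * m + 5 * C ρ * C ζ ^ 4 * y ^ 4 * m ^ 2 +
    20 * C μ * C ζ ^ 3 * y ^ 3 * m ^ 3 + 5 * C ρ ^ 3 * C ζ ^ 2 * y ^ 2 * m ^ 4 +
    2 * C ρ ^ 4 * C ζ * y * m ^ 5 + C μ * C ρ ^ 3 * m ^ 6, ?_, ?_⟩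
  · rw [C_mul, c3]
    linear_combination y ^ 6 * hζ' +
      (20 * C ρ * C ζ ^ 3 * y ^ 3 * m ^ 3 + C ρ ^ 4 * m ^ 6) * h3'
  · simp only [bar_add, bar_mul, bar_pow, bar_C, bar_ofNat, hρ, C_0]
    linear_combination
      (6 * C (res μ) * C (res ζ) ^ 3 * bar y ^ 3 * bar m ^ 3) * (three_eq_zero (k := kk A)) +
      (2 * C (res ζ) * (C (res ζ) ^ 2 - 1) * bar y ^ 5 * bar m +
        2 * C (res μ) * C (res ζ) * bar y ^ 3 * bar m ^ 3) * hI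

omit [Three A] in
theorem leva_coef {ν : kk A} {y m : (kk A)[X]} (hy : y ≠ 0)
    (h : m * (y ^ 2 - C ν * m ^ 2) = 0) :
    ∃ c : kk A, m = C c * y ∧ c * (1 - ν * c ^ 2) = 0 ∧ (ν = 0 → c = 0) := by
  rcases mul_eq_zero.1 h with h | h
  · exact ⟨0, by simp [h], by simp, fun _ => rfl⟩
  · have key : ∀ r : kk A, r ^ 2 = ν → y = C r * m →
        ∃ c : kk A, m = C c * y ∧ c * (1 - ν * c ^ 2) = 0 ∧ (ν = 0 → c = 0) := by
      intro r hr e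
      have hr0 : r ≠ 0 := fun h0 => hy (by rw [e, h0, C_0, zero_mul])
      refine ⟨r⁻¹, ?_, ?_, fun h0 => absurd (pow_eq_zero_iff two_ne_zero |>.1 (hr.trans h0)) hr0⟩
      · rw [e, ← mul_assoc, ← C_mul, inv_mul_cancel₀ hr0, C_1, one_mul]
      · rw [← hr]
        field_simp
        ring
    obtain ⟨r, hr⟩ := IsAlgClosed.exists_pow_nat_eq ν two_pos
    have h' : (y - C r * m) * (y + C r * m) = 0 := by
      rw [← hr, C_pow] at h
      linear_combination h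
    rcases mul_eq_zero.1 h' with h1 | h1
    · exact key r hr (sub_eq_zero.1 h1)
    · exact key (-r) (by rw [neg_sq, hr]) (by rw [C_neg]; linear_combination h1)

/-- change of the centre -/
theorem recenter {ζ ρ μ : A} (hζ : ζ ^ 6 = -1) (hζ2 : res ζ ^ 2 = -1) (hρ : ρ ≠ 0)
    (h3 : ρ ^ 2 = 3 * μ) {y m : (kk A)[X]} (hy : y ≠ 0)
    (h : m * (y ^ 2 - C (res μ) * m ^ 2) = 0) :
    ∃ e : A, (ζ + ρ * e) ^ 6 = -1 ∧ m = C (res e) * y ∧ (res μ = 0 → res e = 0) := by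
  have _ := hρ
  obtain ⟨c, h1, h2, h4⟩ := leva_coef hy h
  obtain ⟨R, e1, e2⟩ := exp_deep hζ hζ2 h3 1 X
  simp only [bar_one, bar_X, one_pow, mul_one] at e1 e2
  have hR : bar R ≠ 0 := by
    rw [e2]
    refine mul_ne_zero (fun h0 => ?_) (mul_ne_zero (C_ne_zero.2 fun h0 => ?_)
      (mul_ne_zero X_ne_zero fun h0 => ?_))
    · exact one_ne_zero (α := (kk A)[X]) (by linear_combination (three_eq_zero (k := kk A)) - h0)
    · rw [h0] at hζ2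
      simp at hζ2
    · simpa using congrArg (eval 0) h0
  obtain ⟨e, he, hr⟩ := exists_root hR (b := c) (by
    rw [e2]
    simp only [eval_mul, eval_sub, eval_one, eval_C, eval_X, eval_pow]
    rw [h2]; simp)
  refine ⟨e, ?_, by rw [he]; exact h1, fun h0 => he.trans (h4 h0)⟩
  have := congrArg (eval e) e1
  simp only [eval_add, eval_mul, eval_pow, eval_C, eval_X, eval_one, hr, mul_zero] at this
  exact eq_neg_of_add_eq_zero_left this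

end Pool.Agent.FS
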