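import Pool.Agent.P.MP_57148c_nt.LevA

open Polynomial

noncomputable section
namespace Pool.Agent.FS

variable {A : ValuationSubring ℂ} [Three A]

omit [Three A] in
theorem levb_w {ζ ρ : A} {z y m : A[X]} (e : z = C ζ * y + C ρ * m) :
    wronskian z y = C ρ * wronskian m y := by
  subst e
  simp only [wronskian, derivative_add, derivative_mul, derivative_C]
  ring

omit [Three A] in
theorem levb_deg {D : ℕ} {ζ ρ : A} {z y m : A[X]} (hρ : ρ ≠ 0) (e : z = C ζ * y + C ρ * m)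
    (hz : z.natDegree ≤ D) (hy : y.natDegree ≤ D) : m.natDegree ≤ D := by
  have : C ρ * m = z - C ζ * y := by rw [e]; ring
  rw [← natDegree_C_mul hρ, this]
  exact (natDegree_sub_le _ _).trans (max_le hz ((natDegree_C_mul_le _ _).trans hy))

omit [Three A] in
/-- a pair with zero reduction is a small multiple of a primitive pair -/
theorem levb_prim {n1 n3 : A[X]} (h : n1 ≠ 0) (b1 : bar n1 = 0) (b3 : bar n3 = 0) :
    ∃ (c : A) (m1 m3 : A[X]), c ≠ 0 ∧ res c = 0 ∧ n1 = C c * m1 ∧ n3 = C c * m3 ∧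
      (bar m1 ≠ 0 ∨ bar m3 ≠ 0) := by
  obtain ⟨c, m1, m3, hc, e1, e3, hp⟩ := exists_prim_two (f₁ := n1) (f₂ := n3) (Or.inl h)
  refine ⟨c, m1, m3, hc, ?_, e1, e3, hp⟩
  by_contra hr
  rw [e1, bar_mul, bar_C] at b1
  rw [e3, bar_mul, bar_C] at b3
  rcases hp with hp | hp
  · exact mul_ne_zero (C_ne_zero.2 hr) hp b1
  · exact mul_ne_zero (C_ne_zero.2 hr) hp b3

omit [Three A] in
theorem levb_ne {i : kk A} (hi : i ^ 2 = -1) : (C i : (kk A)[X]) ≠ 0 := C_ne_zero.2 fun h => by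
  rw [h] at hi
  simp at hi

/-- the deep case for given centres -/
theorem levb_core {D : ℕ} {x : Fin 4 → A[X]} (H : Sol D x) {i i' : kk A} (hi : i ^ 2 = -1)
    (hi' : i' ^ 2 = -1) (h0 : bar (x 0) = C i * bar (x 1)) (h2 : bar (x 2) = C i' * bar (x 3))
    (h1 : bar (x 1) ≠ 0) (h3 : bar (x 3) ≠ 0) {ζ ζ' ρ μ : A} {m1 m3 : A[X]} (hζ : ζ ^ 6 = -1)
    (hζ' : ζ' ^ 6 = -1) (r : res ζ = i) (r' : res ζ' = i') (hρ : ρ ≠ 0) (hμ : ρ ^ 2 = 3 * μ)
    (e0 : x 0 = C ζ * x 1 + C ρ * m1) (e2 : x 2 = C ζ' * x 3 + C ρ * m3) :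
    Gen x i i' ∨ Deep D x i i' ∨ (bar m1 * (bar (x 1) ^ 2 - C (res μ) * bar m1 ^ 2) = 0 ∧
      bar m3 * (bar (x 3) ^ 2 - C (res μ) * bar m3 ^ 2) = 0) := by
  obtain ⟨R1, a1, b1⟩ := exp_deep hζ (r ▸ hi) hμ (x 1) m1
  obtain ⟨R3, a3, b3⟩ := exp_deep hζ' (r' ▸ hi') hμ (x 3) m3
  rw [← e0] at a1
  rw [← e2] at a3
  rw [r] at b1
  rw [r'] at b3
  have h30 : (3 : A) ≠ 0 := fun h => hρ (by
    rw [h, zero_mul] at hμ
    exact pow_eq_zero_iff two_ne_zero |>.1 hμ)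
  have h3ρ : (C (3 * ρ) : A[X]) ≠ 0 := C_ne_zero.2 (mul_ne_zero h30 hρ)
  have hR : R1 + R3 = 0 := by
    refine mul_left_cancel₀ h3ρ ?_
    linear_combination H.sum4 - a1 - a3
  have hS := congrArg bar hR
  rw [bar_add, b1, b3, bar_zero] at hS
  have hS' : C i * bar (x 1) ^ 3 * (bar m1 * (bar (x 1) ^ 2 - C (res μ) * bar m1 ^ 2)) +
      C i' * bar (x 3) ^ 3 * (bar m3 * (bar (x 3) ^ 2 - C (res μ) * bar m3 ^ 2)) = 0 := by
    linear_combination (C i * bar (x 1) ^ 3 * (bar m1 * (bar (x 1) ^ 2 - C (res μ) * bar m1 ^ 2)) +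
      C i' * bar (x 3) ^ 3 * (bar m3 * (bar (x 3) ^ 2 - C (res μ) * bar m3 ^ 2))) *
        (three_eq_zero (k := kk A)) - hS
  have n1 := mul_ne_zero (levb_ne hi) (pow_ne_zero 3 h1)
  have n3 := mul_ne_zero (levb_ne hi') (pow_ne_zero 3 h3)
  by_cases z1 : bar m1 * (bar (x 1) ^ 2 - C (res μ) * bar m1 ^ 2) = 0
  · rw [z1, mul_zero, zero_add] at hS'
    exact Or.inr (Or.inr ⟨z1, (mul_eq_zero.1 hS').resolve_left n3⟩)
  have z3 : bar m3 * (bar (x 3) ^ 2 - C (res μ) * bar m3 ^ 2) ≠ 0 := fun z3 => by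
    rw [z3, mul_zero, add_zero] at hS'
    exact mul_ne_zero n1 z1 hS'
  obtain ⟨c, q1, q3, -, w1, w3, hq⟩ := exists_prim_two (f₁ := wronskian (x 0) (x 1))
    (f₂ := wronskian (x 2) (x 3)) (Or.inl (H.ind 0 1 (by decide)))
  rcases level_cases c (3 * ρ) with ⟨m, hm, e⟩ | ⟨e, he⟩
  · refine Or.inl (gen_of_small H hi hi' h0 h2 h1 h3 w1 w3 hq
      (R := C m * R3 * wronskian (x 1) (x 3)) (by simp [hm]) ?_)
    rw [a3, e, C_mul]
    ring
  · have hC : (C ρ : A[X]) ≠ 0 := C_ne_zero.2 hρ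
    have c3 : (C (3 * ρ) : A[X]) = 3 * C ρ := by rw [C_mul]; rfl
    have k1 : wronskian (x 0) (x 1) = C (3 * ρ) * (C e * q1) := by rw [w1, he, C_mul, mul_assoc]
    have k3 : wronskian (x 2) (x 3) = C (3 * ρ) * (C e * q3) := by rw [w3, he, C_mul, mul_assoc]
    refine Or.inr (Or.inl ⟨ρ, m1, m3, C e * q1, C e * q3, res μ, hρ, k1, k3, ?_, ?_,
      levb_deg hρ e0 (H.deg 0) (H.deg 1), levb_deg hρ e2 (H.deg 2) (H.deg 3), hS', z1, z3⟩)
    · refine mul_left_cancel₀ hC ?_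
      rw [← levb_w e0, k1, c3]
      ring
    · refine mul_left_cancel₀ hC ?_
      rw [← levb_w e2, k3, c3]
      ring

/-- trichotomy near a special line -/
theorem levels {D : ℕ} {x : Fin 4 → A[X]} (H : Sol D x) {i i' : kk A} (hi : i ^ 2 = -1)
    (hi' : i' ^ 2 = -1) (h0 : bar (x 0) = C i * bar (x 1)) (h2 : bar (x 2) = C i' * bar (x 3))
    (h1 : bar (x 1) ≠ 0) (h3 : bar (x 3) ≠ 0) : Gen x i i' ∨ Shal x i i' ∨ Deep D x i i' := by
  obtain ⟨I, hI, rI⟩ := exists_sqrt_lift hi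
  obtain ⟨I', hI', rI'⟩ := exists_sqrt_lift hi'
  have six : ∀ J : A, J ^ 2 = -1 → J ^ 6 = -1 := fun J hJ => by
    linear_combination (J ^ 4 - J ^ 2 + 1) * hJ
  have hne : ∀ {ζ ρ : A} {m : A[X]}, x 0 = C ζ * x 1 + C ρ * m → m ≠ 0 := fun e hm =>
    H.ind 0 1 (by decide) (by rw [levb_w e, hm, wronskian_zero_left, mul_zero])
  obtain ⟨ρ, m1, m3, hρ, rρ, f1, f3, hp⟩ := levb_prim (n1 := x 0 - C I * x 1)
    (n3 := x 2 - C I' * x 3) (hne (ζ := I) (ρ := 1) (by simp)) (by simp [h0, rI])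
    (by simp [h2, rI'])
  have e0 : x 0 = C I * x 1 + C ρ * m1 := by linear_combination f1
  have e2 : x 2 = C I' * x 3 + C ρ * m3 := by linear_combination f3
  rcases level_cases (ρ ^ 2) 3 with ⟨μ, rμ, hμ⟩ | ⟨μ, hμ⟩
  · obtain ⟨R1, a1, b1⟩ := exp_shal (six I hI) rρ rμ hμ (x 1) m1
    obtain ⟨R3, a3, b3⟩ := exp_shal (six I' hI') rρ rμ hμ (x 3) m3
    rw [← e0] at a1
    rw [← e2] at a3
    by_cases hw : wronskian (bar m1) (bar (x 1)) = 0 ∧ wronskian (bar m3) (bar (x 3)) = 0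
    · have hR : R1 + R3 = 0 := by
        refine mul_left_cancel₀ (C_ne_zero.2 (pow_ne_zero 3 hρ)) ?_
        linear_combination H.sum4 - a1 - a3
      have hS := congrArg bar hR
      rw [bar_add, b1, b3, bar_zero, rI, rI'] at hS
      refine Or.inr (Or.inl ⟨I, I', ρ, μ, m1, m3, hI, hI', rI, rI', hρ, rρ, rμ, hμ, e0, e2, hp,
        pow_eq_zero_iff (n := 3) (by norm_num) |>.1 ?_, hw.1, hw.2⟩)
      rw [cube_add]
      linear_combination ((C i * bar (x 1) * bar m1) ^ 3 + (C i' * bar (x 3) * bar m3) ^ 3) *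
        (three_eq_zero (k := kk A)) - hS
    · refine Or.inl (gen_of_small H hi hi' h0 h2 h1 h3 (levb_w e0) (levb_w e2) ?_
        (R := C (ρ ^ 2) * R3 * wronskian (x 1) (x 3)) (by simp [rρ]) ?_)
      · rw [bar_wronskian, bar_wronskian]
        exact not_and_or.1 hw
      · rw [a3, C_pow, C_pow]
        ring
  · rcases levb_core H hi hi' h0 h2 h1 h3 (six I hI) (six I' hI') rI rI' hρ hμ e0 e2 with
      h | h | ⟨z1, z3⟩
    · exact Or.inl h
    · exact Or.inr (Or.inr h)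
    obtain ⟨e, ze, be, -⟩ := recenter (six I hI) (rI ▸ hi) hρ hμ h1 z1
    obtain ⟨e', ze', be', -⟩ := recenter (six I' hI') (rI' ▸ hi') hρ hμ h3 z3
    have g0 : x 0 = C (I + ρ * e) * x 1 + C ρ * (m1 - C e * x 1) := by
      rw [C_add, C_mul]
      linear_combination e0
    have g2 : x 2 = C (I' + ρ * e') * x 3 + C ρ * (m3 - C e' * x 3) := by
      rw [C_add, C_mul]
      linear_combination e2
    obtain ⟨c, m1', m3', hc, rc, u1, u3, hp'⟩ := levb_prim (n1 := m1 - C e * x 1)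
      (n3 := m3 - C e' * x 3) (hne g0) (by simp [be]) (by simp [be'])
    rw [u1, ← mul_assoc, ← C_mul] at g0
    rw [u3, ← mul_assoc, ← C_mul] at g2
    rcases levb_core H hi hi' h0 h2 h1 h3 ze ze' (by simp [rρ, rI]) (by simp [rρ, rI'])
      (mul_ne_zero hρ hc) (μ := μ * c ^ 2) (by linear_combination c ^ 2 * hμ) g0 g2 with
      h | h | ⟨y1, y3⟩
    · exact Or.inl h
    · exact Or.inr (Or.inr h)
    have rμ : res (μ * c ^ 2) = 0 := by simp [rc]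
    rw [rμ, C_0, zero_mul, sub_zero] at y1 y3
    rcases hp' with hp' | hp'
    · exact absurd y1 (mul_ne_zero hp' (pow_ne_zero 2 h1))
    · exact absurd y3 (mul_ne_zero hp' (pow_ne_zero 2 h3))

end Pool.Agent.FS
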