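import Pool.Agent.P.MP_57148c_nt.Root
import Pool.Agent.P.MP_57148c_nt.Char3

open Polynomial

noncomputable section
namespace Pool.Agent.FS

variable {A : ValuationSubring ℂ}

section

variable {R : Type} [CommRing R]

/-- the substitution `X ↦ b + 1 / X` on polynomials of degree at most `n` -/
def refl_M (n : ℕ) (b : R) (f : R[X]) : R[X] := reflect n (taylor b f)

theorem refl_zero (n : ℕ) (b : R) : refl_M n b 0 = 0 := by simp [refl_M]

theorem refl_ne {n : ℕ} {b : R} {f : R[X]} (h : f ≠ 0) : refl_M n b f ≠ 0 := by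
  simpa [refl_M] using h

theorem refl_add (n : ℕ) (b : R) (f g : R[X]) : refl_M n b (f + g) = refl_M n b f + refl_M n b g := by
  simp only [refl_M, map_add, reflect_add]

theorem refl_mul (b : R) {n m : ℕ} {f g : R[X]} (hf : f.natDegree ≤ n) (hg : g.natDegree ≤ m) :
    refl_M (n + m) b (f * g) = refl_M n b f * refl_M m b g := by
  rw [refl_M, taylor_mul, reflect_mul _ _ ((natDegree_taylor _ _).le.trans hf)
    ((natDegree_taylor _ _).le.trans hg)]
  rfl

theorem refl_pow (b : R) {n : ℕ} {f : R[X]} (hf : f.natDegree ≤ n) (e : ℕ) :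
    refl_M (e * n) b (f ^ e) = refl_M n b f ^ e := by
  induction e with
  | zero => simp [refl_M]
  | succ e ih => rw [Nat.succ_mul, pow_succ, refl_mul b (natDegree_pow_le_of_le e hf) hf, ih, pow_succ]

theorem refl_map {S : Type} [CommRing S] (φ : R →+* S) (n : ℕ) (b : R) (f : R[X]) :
    (refl_M n b f).map φ = refl_M n (φ b) (f.map φ) := by
  rw [refl_M, ← reflect_map, map_taylor, refl_M]

theorem refl_deg (b : R) {n : ℕ} {f : R[X]} (hf : f.natDegree ≤ n) :
    (refl_M n b f).natDegree ≤ n :=
  natDegree_reflect_le.trans (max_le le_rfl ((natDegree_taylor _ _).le.trans hf))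

theorem refl_coeff (n : ℕ) (b : R) (f : R[X]) : (refl_M n b f).coeff n = f.eval b := by
  rw [refl_M, coeff_reflect, revAt_le le_rfl, Nat.sub_self, taylor_coeff_zero]

theorem refl_deg_eq {b : R} {n : ℕ} {f : R[X]} (hf : f.natDegree ≤ n) (h : f.eval b ≠ 0) :
    (refl_M n b f).natDegree = n :=
  le_antisymm (refl_deg b hf) (le_natDegree_of_ne_zero (by rwa [refl_coeff]))

theorem refl_euler (f : R[X]) (i : ℕ) : (X * derivative f).coeff i = i * f.coeff i := by
  cases i with
  | zero => simp
  | succ i => rw [coeff_X_mul, coeff_derivative, mul_comm]; push_cast; rfl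

theorem refl_der {n : ℕ} {f : R[X]} (hf : f.natDegree ≤ n) :
    (C (n : R) * f - X * derivative f).natDegree ≤ n ∧
      X * derivative (reflect n f) = reflect n (C (n : R) * f - X * derivative f) := by
  constructor
  · refine natDegree_le_iff_coeff_eq_zero.2 fun i hi => ?_
    rw [coeff_sub, coeff_C_mul, refl_euler, coeff_eq_zero_of_natDegree_lt (hf.trans_lt hi)]
    simp
  · ext i
    rw [refl_euler, coeff_reflect, coeff_reflect, coeff_sub, coeff_C_mul, refl_euler]
    rcases le_or_gt i n with h | h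
    · rw [revAt_le h, Nat.cast_sub h]; ring
    · rw [revAt_eq_self_of_lt h, coeff_eq_zero_of_natDegree_lt (hf.trans_lt h)]
      simp

theorem refl_wr (b : R) {n : ℕ} {f g : R[X]} (hf : f.natDegree ≤ n) (hg : g.natDegree ≤ n)
    (h : wronskian f g ≠ 0) : wronskian (refl_M n b f) (refl_M n b g) ≠ 0 := by
  intro e
  have h1 : wronskian (taylor b f) (taylor b g) = taylor b (wronskian f g) := by
    simp [wronskian, taylor_apply, derivative_comp]
  have hf' := (natDegree_taylor f b).le.trans hf
  have hg' := (natDegree_taylor g b).le.trans hg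
  have h2 : reflect (n + n) (-(X * wronskian (taylor b f) (taylor b g))) =
      X * wronskian (refl_M n b f) (refl_M n b g) := by
    rw [refl_M, refl_M]
    generalize taylor b f = f' at hf'
    generalize taylor b g = g' at hg'
    rw [wronskian, wronskian, mul_sub X (reflect n f' * _), mul_left_comm, ← mul_assoc X,
      (refl_der hf').2, (refl_der hg').2, ← reflect_mul _ _ hf' (refl_der hg').1,
      ← reflect_mul _ _ (refl_der hf').1 hg', ← reflect_sub]
    congr 1
    ring
  rw [e, mul_zero, reflect_eq_zero_iff, neg_eq_zero, monic_X.mul_right_eq_zero_iff, h1,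
    taylor_eq_zero] at h2
  exact h h2

end

/-- a Moebius transformation puts infinity in general position -/
theorem exists_good {D : ℕ} {x : Fin 4 → A[X]} (H : Sol D x) (hx : Insep x) :
    ∃ (z : Fin 4 → A[X]) (h : (kk A)[X]) (a : Fin 4 → (kk A)[X]), Sol D z ∧ Good D z h a := by
  obtain ⟨h, a, h0, he, hd, i₀, j₀, hw⟩ := hx
  have hev : ∀ p : (kk A)[X], ∀ᶠ b in Filter.cofinite, p ≠ 0 → p.eval b ≠ 0 := fun p => by
    by_cases hp : p = 0
    · exact Filter.Eventually.of_forall fun _ h' => absurd hp h'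
    · exact Filter.eventually_cofinite.2 ((finite_setOfPred_isRoot hp).subset fun b hb => by
        by_contra h'
        exact hb fun _ => h')
  obtain ⟨b, b1, b2, b3⟩ := ((hev h).and ((Filter.eventually_all.2 fun i => hev (a i)).and
    (Filter.eventually_all.2 fun i => Filter.eventually_all.2 fun j =>
      hev (a i ^ 2 + a j ^ 2)))).exists
  obtain ⟨t₀, rfl⟩ := res_surj b
  obtain ⟨l, hl⟩ : ∃ l, (a l).natDegree = 1 := by
    by_contra hn
    have : ∀ l, derivative (a l) = 0 := fun l =>
      derivative_of_natDegree_zero (by have := hd l; have := not_exists.1 hn l; omega)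
    exact hw (by rw [wronskian, this, this]; simp)
  have hl0 : a l ≠ 0 := fun e => by simp [e] at hl
  have hD : h.natDegree + 3 ≤ D := by
    have := (natDegree_bar_le (x l)).trans (H.deg l)
    rwa [he, natDegree_mul h0 (pow_ne_zero _ hl0), natDegree_pow, hl] at this
  obtain ⟨n, rfl⟩ : ∃ n, D = n + 3 := ⟨D - 3, by omega⟩
  have hn : h.natDegree ≤ n := by omega
  have hz : ∀ i, bar (refl_M (n + 3) t₀ (x i)) =
      refl_M n (res t₀) h * refl_M 1 (res t₀) (a i) ^ 3 := fun i => by
    rw [bar, refl_map, ← refl_pow _ (hd i), ← refl_mul _ hn (natDegree_pow_le_of_le 3 (hd i)),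
      ← he]
    rfl
  have hinj : Function.Injective (algebraMap A ℂ) := Subtype.val_injective
  refine ⟨fun i => refl_M (n + 3) t₀ (x i), refl_M n (res t₀) h, fun i => refl_M 1 (res t₀) (a i),
    ⟨fun i => refl_deg _ (H.deg i), ?_, ?_,
      fun i j hij => refl_wr _ (H.deg i) (H.deg j) (H.ind i j hij), fun t => ?_, l, ?_⟩,
    refl_ne h0, hz, by rw [refl_deg_eq hn (b1 h0)], fun i => refl_deg _ (hd i),
    ⟨i₀, j₀, refl_wr _ (hd i₀) (hd j₀) hw⟩,
    fun i hi => refl_deg_eq (hd i) (b2 i fun e => hi (by rw [e, refl_zero])), fun i j hij => ?_⟩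
  · obtain ⟨i, hi⟩ := H.cop (algebraMap A ℂ t₀)
    refine ⟨i, fun e => hi ?_⟩
    rw [refl_coeff] at e
    rw [aeval_algebraMap_apply_eq_algebraMap_eval, e, map_zero]
  · have := H.sum
    simp only [Fin.sum_univ_four] at this ⊢
    simp only [← refl_pow _ (H.deg _), ← refl_add, this, refl_zero]
  · by_cases ht : t = 0
    · obtain ⟨i, hi⟩ := H.full
      refine ⟨i, fun e => hi ?_⟩
      rw [ht, ← map_zero (algebraMap A ℂ), aeval_algebraMap_apply_eq_algebraMap_eval,
        hinj.eq_iff, ← coeff_zero_eq_eval_zero, refl_M, coeff_reflect, revAt_zero] at e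
      have h1 : (x i).natDegree = n + 3 := le_antisymm (H.deg i) (le_natDegree_of_ne_zero hi)
      rwa [← h1, coeff_taylor_natDegree, leadingCoeff, h1] at e
    · obtain ⟨i, hi⟩ := H.cop (t⁻¹ + algebraMap A ℂ t₀)
      refine ⟨i, fun e => hi ?_⟩
      let _ := invertibleOfNonzero (inv_ne_zero ht)
      have h1 := eval₂_reflect_eq_zero_iff (algebraMap A ℂ) t⁻¹ (n + 3) (taylor t₀ (x i))
        ((natDegree_taylor _ _).le.trans (H.deg i))
      rw [invOf_eq_inv, inv_inv] at h1
      have h2 : aeval t⁻¹ (taylor t₀ (x i)) = 0 := h1.1 e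
      rwa [taylor_apply, aeval_comp, map_add, aeval_X, aeval_C] at h2
  · rw [hz]
    exact mul_ne_zero (refl_ne h0) (pow_ne_zero _ (refl_ne hl0))
  · rw [← refl_pow _ (hd i), ← refl_pow _ (hd j), ← refl_add] at hij ⊢
    exact refl_deg_eq (natDegree_add_le_of_degree_le (natDegree_pow_le_of_le 2 (hd i))
      (natDegree_pow_le_of_le 2 (hd j))) (b3 i j fun e => hij (by rw [e, refl_zero]))

end Pool.Agent.FS
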