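import Pool.Agent.P.MP_57148c_nt.Root

open Polynomial

noncomputable section
namespace Pool.Agent.FS

variable {A : ValuationSubring ℂ}

theorem shrink_min {ι : Type} (s : Finset ι) (hs : s.Nonempty) (f : ι → A) :
    ∃ i ∈ s, ∀ j ∈ s, f i ∣ f j := by
  classical
  induction hs using Finset.Nonempty.cons_induction with
  | singleton a => exact ⟨a, by simp, by simp⟩
  | cons a s ha hs ih =>
    obtain ⟨i, hi, h⟩ := ih
    rcases ValuationRing.dvd_total (f a) (f i) with h1 | h1
    · refine ⟨a, by simp, fun j hj => ?_⟩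
      rcases Finset.mem_cons.mp hj with rfl | hj
      · exact dvd_rfl
      · exact h1.trans (h j hj)
    · refine ⟨i, Finset.mem_cons.mpr (Or.inr hi), fun j hj => ?_⟩
      rcases Finset.mem_cons.mp hj with rfl | hj
      · exact h1
      · exact h j hj

theorem shrink_comp (f : A[X]) (a s : A) :
    f.comp (C a + C s * X) = (taylor a f).comp (C s * X) := by
  rw [taylor_apply, comp_assoc]
  simp [add_comm]

theorem shrink_coeff (f : A[X]) (a s : A) (m : ℕ) :
    (f.comp (C a + C s * X)).coeff m = (taylor a f).coeff m * s ^ m := by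
  rw [shrink_comp, comp_C_mul_X_coeff]

theorem shrink_ne {f : A[X]} (hf : f ≠ 0) (a : A) {s : A} (hs : s ≠ 0) :
    f.comp (C a + C s * X) ≠ 0 := by
  intro h
  have h1 := shrink_coeff f a s (taylor a f).natDegree
  rw [h, coeff_zero] at h1
  have h2 : taylor a f ≠ 0 := fun e => hf (taylor_injective a (by rw [e, map_zero]))
  exact mul_ne_zero (leadingCoeff_ne_zero.mpr h2) (pow_ne_zero _ hs) h1.symm

theorem shrink_wr (f g : A[X]) (a s : A) :
    wronskian (f.comp (C a + C s * X)) (g.comp (C a + C s * X)) =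
      C s * (wronskian f g).comp (C a + C s * X) := by
  simp only [wronskian, derivative_comp, sub_comp, mul_comp, derivative_add, derivative_C,
    derivative_mul, derivative_X]
  ring

theorem shrink_wr_C (c : A) (f g : A[X]) :
    wronskian (C c * f) (C c * g) = C (c ^ 2) * wronskian f g := by
  simp only [wronskian, derivative_mul, derivative_C, C_pow]
  ring

/-- passage from an open disc of weight `n` to a closed disc of the same weight -/
theorem shrink {D : ℕ} {x : Fin 4 → A[X]} (H : Sol D x) {b : kk A} {n : ℕ} (hn : 0 < n)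
    {Z : Fin 4 → (kk A)[X]} (hZ : ∀ i, bar (x i) = (X - C b) ^ n * Z i)
    (hne : ∃ i, (Z i).eval b ≠ 0) :
    ∃ z : Fin 4 → A[X], Sol D z ∧ (∀ i, (bar (z i)).natDegree ≤ n) ∧
      (∀ i, (bar (z i)).coeff n = (Z i).eval b) ∧
      (∀ b', ¬ ∀ i, (X - C b') ^ n ∣ bar (z i)) ∧
      ∀ i j, i ≠ j → (nred (wronskian (z i) (z j))).natDegree ≤
        rootMultiplicity b (nred (wronskian (x i) (x j))) := by
  obtain ⟨i0, hi0⟩ := hne
  have hZ0 : Z i0 ≠ 0 := fun e => hi0 (by rw [e, eval_zero])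
  have hb0 : bar (x i0) ≠ 0 := by
    rw [hZ]; exact mul_ne_zero (pow_ne_zero _ (X_sub_C_ne_zero b)) hZ0
  obtain ⟨a, ha, ha0⟩ := exists_root hb0 (b := b) (by
    rw [hZ]; simp [hn.ne'])
  have hy : ∀ i, bar (taylor a (x i)) = X ^ n * taylor b (Z i) := fun i => by
    have h1 : bar (taylor a (x i)) = taylor b (bar (x i)) := by
      rw [← ha]; exact map_taylor _ _ _
    rw [h1, hZ, taylor_mul, taylor_pow]
    simp [taylor_apply]
  have hlow : ∀ i m, m < n → res ((taylor a (x i)).coeff m) = 0 := fun i m hm => by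
    rw [← coeff_bar, hy, coeff_X_pow_mul', if_neg (by omega)]
  have htop : ∀ i, res ((taylor a (x i)).coeff n) = (Z i).eval b := fun i => by
    rw [← coeff_bar, hy, coeff_X_pow_mul', if_pos le_rfl, Nat.sub_self, taylor_coeff_zero]
  have hr : ∀ p : Fin 4 × Fin n, ∃ r : A, r ^ (n - p.2) = (taylor a (x p.1)).coeff p.2 :=
    fun p => exists_pow_eq _ (by have := p.2.2; omega)
  choose r hr using hr
  obtain ⟨p1, -, hp1⟩ := shrink_min Finset.univ ⟨(i0, ⟨0, hn⟩), Finset.mem_univ _⟩ r
  obtain ⟨s, hs⟩ : ∃ s, s = r p1 := ⟨_, rfl⟩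
  rw [← hs] at hp1
  have hs0 : s ≠ 0 := by
    obtain ⟨i, hi⟩ := H.cop (a : ℂ)
    intro e
    have h1 := hp1 (i, ⟨0, hn⟩) (Finset.mem_univ _)
    rw [e, zero_dvd_iff] at h1
    have h2 := hr (i, ⟨0, hn⟩)
    simp only [h1, Nat.sub_zero, zero_pow hn.ne', taylor_coeff_zero] at h2
    apply hi
    have h3 : (a : ℂ) = algebraMap A ℂ a := rfl
    rw [h3, aeval_algebraMap_apply, coe_aeval_eq_eval, ← h2, map_zero]
  have hsr : res s = 0 := by
    have h1 := hlow p1.1 p1.2 p1.2.2
    rw [← hr p1, ← hs] at h1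
    have h2 : res s ^ (n - p1.2) = 0 := by rw [← h1]; exact (map_pow _ _ _).symm
    exact pow_eq_zero_iff (by have := p1.2.2; omega) |>.mp h2
  have hsn : s ^ n ≠ 0 := pow_ne_zero _ hs0
  have hd : ∀ i, ∃ z, (x i).comp (C a + C s * X) = C (s ^ n) * z := fun i => by
    refine (C_dvd_iff_dvd_coeff _ _).mpr fun m => ?_
    rw [shrink_coeff]
    by_cases hm : m < n
    · have h1 := hr (i, ⟨m, hm⟩)
      simp only at h1
      rw [← h1]
      have h2 : s ^ n = s ^ (n - m) * s ^ m := by rw [← pow_add]; congr 1; omega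
      rw [h2]
      exact mul_dvd_mul_right (pow_dvd_pow_of_dvd (hp1 _ (Finset.mem_univ _)) _) _
    · exact Dvd.dvd.mul_left (pow_dvd_pow s (by omega)) _
  choose z hz using hd
  have hc : ∀ i m, s ^ n * (z i).coeff m = (taylor a (x i)).coeff m * s ^ m := fun i m => by
    rw [← shrink_coeff, hz, coeff_C_mul]
  have hcn : ∀ i, (bar (z i)).coeff n = (Z i).eval b := fun i => by
    have h1 := hc i n
    rw [mul_comm] at h1
    rw [coeff_bar, mul_right_cancel₀ hsn h1, htop]
  have hdeg : ∀ i, (bar (z i)).natDegree ≤ n := fun i => by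
    refine natDegree_le_iff_coeff_eq_zero.mpr fun m hm => ?_
    have h1 := hc i m
    have h2 : s ^ m = s ^ n * (s * s ^ (m - n - 1)) := by
      rw [← pow_succ', ← pow_add]; congr 1; omega
    rw [h2, mul_left_comm] at h1
    rw [coeff_bar, mul_left_cancel₀ hsn h1]
    simp only [res, map_mul]
    rw [show IsLocalRing.residue A s = 0 from hsr]
    simp
  have hW : ∀ i j, C ((s ^ n) ^ 2) * wronskian (z i) (z j) =
      C s * (wronskian (x i) (x j)).comp (C a + C s * X) := fun i j => by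
    rw [← shrink_wr_C, ← hz, ← hz, shrink_wr]
  have hzn : bar (z i0) ≠ 0 := fun e => hi0 (by rw [← hcn, e, coeff_zero])
  refine ⟨z, ⟨fun i => ?_, ?_, ?_, fun i j hij e => ?_, fun t => ?_, ⟨i0, hzn⟩⟩, hdeg, hcn,
    fun b' hb' => ?_, fun i j hij => ?_⟩
  · refine natDegree_le_iff_coeff_eq_zero.mpr fun m hm => ?_
    have h1 := hc i m
    rw [coeff_eq_zero_of_natDegree_lt (p := taylor a (x i))
      (by rw [natDegree_taylor]; exact lt_of_le_of_lt (H.deg i) hm), zero_mul] at h1
    exact (mul_eq_zero.mp h1).resolve_left hsn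
  · obtain ⟨i, hi⟩ := H.full
    refine ⟨i, fun e => ?_⟩
    have h1 := hc i D
    rw [e, mul_zero] at h1
    have h2 : (x i).natDegree = D := le_antisymm (H.deg i) (le_natDegree_of_ne_zero hi)
    have h3 : x i ≠ 0 := fun e' => hi (by rw [e', coeff_zero])
    have h4 : taylor a (x i) ≠ 0 := fun e' => h3 (taylor_injective a (by rw [e', map_zero]))
    have h5 := leadingCoeff_ne_zero.mpr h4
    rw [leadingCoeff, natDegree_taylor, h2] at h5
    exact mul_ne_zero h5 (pow_ne_zero _ hs0) h1.symm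
  · have h1 : C (s ^ n) ^ 6 * ∑ i, z i ^ 6 = (∑ i, x i ^ 6).comp (C a + C s * X) := by
      rw [Finset.mul_sum, sum_comp]
      exact Finset.sum_congr rfl fun i _ => by rw [pow_comp, hz, mul_pow]
    rw [H.sum, zero_comp] at h1
    exact (mul_eq_zero.mp h1).resolve_left (pow_ne_zero _ (C_ne_zero.mpr hsn))
  · have h1 := hW i j
    rw [e, mul_zero] at h1
    exact mul_ne_zero (C_ne_zero.mpr hs0) (shrink_ne (H.ind i j hij) a hs0) h1.symm
  · obtain ⟨i, hi⟩ := H.cop (aeval t (C a + C s * X))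
    refine ⟨i, fun e => hi ?_⟩
    rw [← aeval_comp, hz, map_mul, e, mul_zero]
  · obtain ⟨q, hq⟩ := hb' i0
    have hq0 : q ≠ 0 := fun e => hzn (by rw [hq, e, mul_zero])
    have h1 := hdeg i0
    rw [hq, natDegree_mul (pow_ne_zero _ (X_sub_C_ne_zero b')) hq0, natDegree_pow,
      natDegree_X_sub_C, mul_one] at h1
    have h2 : q = C (q.coeff 0) := eq_C_of_natDegree_eq_zero (by omega)
    have h3 : (z i0).coeff 0 = 0 := by
      have h4 := hc i0 0
      rw [taylor_coeff_zero, ha0, zero_mul] at h4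
      exact (mul_eq_zero.mp h4).resolve_left hsn
    have h4 : (bar (z i0)).eval 0 = 0 := by
      rw [← coeff_zero_eq_eval_zero, coeff_bar, h3]; exact map_zero _
    rw [hq, h2] at h4
    simp only [eval_mul, eval_pow, eval_sub, eval_X, eval_C, zero_sub] at h4
    have h5 : q.coeff 0 ≠ 0 := fun e => hq0 (by rw [h2, e, C_0])
    have h6 : b' = 0 := neg_eq_zero.mp (pow_eq_zero_iff hn.ne' |>.mp
      ((mul_eq_zero.mp h4).resolve_right h5))
    have h7 := hb' p1.1
    rw [h6, C_0, sub_zero] at h7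
    have h8 := X_pow_dvd_iff.mp h7 p1.2 p1.2.2
    have h9 := hc p1.1 p1.2
    rw [← hr p1, ← hs, ← pow_add, Nat.sub_add_cancel p1.2.2.le] at h9
    have h10 : (z p1.1).coeff p1.2 = 1 := mul_left_cancel₀ hsn (by rw [h9, mul_one])
    rw [coeff_bar, h10] at h8
    exact one_ne_zero ((map_one (IsLocalRing.residue A)).symm.trans h8)
  · rw [← nd_nred_C_mul (pow_ne_zero 2 hsn), hW, nd_nred_C_mul hs0, ← ha]
    exact nd_nred_comp_le (H.ind i j hij) a hs0 hsr

end Pool.Agent.FS
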