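import Pool.Agent.P.MP_57148c_nt.SepV
import Pool.Agent.P.MP_57148c_nt.InsS
import Pool.Agent.P.MP_57148c_nt.G3
import Pool.Agent.P.MP_57148c_nt.Shrink
import Pool.Agent.P.MP_57148c_nt.Refl
import Pool.Agent.P.MP_57148c_nt.Init

open Polynomial

noncomputable section
namespace Pool.Agent.FS

variable {A : ValuationSubring ℂ} [Three A]

theorem top_of_claims {D : ℕ} (hD : D ≤ 5) {z : Fin 4 → A[X]} (H : Sol D z) (hi : ¬ Insep z)
    {n : ℕ} (hd : ∀ i, (bar (z i)).natDegree ≤ n)
    (hC : ∀ b m, m ≤ n → (∀ i, (X - C b) ^ m ∣ bar (z i)) → Claim z b m) : Top z n := by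
  obtain ⟨h, X', hh, e, hc⟩ := exists_gcd_tuple H.prim
  have hC' : ∀ b, Claim z b (rootMultiplicity b h) := fun b => by
    refine hC b _ ?_ fun i => ?_
    · obtain ⟨i, hi⟩ := H.prim
      have h1 : h.natDegree ≤ n :=
        (natDegree_le_of_dvd (Dvd.intro _ (e i).symm) hi).trans (hd i)
      have h2 := natDegree_le_of_dvd (pow_rootMultiplicity_dvd h b) hh
      rw [natDegree_pow, natDegree_X_sub_C, mul_one] at h2
      exact h2.trans h1
    · rw [e i]
      exact (pow_rootMultiplicity_dvd h b).mul_right _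
  by_cases hw : ∃ i j, wronskian (X' i) (X' j) ≠ 0
  · exact sep_vertex hD H hh e hc hw hC' n
  push Not at hw
  choose a ha using fun i => exists_cube (derivative_eq_zero_of_wronskian hc hw i)
  have hda : ∀ i, (a i).natDegree ≤ 1 := fun i => by
    by_cases h0 : a i = 0
    · simp [h0]
    have h1 := (natDegree_bar_le (z i)).trans ((H.deg i).trans hD)
    rw [e i, ha i, natDegree_mul hh (pow_ne_zero 3 h0), natDegree_pow] at h1
    omega
  by_cases hw' : ∃ i j, wronskian (a i) (a j) ≠ 0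
  · exact absurd ⟨h, a, hh, fun i => by rw [e i, ha i], hda, hw'⟩ hi
  push Not at hw'
  have hca : ∀ b, ∃ i, (a i).eval b ≠ 0 := fun b => by
    obtain ⟨i, hi⟩ := hc b
    exact ⟨i, fun h0 => hi (by rw [ha i, eval_pow, h0]; norm_num)⟩
  have hP : ∀ i, ∃ p : kk A, X' i = C p := fun i => by
    obtain ⟨g, hg⟩ := exists_cube (derivative_eq_zero_of_wronskian hca hw' i)
    have h1 := hda i
    rw [hg, natDegree_pow] at h1
    refine ⟨(g.coeff 0) ^ 9, ?_⟩
    rw [ha i, hg, eq_C_of_natDegree_eq_zero (show g.natDegree = 0 by omega), ← pow_mul, C_pow,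
      coeff_C_zero]
  choose P hP using hP
  exact const_vertex H hh (fun i => by rw [e i, hP i]) hC' n

theorem claim_of_no_insep {D : ℕ} (hD : D ≤ 5) {n₀ : ℕ}
    (hno : ∀ z : Fin 4 → A[X], Sol D z → (∀ i, (bar (z i)).natDegree ≤ n₀) → ¬ Insep z) :
    ∀ n, n ≤ n₀ → ∀ x : Fin 4 → A[X], Sol D x → ∀ b, Claim x b n := by
  intro n
  induction n using Nat.strong_induction_on with
  | _ n ih =>
    intro hn x H b Z hZ hne
    rcases Nat.eq_zero_or_pos n with rfl | hpos
    · exact Ineq.zero _ _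
    obtain ⟨z, Hz, hd, hco, hpw, ho⟩ := shrink H hpos hZ hne
    have ht : Top z n := top_of_claims hD Hz (hno z Hz fun i => (hd i).trans hn) hd
      fun b' m hm hdv => by
        rcases hm.lt_or_eq with hlt | rfl
        · exact ih m hlt (hlt.le.trans hn) z Hz b'
        · exact absurd hdv (hpw b')
    obtain ⟨i0, hi0⟩ := hne
    have := (ht hd ⟨i0, by rw [hco]; exact hi0⟩).mono ho
    simpa only [hco] using this

theorem no_insep {D : ℕ} (hD : D ≤ 5) {x : Fin 4 → A[X]} (H : Sol D x) : ¬ Insep x := by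
  intro hx
  obtain ⟨z, h, a, Hz, hg⟩ := exists_good H hx
  by_cases hs : ∃ i j, i ≠ j ∧ a i ^ 2 + a j ^ 2 = 0
  · obtain ⟨i, j, hij, e⟩ := hs
    obtain ⟨σ, h0, h1⟩ := exists_perm hij
    exact insep_special hD (Hz.perm σ) (hg.perm σ) (by simpa only [h0, h1] using e)
  push Not at hs
  refine insep_general hD Hz hg hs fun b => claim_of_no_insep hD (n₀ := 2) ?_ _ ?_ z Hz b
  · rintro y - hd ⟨h', a', hh', e', hd', i, j, hw⟩
    have key : ∀ l, (a' l).natDegree = 0 := fun l => by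
      by_cases h0 : a' l = 0
      · simp [h0]
      have h1 := hd l
      rw [e' l, natDegree_mul hh' (pow_ne_zero 3 h0), natDegree_pow] at h1
      omega
    apply hw
    rw [eq_C_of_natDegree_eq_zero (key i), eq_C_of_natDegree_eq_zero (key j)]
    simp [wronskian]
  · have h2 := natDegree_le_of_dvd (pow_rootMultiplicity_dvd h b) hg.ne
    rw [natDegree_pow, natDegree_X_sub_C, mul_one] at h2
    have := hg.degh
    omega

theorem no_sol {D : ℕ} (hD : D ≤ 5) (hpos : 0 < D) {x : Fin 4 → A[X]} (H : Sol D x)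
    (hf : ∃ i, (bar (x i)).coeff D ≠ 0) : False := by
  have hd : ∀ i, (bar (x i)).natDegree ≤ D := fun i => (natDegree_bar_le _).trans (H.deg i)
  have hI := top_of_claims hD H (no_insep hD H) hd (fun b m hm _ =>
    claim_of_no_insep hD (n₀ := D) (fun z Hz _ => no_insep hD Hz) m hm x H b) hd hf
  have hb : ∀ i j, i ≠ j → (nred (wronskian (x i) (x j))).natDegree + 2 ≤ 2 * D :=
    fun i j hij => (Nat.add_le_add_right (nd_nred_le _) 2).trans
      (natDegree_wronskian_le (H.deg i) (H.deg j) (H.ind i j hij))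
  set P : Fin 4 → kk A := fun i => (bar (x i)).coeff D with hP
  have h3 : (3 : kk A) = 0 := three_eq_zero'
  have hsum : P 0 ^ 2 + P 1 ^ 2 + P 2 ^ 2 + P 3 ^ 2 = 0 := by
    have h1 := (H.quad one_ne_zero fun i => (one_mul _).symm).1
    have h2 : ∀ i, (bar (x i) ^ 2).coeff (2 * D) = P i ^ 2 := fun i =>
      coeff_pow_of_natDegree_le (hd i)
    have h4 := congrArg (fun p => coeff p (2 * D)) h1
    simp only [Fin.sum_univ_four, coeff_add, h2, coeff_zero] at h4
    exact h4
  have two : ∀ i j, i ≠ j → P i = 0 → P j = 0 → False := fun i j hij hi hj => by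
    have := hI.two hpos i j hij hi hj
    have := hb i j hij
    omega
  have one : (∀ i, P i ≠ 0) → ∀ i j l, i ≠ j → i ≠ l → j ≠ l → P j ^ 2 + P l ^ 2 = 0 :=
    fun hne i j l hij hil hjl => by
      by_contra hc
      have := hI.one hne i j l hij hil hjl hc
      have := hb i j hij
      have := hb i l hil
      omega
  by_cases hne : ∀ i, P i ≠ 0
  · have e1 := one hne 0 1 2 (by decide) (by decide) (by decide)
    have e2 := one hne 0 1 3 (by decide) (by decide) (by decide)
    have e3 := one hne 0 2 3 (by decide) (by decide) (by decide)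
    apply hne 1
    have : P 1 ^ 2 = 0 := by linear_combination -e1 - e2 + e3 + P 1 ^ 2 * h3
    exact pow_eq_zero_iff two_ne_zero |>.1 this
  · push Not at hne
    obtain ⟨m, hm⟩ := hne
    obtain ⟨j, l, hjl, e⟩ := hI.line hpos
    obtain ⟨σ, h0, h1⟩ := exists_perm hjl
    have hs' : P (σ 0) ^ 2 + P (σ 1) ^ 2 + P (σ 2) ^ 2 + P (σ 3) ^ 2 = 0 := by
      have := Equiv.sum_comp σ fun i => P i ^ 2
      simp only [Fin.sum_univ_four] at this
      rw [this, hsum]
    have e01 : P (σ 0) ^ 2 + P (σ 1) ^ 2 = 0 := by rw [h0, h1]; exact e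
    have e23 : P (σ 2) ^ 2 + P (σ 3) ^ 2 = 0 := by linear_combination hs' - e01
    have z2 : ∀ u v : kk A, u ^ 2 + v ^ 2 = 0 → u = 0 → v = 0 := fun u v huv hu => by
      rw [hu] at huv
      exact pow_eq_zero_iff two_ne_zero |>.1 (by simpa using huv)
    obtain ⟨m', rfl⟩ := σ.surjective m
    fin_cases m'
    · exact two _ _ (σ.injective.ne (by decide : (0 : Fin 4) ≠ 1)) hm (z2 _ _ e01 hm)
    · exact two _ _ (σ.injective.ne (by decide : (1 : Fin 4) ≠ 0)) hm
        (z2 _ _ (by rw [add_comm]; exact e01) hm)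
    · exact two _ _ (σ.injective.ne (by decide : (2 : Fin 4) ≠ 3)) hm (z2 _ _ e23 hm)
    · exact two _ _ (σ.injective.ne (by decide : (3 : Fin 4) ≠ 2)) hm
        (z2 _ _ (by rw [add_comm]; exact e23) hm)

theorem main_poly {f : Fin 4 → ℂ[X]} (hd : ∀ i, (f i).natDegree ≤ 5) (h0 : f 0 ≠ 0)
    (hs : f 1 ^ 6 + f 2 ^ 6 + f 3 ^ 6 = f 0 ^ 6) : ∃ j, j ≠ 0 ∧ ∃ c : ℂ, f j = C c * f 0 := by
  by_contra hn
  push Not at hn
  obtain ⟨A, hA⟩ := exists_three
  obtain ⟨D, x, hD, hpos, H, hf⟩ := exists_sol A hd h0 hs hn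
  exact no_sol hD hpos H hf

end Pool.Agent.FS
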