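import Pool.Agent.P.MP_57148c_nt.Char3

open Polynomial

noncomputable section
namespace Pool.Agent.FS

variable {k : Type} [Field k] [IsAlgClosed k] [CharP k 3]

omit [IsAlgClosed k] in
theorem sl_der (a b : k[X]) :
    derivative (a ^ 5 * b - a * b ^ 5) = (a ^ 4 + b ^ 4) * wronskian a b := by
  simp only [derivative_sub, derivative_mul, derivative_pow_succ, wronskian, map_add, map_natCast,
    map_one]
  push_cast
  linear_combination (2 * a ^ 4 * derivative a * b - 2 * a * b ^ 4 * derivative b) *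
    (three_eq_zero (k := k))

omit [IsAlgClosed k] in
theorem sl_scalar {A B : k} (h : A ^ 4 + B ^ 4 = 0) (h' : A ^ 5 * B - A * B ^ 5 = 0) :
    A = 0 ∧ B = 0 := by
  have h3 := three_eq_zero' (k := k)
  have e : A ^ 5 * B = 0 := by linear_combination (-A * B) * h - h' + (A ^ 5 * B) * h3
  rcases mul_eq_zero.1 e with e | e
  · have a0 : A = 0 := pow_eq_zero_iff (by norm_num) |>.1 e
    refine ⟨a0, pow_eq_zero_iff (n := 4) (by norm_num) |>.1 ?_⟩
    rw [a0] at h
    simpa using h
  · refine ⟨pow_eq_zero_iff (n := 4) (by norm_num) |>.1 ?_, e⟩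
    rw [e] at h
    simpa using h

omit [IsAlgClosed k] in
theorem sl_w_zero {c d : k[X]} (h : c ^ 4 + d ^ 4 = 0) : wronskian c d = 0 := by
  by_cases hc : c = 0
  · rw [hc, wronskian_zero_left]
  have h1 := congrArg derivative h
  simp only [derivative_add, derivative_pow_succ, derivative_zero, map_add, map_natCast,
    map_one] at h1
  push_cast at h1
  have : c ^ 3 * wronskian c d = 0 := by
    rw [wronskian]
    linear_combination derivative d * h - d * h1 +
      (c ^ 3 * derivative c * d + d ^ 4 * derivative d) * (three_eq_zero (k := k))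
  exact (mul_eq_zero.1 this).resolve_left (pow_ne_zero _ hc)

/-- the degree count for one factor -/
theorem sl_deg {a b σ : k[X]} (hab : ∀ t, a.eval t = 0 → b.eval t ≠ 0)
    (hW : wronskian a b ≠ 0) (hσ : σ ≠ 0) (hd : a ^ 5 * b - a * b ^ 5 ∣ σ ^ 3) :
    ∃ α, (a ^ 5 * b - a * b ^ 5).natDegree ≤ 6 * α ∧ 4 * α + 1 ≤ σ.natDegree := by
  classical
  obtain ⟨Q, hQ⟩ : ∃ Q, Q = a ^ 5 * b - a * b ^ 5 := ⟨_, rfl⟩
  have hder : derivative Q = (a ^ 4 + b ^ 4) * wronskian a b := by rw [hQ, sl_der]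
  obtain ⟨α, hα⟩ : ∃ α, α = max a.natDegree b.natDegree := ⟨_, rfl⟩
  have ha : a.natDegree ≤ α := hα ▸ le_max_left _ _
  have hb : b.natDegree ≤ α := hα ▸ le_max_right _ _
  have ha0 : a ≠ 0 := fun e => hW (by rw [e, wronskian_zero_left])
  have hb0 : b ≠ 0 := fun e => hW (by rw [e, wronskian_zero_right])
  have hAB : ¬ (a.coeff α = 0 ∧ b.coeff α = 0) := by
    rintro ⟨h1, h2⟩
    rcases max_choice a.natDegree b.natDegree with e | e
    · rw [hα, e] at h1; exact ha0 (leadingCoeff_eq_zero.1 h1)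
    · rw [hα, e] at h2; exact hb0 (leadingCoeff_eq_zero.1 h2)
  have p5 : ∀ f : k[X], f.natDegree ≤ α → (f ^ 5).natDegree ≤ 5 * α := fun f hf =>
    natDegree_pow_le_of_le 5 hf
  have d6 : Q.natDegree ≤ 6 * α := by
    rw [hQ]
    refine (natDegree_sub_le _ _).trans (max_le ?_ ?_)
    · have := natDegree_mul_le_of_le (p5 a ha) hb; omega
    · have := natDegree_mul_le_of_le ha (p5 b hb); omega
  have c6 : Q.coeff (6 * α) = a.coeff α ^ 5 * b.coeff α - a.coeff α * b.coeff α ^ 5 := by
    have e1 := coeff_mul_add_eq_of_natDegree_le (p5 a ha) hb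
    have e2 := coeff_mul_add_eq_of_natDegree_le ha (p5 b hb)
    rw [coeff_pow_of_natDegree_le ha, show 5 * α + α = 6 * α by ring] at e1
    rw [coeff_pow_of_natDegree_le hb, show α + 5 * α = 6 * α by ring] at e2
    rw [hQ, coeff_sub, e1, e2]
  have c4 : (a ^ 4 + b ^ 4).coeff (4 * α) = a.coeff α ^ 4 + b.coeff α ^ 4 := by
    rw [coeff_add, coeff_pow_of_natDegree_le ha, coeff_pow_of_natDegree_le hb]
  rw [← hQ] at hd ⊢
  have hQ0 : Q ≠ 0 := fun e => pow_ne_zero 3 hσ (zero_dvd_iff.1 (e ▸ hd))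
  have cop : IsCoprime Q (a ^ 4 + b ^ 4) := coprime_of_no_root fun t h1 h2 => by
    rw [hQ] at h1
    simp only [eval_sub, eval_mul, eval_pow, eval_add] at h1 h2
    exact hab t (sl_scalar h2 h1).1 (sl_scalar h2 h1).2
  have g1 : EuclideanDomain.divRadical Q ∣ wronskian a b := by
    have h1 := divRadical_dvd_derivative Q
    rw [hder] at h1
    exact (cop.of_isCoprime_of_dvd_left (EuclideanDomain.divRadical_dvd_self Q)).dvd_of_dvd_mul_left
      h1
  have g2 : UniqueFactorizationMonoid.radical Q ∣ σ :=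
    UniqueFactorizationMonoid.isRadical_radical 3 σ
      (UniqueFactorizationMonoid.radical_dvd_self.trans hd)
  have g3 : Q.natDegree = (UniqueFactorizationMonoid.radical Q).natDegree +
      (EuclideanDomain.divRadical Q).natDegree := by
    rw [← natDegree_mul UniqueFactorizationMonoid.radical_ne_zero
      (EuclideanDomain.divRadical_ne_zero hQ0), EuclideanDomain.radical_mul_divRadical]
  have g4 := natDegree_le_of_dvd g1 hW
  have g5 := natDegree_le_of_dvd g2 hσ
  refine ⟨α, d6, ?_⟩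
  by_cases h4 : a.coeff α ^ 4 + b.coeff α ^ 4 = 0
  · have : Q.coeff (6 * α) ≠ 0 := fun e => hAB (sl_scalar h4 (c6 ▸ e))
    have h6 := le_natDegree_of_ne_zero this
    have h7 := natDegree_wronskian_le ha hb hW
    omega
  · rw [← c4] at h4
    have h6 := le_natDegree_of_ne_zero h4
    have h0 : a ^ 4 + b ^ 4 ≠ 0 := fun e => h4 (by rw [e, coeff_zero])
    have h7 := natDegree_mul h0 hW
    rw [← hder] at h7
    have h8 : derivative Q ≠ 0 := hder ▸ mul_ne_zero h0 hW
    have h9 : Q.natDegree ≠ 0 := fun e => h8 (derivative_of_natDegree_zero e)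
    have := natDegree_derivative_lt h9
    omega

/-- the product of the two sextic forms cannot have zero derivative -/
theorem sl_core {a b c d : k[X]} (hab : ∀ t, a.eval t = 0 → b.eval t ≠ 0)
    (hcd : ∀ t, c.eval t = 0 → d.eval t ≠ 0)
    (h0 : (a ^ 5 * b - a * b ^ 5) * (c ^ 5 * d - c * d ^ 5) ≠ 0)
    (h : derivative ((a ^ 5 * b - a * b ^ 5) * (c ^ 5 * d - c * d ^ 5)) = 0) :
    wronskian a b = 0 ∧ wronskian c d = 0 := by
  obtain ⟨σ, hσ⟩ := exists_cube h
  have q1 := left_ne_zero_of_mul h0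
  have q2 := right_ne_zero_of_mul h0
  rw [derivative_mul, sl_der, sl_der] at h
  by_cases w1 : wronskian a b = 0
  · refine ⟨w1, ?_⟩
    rw [w1, mul_zero, zero_mul, zero_add] at h
    exact (mul_eq_zero.1 ((mul_eq_zero.1 h).resolve_left q1)).elim sl_w_zero id
  by_cases w2 : wronskian c d = 0
  · rw [w2, mul_zero, mul_zero, add_zero] at h
    exact absurd ((mul_eq_zero.1 ((mul_eq_zero.1 h).resolve_right q2)).elim sl_w_zero id) w1
  exfalso
  have s0 : σ ≠ 0 := fun e => h0 (by rw [hσ, e]; simp)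
  obtain ⟨α, a1, a2⟩ := sl_deg hab w1 s0 (Dvd.intro _ hσ)
  obtain ⟨γ, c1, c2⟩ := sl_deg hcd w2 s0 (Dvd.intro_left _ hσ)
  have e := congrArg natDegree hσ
  rw [natDegree_mul q1 q2, natDegree_pow] at e
  omega

/-- a separable component lies on one of the twelve special lines -/
theorem special_line {X' : Fin 4 → k[X]} (hc : ∀ b, ∃ i, (X' i).eval b ≠ 0)
    (h2 : ∑ i, X' i ^ 2 = 0) (h5 : ∑ i, X' i ^ 5 * derivative (X' i) = 0)
    (hw : ∃ i j, wronskian (X' i) (X' j) ≠ 0) : ∃ i j, i ≠ j ∧ X' i ^ 2 + X' j ^ 2 = 0 := by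
  by_contra hne
  have hn : ∀ i j, i ≠ j → X' i ^ 2 + X' j ^ 2 ≠ 0 := fun i j h e => hne ⟨i, j, h, e⟩
  obtain ⟨i, hi⟩ := IsAlgClosed.exists_pow_nat_eq (-1 : k) (n := 2) (by norm_num)
  have hI : (C i : k[X]) ^ 2 = -1 := by rw [← C_pow, hi, C_neg, C_1]
  have h3 := three_eq_zero (k := k)
  rw [Fin.sum_univ_four] at h2 h5
  have hU : X' 0 + C i * X' 1 ≠ 0 := fun e => hn 0 1 (by decide) (by
    linear_combination (X' 0 - C i * X' 1) * e + X' 1 ^ 2 * hI)
  have hV : X' 2 + C i * X' 3 ≠ 0 := fun e => hn 2 3 (by decide) (by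
    linear_combination (X' 2 - C i * X' 3) * e + X' 3 ^ 2 * hI)
  obtain ⟨c, d, a, hcd, eU, eV⟩ :=
    UniqueFactorizationMonoid.exists_reduced_factors _ hU (X' 2 + C i * X' 3)
  have cop : IsCoprime c d := hcd.isCoprime
  have ha : a ≠ 0 := fun e => hU (by rw [← eU, e, zero_mul])
  have hd : d ≠ 0 := fun e => hV (by rw [← eV, e, mul_zero])
  have r1 : c * (X' 0 - C i * X' 1) = d * (-(X' 2 - C i * X' 3)) := by
    refine mul_left_cancel₀ ha ?_
    linear_combination (X' 0 - C i * X' 1) * eU + (X' 2 - C i * X' 3) * eV + h2 -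
      (X' 1 ^ 2 + X' 3 ^ 2) * hI
  obtain ⟨b, eU'⟩ : d ∣ X' 0 - C i * X' 1 := cop.symm.dvd_of_dvd_mul_left ⟨_, r1⟩
  have eV' : X' 2 - C i * X' 3 = -(b * c) := by
    refine mul_left_cancel₀ hd ?_
    linear_combination r1 - c * eU'
  have e0 : X' 0 = -(a * c + b * d) := by linear_combination eU - eU' + X' 0 * h3
  have e1 : X' 1 = C i * (a * c - b * d) := by
    linear_combination (-C i) * eU - C i * eU' - 2 * X' 1 * hI + X' 1 * h3
  have e2 : X' 2 = -(a * d - b * c) := by linear_combination eV - eV' + X' 2 * h3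
  have e3 : X' 3 = C i * (a * d + b * c) := by
    linear_combination (-C i) * eV - C i * eV' - 2 * X' 3 * hI + X' 3 * h3
  have hab : ∀ t, a.eval t = 0 → b.eval t ≠ 0 := fun t h1 h1' => by
    obtain ⟨j, hj⟩ := hc t
    apply hj
    fin_cases j
    · show (X' 0).eval t = 0
      simp [e0, h1, h1']
    · show (X' 1).eval t = 0
      simp [e1, h1, h1']
    · show (X' 2).eval t = 0
      simp [e2, h1, h1']
    · show (X' 3).eval t = 0
      simp [e3, h1, h1']
  have hcd' : ∀ t, c.eval t = 0 → d.eval t ≠ 0 := fun t h1 h1' => by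
    obtain ⟨u, v, huv⟩ := cop
    have := congrArg (eval t) huv
    simp [h1, h1'] at this
  have s1 : X' 0 ^ 2 + X' 1 ^ 2 = 4 * (a * b) * (c * d) := by
    rw [e0, e1]; linear_combination (a * c - b * d) ^ 2 * hI
  have s2 : X' 0 ^ 2 + X' 2 ^ 2 = (a ^ 2 + b ^ 2) * (c ^ 2 + d ^ 2) := by
    rw [e0, e2]; ring
  have s3 : X' 0 ^ 2 + X' 3 ^ 2 = (a ^ 2 - b ^ 2) * (c ^ 2 - d ^ 2) := by
    rw [e0, e3]; linear_combination (a * d + b * c) ^ 2 * hI
  have h0 : (a ^ 5 * b - a * b ^ 5) * (c ^ 5 * d - c * d ^ 5) ≠ 0 := fun e => by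
    refine mul_ne_zero (mul_ne_zero (hn 0 1 (by decide)) (hn 0 2 (by decide)))
      (hn 0 3 (by decide)) ?_
    rw [s1, s2, s3]
    linear_combination 4 * e
  have hI6 : (C i : k[X]) ^ 6 = -1 := by
    rw [show (C i : k[X]) ^ 6 = (C i ^ 2) ^ 3 by ring, hI]; ring
  have hder : derivative ((a ^ 5 * b - a * b ^ 5) * (c ^ 5 * d - c * d ^ 5)) = 0 := by
    have t : (a * c + b * d) ^ 5 * derivative (a * c + b * d) -
        (a * c - b * d) ^ 5 * derivative (a * c - b * d) +
        (a * d - b * c) ^ 5 * derivative (a * d - b * c) -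
        (a * d + b * c) ^ 5 * derivative (a * d + b * c) =
        2 * derivative ((a ^ 5 * b - a * b ^ 5) * (c ^ 5 * d - c * d ^ 5)) := by
      simp only [derivative_sub, derivative_add, derivative_mul, derivative_pow_succ, map_add,
        map_natCast, map_one]
      push_cast
      ring
    rw [e0, e1, e2, e3, derivative_neg, derivative_neg, derivative_C_mul, derivative_C_mul] at h5
    generalize derivative ((a ^ 5 * b - a * b ^ 5) * (c ^ 5 * d - c * d ^ 5)) = D at t ⊢
    generalize derivative (a * c + b * d) = D0 at t h5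
    generalize derivative (a * c - b * d) = D1 at t h5
    generalize derivative (a * d - b * c) = D2 at t h5
    generalize derivative (a * d + b * c) = D3 at t h5
    generalize a * c + b * d = S0 at t h5
    generalize a * c - b * d = S1 at t h5
    generalize a * d - b * c = S2 at t h5
    generalize a * d + b * c = S3 at t h5
    linear_combination t - h5 + (S1 ^ 5 * D1 + S3 ^ 5 * D3) * hI6 + D * h3
  obtain ⟨w1, w2⟩ := sl_core hab hcd' h0 hder
  obtain ⟨da, db⟩ := (coprime_of_no_root hab).wronskian_eq_zero_iff.1 w1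
  obtain ⟨dc, dd⟩ := cop.wronskian_eq_zero_iff.1 w2
  have hz : ∀ j, derivative (X' j) = 0 := fun j => by
    fin_cases j
    · show derivative (X' 0) = 0
      simp [e0, da, db, dc, dd]
    · show derivative (X' 1) = 0
      simp [e1, da, db, dc, dd]
    · show derivative (X' 2) = 0
      simp [e2, da, db, dc, dd]
    · show derivative (X' 3) = 0
      simp [e3, da, db, dc, dd]
  obtain ⟨j, l, hjl⟩ := hw
  exact hjl (by simp [wronskian, hz])

end Pool.Agent.FS
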