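import Pool.Agent.P.MP_57148c_nt.SL
import Pool.Agent.P.MP_57148c_nt.LevB
import Pool.Agent.P.MP_57148c_nt.Mob
import Pool.Agent.P.MP_57148c_nt.GenTop

open Polynomial

noncomputable section
namespace Pool.Agent.FS

variable {A : ValuationSubring ℂ} [Three A]

omit [Three A] in
theorem sepv_claim {x : Fin 4 → A[X]} {h : (kk A)[X]} {X' : Fin 4 → (kk A)[X]} (hh : h ≠ 0)
    (e : ∀ i, bar (x i) = h * X' i) {b : kk A} (hc : ∃ i, (X' i).eval b ≠ 0)
    (hC : Claim x b (rootMultiplicity b h)) :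
    ∃ u : kk A, u ≠ 0 ∧ Ineq (rootMultiplicity b h) (fun i => u * (X' i).eval b)
      fun i j => rootMultiplicity b (nred (wronskian (x i) (x j))) := by
  obtain ⟨h0, e0, hn⟩ := exists_eq_pow_rootMultiplicity_mul_and_not_dvd h hh b
  have hu : h0.eval b ≠ 0 := fun hz => hn (dvd_iff_isRoot.2 hz)
  obtain ⟨i0, hi0⟩ := hc
  have := hC (fun i => h0 * X' i) (fun i => by rw [e i, ← mul_assoc, ← e0])
    ⟨i0, by rw [eval_mul]; exact mul_ne_zero hu hi0⟩
  exact ⟨h0.eval b, hu, by simpa only [eval_mul] using this⟩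

theorem sepv_rm_pow {k : Type} [Field k] {f : k[X]} (hf : f ≠ 0) (b : k) (m : ℕ) :
    rootMultiplicity b (f ^ m) = m * rootMultiplicity b f := by
  induction m with
  | zero => simp
  | succ m ih =>
    rw [pow_succ, rootMultiplicity_mul (mul_ne_zero (pow_ne_zero _ hf) hf), ih]
    ring

theorem sepv_core {D : ℕ} (hD : D ≤ 5) {x : Fin 4 → A[X]} (H : Sol D x) {h : (kk A)[X]}
    {X' : Fin 4 → (kk A)[X]} (hh : h ≠ 0) (e : ∀ i, bar (x i) = h * X' i)
    (hc : ∀ b, ∃ i, (X' i).eval b ≠ 0) (hw : ∃ i j, wronskian (X' i) (X' j) ≠ 0)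
    (hC : ∀ b, Claim x b (rootMultiplicity b h)) (h01 : X' 0 ^ 2 + X' 1 ^ 2 = 0) (n : ℕ) :
    Top x n := by
  obtain ⟨i, i', hi, hi', e0, e2⟩ := exists_line (H.quad hh e).1 h01
  have hi0 : i ≠ 0 := fun hz => by simp [hz] at hi
  have hi0' : i' ≠ 0 := fun hz => by simp [hz] at hi'
  have hroot : ∀ b, (X' 1).eval b = 0 → (X' 3).eval b ≠ 0 := by
    intro b h1 h3
    obtain ⟨j, hj⟩ := hc b
    apply hj
    fin_cases j
    · show (X' 0).eval b = 0
      rw [e0, eval_mul, h1, mul_zero]
    · exact h1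
    · show (X' 2).eval b = 0
      rw [e2, eval_mul, h3, mul_zero]
    · exact h3
  have hlin : ∀ j, ∃ a c : kk A, X' j = C a * X' 1 + C c * X' 3 := by
    intro j
    fin_cases j
    · exact ⟨i, 0, by simpa using e0⟩
    · exact ⟨1, 0, by simp⟩
    · exact ⟨0, i', by simpa using e2⟩
    · exact ⟨0, 1, by simp⟩
  have hW : wronskian (X' 1) (X' 3) ≠ 0 := by
    intro hz
    obtain ⟨j, l, hjl⟩ := hw
    obtain ⟨a, c, ea⟩ := hlin j
    obtain ⟨a', c', ea'⟩ := hlin l
    apply hjl
    rw [ea, ea']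
    simp only [wronskian, derivative_add, derivative_mul, derivative_C, zero_mul, zero_add] at hz ⊢
    linear_combination (C a * C c' - C c * C a') * hz
  have h1 : X' 1 ≠ 0 := fun hz => hW (by rw [hz, wronskian_zero_left])
  have h3 : X' 3 ≠ 0 := fun hz => hW (by rw [hz, wronskian_zero_right])
  have b1 : bar (x 1) ≠ 0 := by rw [e]; exact mul_ne_zero hh h1
  have b3 : bar (x 3) ≠ 0 := by rw [e]; exact mul_ne_zero hh h3
  have f0 : bar (x 0) = C i * bar (x 1) := by rw [e, e, e0]; ring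
  have f2 : bar (x 2) = C i' * bar (x 3) := by rw [e, e, e2]; ring
  rcases levels H hi hi' f0 f2 b1 b3 with hg | hs | hd
  · exact gen_top H hi hi' hh (by rw [e, e0]) (e 1) (by rw [e, e2]) (e 3)
      (coprime_of_no_root hroot) hW hg hC n
  · exfalso
    obtain ⟨I, I', ρ, μ, m1, m3, -, -, -, -, -, -, -, -, -, -, hm, hE, w1, w3⟩ := hs
    have hα : bar m1 ≠ 0 := by
      intro hz
      rcases hm with hm | hm
      · exact hm hz
      · rw [hz, mul_zero, zero_add] at hE
        exact mul_ne_zero (mul_ne_zero (C_ne_zero.2 hi0') b3) hm hE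
    have hd := congrArg derivative hE
    simp only [derivative_add, derivative_mul, derivative_C, zero_mul, zero_add,
      derivative_zero] at hd
    simp only [wronskian] at w1 w3
    have hk : C i * bar m1 * wronskian (bar (x 1)) (bar (x 3)) = 0 := by
      simp only [wronskian]
      linear_combination derivative (bar (x 3)) * hE + bar (x 3) * hd
        + bar (x 3) * C i * w1 + bar (x 3) * C i' * w3
        - (bar (x 3) * (C i * derivative (bar (x 1)) * bar m1
          + C i' * derivative (bar (x 3)) * bar m3)) * (three_eq_zero (k := kk A))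
    have hW2 : wronskian (bar (x 1)) (bar (x 3)) = h ^ 2 * wronskian (X' 1) (X' 3) := by
      rw [e, e]
      simp only [wronskian, derivative_mul]
      ring
    rw [hW2] at hk
    exact mul_ne_zero (mul_ne_zero (C_ne_zero.2 hi0) hα) (mul_ne_zero (pow_ne_zero _ hh) hW) hk
  · exfalso
    have hex : (∃ b, (X' 1).eval b = 0) ∨ ∃ b, (X' 3).eval b = 0 := by
      by_contra hno
      rw [not_or] at hno
      have d1 : (X' 1).degree = 0 := by
        by_contra hd1
        exact hno.1 (IsAlgClosed.exists_root _ hd1)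
      have d3 : (X' 3).degree = 0 := by
        by_contra hd3
        exact hno.2 (IsAlgClosed.exists_root _ hd3)
      apply hW
      rw [eq_C_of_degree_eq_zero d1, eq_C_of_degree_eq_zero d3]
      simp [wronskian]
    rcases hex with ⟨b, hb⟩ | ⟨b, hb⟩
    · obtain ⟨-, hp, hle⟩ := deep_root hD H hi0 hi0' hd hh (e 1) (e 3) h1 hb (hroot b hb)
      obtain ⟨u, -, hI⟩ := sepv_claim hh e (hc b) (hC b)
      have := hI.two hp 0 1 (by decide) (by rw [e0, eval_mul, hb, mul_zero, mul_zero])
        (by rw [hb, mul_zero])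
      omega
    · obtain ⟨-, hp, hle⟩ := deep_root hD (H.perm sw) hi0' hi0 hd.swap hh
        (by simpa only [sw1] using e 3) (by simpa only [sw3] using e 1) h3 hb
        (fun hz => hroot b hz hb)
      simp only [sw0, sw1] at hle
      obtain ⟨u, -, hI⟩ := sepv_claim hh e (hc b) (hC b)
      have := hI.two hp 2 3 (by decide) (by rw [e2, eval_mul, hb, mul_zero, mul_zero])
        (by rw [hb, mul_zero])
      omega

/-- the vertex lemma for separable reductions -/
theorem sep_vertex {D : ℕ} (hD : D ≤ 5) {x : Fin 4 → A[X]} (H : Sol D x) {h : (kk A)[X]}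
    {X' : Fin 4 → (kk A)[X]} (hh : h ≠ 0) (e : ∀ i, bar (x i) = h * X' i)
    (hc : ∀ b, ∃ i, (X' i).eval b ≠ 0) (hw : ∃ i j, wronskian (X' i) (X' j) ≠ 0)
    (hC : ∀ b, Claim x b (rootMultiplicity b h)) (n : ℕ) : Top x n := by
  obtain ⟨q2, q5⟩ := H.quad hh e
  obtain ⟨i, j, hij, hs⟩ := special_line hc q2 q5 hw
  obtain ⟨σ, h0, h1⟩ := exists_perm hij
  refine Top.of_perm σ (sepv_core hD (H.perm σ) (X' := fun i => X' (σ i)) hh (fun i => e _)
    (fun b => ?_) ?_ (fun b => (hC b).perm σ) (by rw [h0, h1]; exact hs) n)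
  · obtain ⟨l, hl⟩ := hc b
    exact ⟨σ.symm l, by simpa using hl⟩
  · obtain ⟨l, l', hl⟩ := hw
    exact ⟨σ.symm l, σ.symm l', by simpa using hl⟩

omit [Three A] in
/-- constant reduction -/
theorem const_vertex {D : ℕ} {x : Fin 4 → A[X]} (H : Sol D x) {h : (kk A)[X]} {P : Fin 4 → kk A}
    (hh : h ≠ 0) (e : ∀ i, bar (x i) = h * C (P i))
    (hC : ∀ b, Claim x b (rootMultiplicity b h)) (n : ℕ) : Top x n := by
  intro hd hne
  rcases Nat.eq_zero_or_pos n with rfl | hn
  · exact Ineq.zero _ _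
  have hco : ∀ i, (bar (x i)).coeff n = h.coeff n * P i := fun i => by rw [e, coeff_mul_C]
  obtain ⟨i0, hi0⟩ := hne
  rw [hco] at hi0
  have hc0 : h.coeff n ≠ 0 := left_ne_zero_of_mul hi0
  have hP0 : P i0 ≠ 0 := right_ne_zero_of_mul hi0
  have hdeg : h.natDegree = n := by
    refine le_antisymm ?_ (le_natDegree_of_ne_zero hc0)
    have := hd i0
    rwa [e, natDegree_mul_C hP0] at this
  have hI : ∀ b, ∃ u : kk A, u ≠ 0 ∧ Ineq (rootMultiplicity b h) (fun i => u * P i)
      fun i j => rootMultiplicity b (nred (wronskian (x i) (x j))) := by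
    intro b
    obtain ⟨u, hu, hI⟩ := sepv_claim (X' := fun i => C (P i)) hh e (b := b)
      ⟨i0, by rwa [eval_C]⟩ (hC b)
    exact ⟨u, hu, by simpa only [eval_C] using hI⟩
  obtain ⟨b0, hb0⟩ := IsAlgClosed.exists_root h (by
    intro hz
    rw [natDegree_eq_zero_iff_degree_le_zero.2 hz.le] at hdeg
    omega)
  have hp0 : 0 < rootMultiplicity b0 h := (rootMultiplicity_pos hh).2 hb0
  simp only [hco]
  refine ⟨fun _ => ?_, fun hP i j l hij hil hjl hs => ?_, fun _ i j hij hi hj => ?_⟩
  · obtain ⟨u, hu, hI⟩ := hI b0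
    obtain ⟨j, l, hjl, hz⟩ := hI.line hp0
    refine ⟨j, l, hjl, ?_⟩
    have : u ^ 2 * (P j ^ 2 + P l ^ 2) = 0 := by linear_combination hz
    have h2 := (mul_eq_zero.1 this).resolve_left (pow_ne_zero _ hu)
    linear_combination h.coeff n ^ 2 * h2
  · have f0 := nred_ne_zero (H.ind i j hij)
    have g0 := nred_ne_zero (H.ind i l hil)
    have hdv := dvd_of_rm_le (pow_ne_zero 4 hh) (mul_ne_zero f0 g0) (by
      intro b
      obtain ⟨u, hu, hI⟩ := hI b
      rw [sepv_rm_pow hh, rootMultiplicity_mul (mul_ne_zero f0 g0)]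
      refine hI.one (fun m => mul_ne_zero hu (right_ne_zero_of_mul (hP m))) i j l hij hil hjl ?_
      intro hz
      apply hs
      have : u ^ 2 * (P j ^ 2 + P l ^ 2) = 0 := by linear_combination hz
      have h2 := (mul_eq_zero.1 this).resolve_left (pow_ne_zero _ hu)
      linear_combination h.coeff n ^ 2 * h2)
    have := natDegree_le_of_dvd hdv (mul_ne_zero f0 g0)
    rwa [natDegree_pow, natDegree_mul f0 g0, hdeg] at this
  · have f0 := nred_ne_zero (H.ind i j hij)
    have hx0 : (X - C b0 : (kk A)[X]) ≠ 0 := X_sub_C_ne_zero b0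
    have hi' : P i = 0 := (mul_eq_zero.1 hi).resolve_left hc0
    have hj' : P j = 0 := (mul_eq_zero.1 hj).resolve_left hc0
    have hdv := dvd_of_rm_le (pow_ne_zero 2 (mul_ne_zero hh hx0)) f0 (by
      intro b
      obtain ⟨u, hu, hI⟩ := hI b
      have h2 := fun hp => hI.two hp i j hij (by rw [hi', mul_zero]) (by rw [hj', mul_zero])
      rw [sepv_rm_pow (mul_ne_zero hh hx0), rootMultiplicity_mul (mul_ne_zero hh hx0)]
      by_cases hb : b = b0
      · subst hb
        rw [rootMultiplicity_X_sub_C_self]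
        have := h2 hp0
        omega
      · have hz : rootMultiplicity b (X - C b0 : (kk A)[X]) = 0 :=
          rootMultiplicity_eq_zero (by simpa [IsRoot, sub_eq_zero] using hb)
        rw [hz]
        rcases Nat.eq_zero_or_pos (rootMultiplicity b h) with h0 | h0
        · rw [h0]; omega
        · have := h2 h0
          omega)
    have := natDegree_le_of_dvd hdv f0
    rw [natDegree_pow, natDegree_mul hh hx0, natDegree_X_sub_C, hdeg] at this
    omega

end Pool.Agent.FS
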