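import Pool.Agent.P.MP_57148c_nt.Defs

open Polynomial

noncomputable section
namespace Pool.Agent.FS

variable {A : ValuationSubring ℂ}

theorem val_min (s : Finset A) (hs : s.Nonempty) : ∃ c ∈ s, ∀ a ∈ s, c ∣ a := by
  induction hs using Finset.Nonempty.cons_induction with
  | singleton a => exact ⟨a, by simp, by simp⟩
  | cons a s ha hs ih =>
    obtain ⟨c, hc, h⟩ := ih
    rcases ValuationRing.dvd_total a c with e | e
    · exact ⟨a, Finset.mem_cons_self _ _, fun b hb =>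
        (Finset.mem_cons.1 hb).elim (fun e' => e' ▸ dvd_rfl) fun hb => e.trans (h b hb)⟩
    · exact ⟨c, Finset.mem_cons.2 (Or.inr hc), fun b hb =>
        (Finset.mem_cons.1 hb).elim (fun e' => e' ▸ e) (h b)⟩

/-- two elements of a valuation ring are comparable -/
theorem level_cases (c₁ c₂ : A) : (∃ m, res m = 0 ∧ c₂ = c₁ * m) ∨ ∃ e, c₁ = c₂ * e := by
  rcases ValuationRing.dvd_total c₁ c₂ with ⟨m, hm⟩ | h
  · by_cases hu : IsUnit m
    · obtain ⟨u, rfl⟩ := hu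
      exact Or.inr ⟨(u⁻¹ : Aˣ), by rw [hm, Units.mul_inv_cancel_right]⟩
    · exact Or.inl ⟨m, (res_eq_zero_iff m).2 hu, hm⟩
  · exact Or.inr h

/-- division of a finite family by its content -/
theorem exists_prim {ι : Type} [Fintype ι] (F : ι → A[X]) (hF : ∃ i, F i ≠ 0) :
    ∃ (c : A) (G : ι → A[X]), c ≠ 0 ∧ (∀ i, F i = C c * G i) ∧ ∃ i, bar (G i) ≠ 0 := by
  classical
  obtain ⟨i, hi⟩ := hF
  obtain ⟨c, hc, h⟩ := val_min (Finset.univ.biUnion fun i => (F i).coeffs)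
    ⟨_, Finset.mem_biUnion.2 ⟨i, Finset.mem_univ _, coeff_mem_coeffs (leadingCoeff_ne_zero.2 hi)⟩⟩
  obtain ⟨j, -, hj⟩ := Finset.mem_biUnion.1 hc
  obtain ⟨n, hn, e⟩ := mem_coeffs_iff.1 hj
  have hc0 : c ≠ 0 := e ▸ mem_support_iff.1 hn
  have hd : ∀ i, C c ∣ F i := fun i => (C_dvd_iff_dvd_coeff _ _).2 fun m => by
    by_cases h0 : (F i).coeff m = 0
    · rw [h0]; exact dvd_zero c
    · exact h _ (Finset.mem_biUnion.2 ⟨i, Finset.mem_univ _, coeff_mem_coeffs h0⟩)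
  choose G hG using hd
  refine ⟨c, G, hc0, hG, j, fun h0 => ?_⟩
  have h1 : (G j).coeff n = 1 := by
    refine mul_left_cancel₀ hc0 ?_
    rw [← coeff_C_mul, ← hG, mul_one, e]
  have h2 := coeff_bar (G j) n
  rw [h0, h1, coeff_zero, res, map_one] at h2
  exact zero_ne_one h2

theorem exists_prim_one {f : A[X]} (hf : f ≠ 0) :
    ∃ (c : A) (g : A[X]), c ≠ 0 ∧ f = C c * g ∧ bar g ≠ 0 := by
  obtain ⟨c, G, h1, h2, i, h3⟩ := exists_prim (fun _ : Unit => f) ⟨(), hf⟩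
  exact ⟨c, G i, h1, h2 i, h3⟩

theorem exists_prim_two {f₁ f₂ : A[X]} (hf : f₁ ≠ 0 ∨ f₂ ≠ 0) :
    ∃ (c : A) (g₁ g₂ : A[X]), c ≠ 0 ∧ f₁ = C c * g₁ ∧ f₂ = C c * g₂ ∧
      (bar g₁ ≠ 0 ∨ bar g₂ ≠ 0) := by
  obtain ⟨c, G, h1, h2, i, h3⟩ := exists_prim (fun b : Bool => bif b then f₁ else f₂)
    (hf.elim (fun h => ⟨true, h⟩) fun h => ⟨false, h⟩)
  refine ⟨c, G true, G false, h1, h2 true, h2 false, ?_⟩
  cases i
  · exact Or.inr h3
  · exact Or.inl h3

/-- if all reductions vanish, the content lies in the maximal ideal -/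
theorem exists_C_mul_of_bar_eq_zero {f : A[X]} (hf : bar f = 0) :
    ∃ (c : A) (g : A[X]), res c = 0 ∧ f = C c * g := by
  by_cases h0 : f = 0
  · exact ⟨0, 0, map_zero _, by rw [h0, mul_zero]⟩
  · obtain ⟨c, g, -, h2, h3⟩ := exists_prim_one h0
    rw [h2, bar_mul, bar_C] at hf
    exact ⟨c, g, C_eq_zero.1 ((mul_eq_zero.1 hf).resolve_right h3), h2⟩

/-- comparison of two factorisations -/
theorem dvd_of_C_mul_eq {c₁ c₂ : A} {f₁ f₂ : A[X]} (h : C c₁ * f₁ = C c₂ * f₂) (h₁ : bar f₁ ≠ 0)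
    (hc : c₂ ≠ 0) : ∃ e, c₁ = c₂ * e ∧ bar f₂ = C (res e) * bar f₁ := by
  rcases level_cases c₁ c₂ with ⟨m, hm, e⟩ | ⟨e, he⟩
  · have h1 : c₁ ≠ 0 := fun h0 => hc (by rw [e, h0, zero_mul])
    rw [e, C_mul, mul_assoc] at h
    rw [mul_left_cancel₀ (C_ne_zero.2 h1) h, bar_mul, bar_C, hm, C_0, zero_mul] at h₁
    exact absurd rfl h₁
  · rw [he, C_mul, mul_assoc] at h
    exact ⟨e, he, by rw [← mul_left_cancel₀ (C_ne_zero.2 hc) h, bar_mul, bar_C]⟩

/-- Gauss lemma -/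
theorem gauss_dvd {c : A} {f w y : A[X]} (hf : bar f ≠ 0) (h : f * w = C c * y) :
    ∃ w₁, w = C c * w₁ := by
  by_cases hw : w = 0
  · exact ⟨0, by rw [hw, mul_zero]⟩
  have hc : c ≠ 0 := fun h0 => by
    rw [h0, C_0, zero_mul] at h
    exact hf (by rw [(mul_eq_zero.1 h).resolve_right hw, bar_zero])
  obtain ⟨c', g, -, h2, h3⟩ := exists_prim_one hw
  obtain ⟨e, he, -⟩ := dvd_of_C_mul_eq (c₁ := c') (f₁ := f * g) (f₂ := y)
    (by rw [← h, h2, mul_left_comm]) (by rw [bar_mul]; exact mul_ne_zero hf h3) hc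
  exact ⟨C e * g, by rw [h2, he, C_mul, mul_assoc]⟩

theorem nred_eq {c : A} {f g : A[X]} (h : f = C c * g) (hc : c ≠ 0) (hg : bar g ≠ 0) :
    ∃ u : kk A, u ≠ 0 ∧ nred f = C u * bar g := by
  have hex : ∃ g : A[X], bar g ≠ 0 ∧ ∃ c : A, c ≠ 0 ∧ f = C c * g := ⟨g, hg, c, hc, h⟩
  obtain ⟨h1, c', h2, h3⟩ := hex.choose_spec
  obtain ⟨e, -, he⟩ := dvd_of_C_mul_eq (h.symm.trans h3) hg h2
  refine ⟨res e, fun h0 => h1 (by rw [he, h0, C_0, zero_mul]), ?_⟩
  rw [nred, dif_pos hex, he]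

theorem nred_ne_zero {f : A[X]} (hf : f ≠ 0) : nred f ≠ 0 := by
  obtain ⟨c, g, h1, h2, h3⟩ := exists_prim_one hf
  obtain ⟨u, hu, e⟩ := nred_eq h2 h1 h3
  rw [e]
  exact mul_ne_zero (C_ne_zero.2 hu) h3

theorem rm_nred {c : A} {f g : A[X]} (h : f = C c * g) (hc : c ≠ 0) (hg : bar g ≠ 0) (b : kk A) :
    rootMultiplicity b (nred f) = rootMultiplicity b (bar g) := by
  obtain ⟨u, hu, e⟩ := nred_eq h hc hg
  rw [e, rootMultiplicity_mul (mul_ne_zero (C_ne_zero.2 hu) hg), rootMultiplicity_C, zero_add]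

theorem nd_nred {c : A} {f g : A[X]} (h : f = C c * g) (hc : c ≠ 0) (hg : bar g ≠ 0) :
    (nred f).natDegree = (bar g).natDegree := by
  obtain ⟨u, hu, e⟩ := nred_eq h hc hg
  rw [e, natDegree_C_mul hu]

theorem val_nred_zero : nred (0 : A[X]) = 0 := by
  refine dif_neg fun ⟨g, h1, c, h2, h3⟩ => h1 ?_
  rw [(mul_eq_zero.1 h3.symm).resolve_left (C_ne_zero.2 h2), bar_zero]

theorem val_nd_C {c : A} (hc : c ≠ 0) (f : A[X]) :
    (nred (C c * f)).natDegree = (nred f).natDegree := by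
  by_cases h0 : f = 0
  · rw [h0, mul_zero]
  · obtain ⟨c', g, h1, h2, h3⟩ := exists_prim_one h0
    rw [nd_nred h2 h1 h3, nd_nred (c := c * c') (g := g) (by rw [h2, C_mul, mul_assoc])
      (mul_ne_zero hc h1) h3]

theorem nd_nred_le (f : A[X]) : (nred f).natDegree ≤ f.natDegree := by
  by_cases h0 : f = 0
  · rw [h0, val_nred_zero, natDegree_zero]
    exact Nat.zero_le _
  · obtain ⟨c, g, h1, h2, h3⟩ := exists_prim_one h0
    rw [nd_nred h2 h1 h3, h2, natDegree_C_mul h1]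
    exact natDegree_bar_le g

theorem rm_nred_comm (f g : A[X]) (b : kk A) :
    rootMultiplicity b (nred (wronskian f g)) = rootMultiplicity b (nred (wronskian g f)) := by
  rw [← wronskian_neg_eq f g]
  by_cases h0 : wronskian f g = 0
  · rw [h0, neg_zero]
  · obtain ⟨c, w, h1, h2, h3⟩ := exists_prim_one h0
    rw [rm_nred h2 h1 h3,
      rm_nred (c := -c) (g := w) (by rw [h2, C_neg]; ring) (neg_ne_zero.2 h1) h3]

theorem nd_nred_comm (f g : A[X]) :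
    (nred (wronskian f g)).natDegree = (nred (wronskian g f)).natDegree := by
  rw [← wronskian_neg_eq f g, ← val_nd_C (c := -1) (by simp) (wronskian f g), C_neg, C_1,
    show -1 * wronskian f g = -wronskian f g by ring]

theorem nd_nred_C_mul {c : A} (hc : c ≠ 0) (f : A[X]) :
    (nred (C c * f)).natDegree = (nred f).natDegree := by
  exact val_nd_C hc f

end Pool.Agent.FS
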